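import Pool.Agent.H5Ref.Stm2

/-!
# Piece BETA (helper70)
-/

set_option autoImplicit false

namespace Pool.Agent.H5Ref

open Module Pool.Agent.H5Sym Pool.Agent.H5Dich Pool.Agent.H5Lin

namespace BetaP

lemma prod_two {m D M : ℕ} {j j' : Fin m} (h : j ≠ j') :
    (∏ i : Fin m, if i ∈ ({j, j'} : Finset (Fin m)) then D else M) * M ^ 2 = D ^ 2 * M ^ m := by
  have h1 : (∏ i : Fin m, if i ∈ ({j, j'} : Finset (Fin m)) then M else 1) = M ^ 2 := by
    rw [Fintype.prod_ite_mem, Finset.prod_pair h, pow_two]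
  have h2 : (∏ i : Fin m, if i ∈ ({j, j'} : Finset (Fin m)) then D else 1) = D ^ 2 := by
    rw [Fintype.prod_ite_mem, Finset.prod_pair h, pow_two]
  have h3 : (∏ _i : Fin m, M) = M ^ m := by
    rw [Finset.prod_const, Finset.card_univ, Fintype.card_fin]
  rw [← h1, ← h2, ← h3, ← Finset.prod_mul_distrib, ← Finset.prod_mul_distrib]
  refine Finset.prod_congr rfl fun i _ => ?_
  by_cases hi : i ∈ ({j, j'} : Finset (Fin m))
  · rw [if_pos hi, if_pos hi, if_pos hi]
  · rw [if_neg hi, if_neg hi, if_neg hi, mul_one, one_mul]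

lemma count_le {k P m D : ℕ} (S : Finset (Fin k × Fin P → ZMod 2)) (y : Fin k × Fin P → ZMod 2)
    (hD : Nat.card {i : Fin k → Fin P // y + uz i ∈ S} = D) {j j' : Fin m} (hj : j ≠ j') :
    ((Finset.univ : Finset (Fin (k + 1) → Fin m → Fin P)).filter fun f =>
      f 0 j = f 0 j' ∧ y + uz (fun c => f c.succ j) ∈ S ∧
        y + uz (fun c => f c.succ j') ∈ S).card * P ^ (2 * k + 1) ≤ D ^ 2 * P ^ ((k + 1) * m) := by
  classical
  have hX : ∀ a : Fin P, ((Finset.univ : Finset (Fin (k + 1) → Fin P)).filter fun g =>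
      g 0 = a ∧ y + uz (fun c => g c.succ) ∈ S).card ≤ D := by
    intro a
    rw [← hD, Nat.card_eq_fintype_card, Fintype.card_subtype]
    refine Finset.card_le_card_of_injOn (fun g c => g c.succ) ?_ ?_
    · intro g hg
      have hg' := (Finset.mem_filter.1 (Finset.mem_coe.1 hg)).2
      exact Finset.mem_coe.2 (Finset.mem_filter.2 ⟨Finset.mem_univ _, hg'.2⟩)
    · intro g hg g' hg' he
      have h1 := (Finset.mem_filter.1 (Finset.mem_coe.1 hg)).2
      have h2 := (Finset.mem_filter.1 (Finset.mem_coe.1 hg')).2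
      funext c
      refine Fin.cases ?_ (fun c => ?_) c
      · rw [h1.1, h2.1]
      · exact congrFun he c
  obtain ⟨X, hXd⟩ : ∃ X : Fin P → Finset (Fin (k + 1) → Fin P), ∀ a, X a =
      (Finset.univ : Finset (Fin (k + 1) → Fin P)).filter fun g =>
      g 0 = a ∧ y + uz (fun c => g c.succ) ∈ S := ⟨_, fun _ => rfl⟩
  have h1 : ((Finset.univ : Finset (Fin (k + 1) → Fin m → Fin P)).filter fun f =>
      f 0 j = f 0 j' ∧ y + uz (fun c => f c.succ j) ∈ S ∧
        y + uz (fun c => f c.succ j') ∈ S).card ≤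
      (Finset.univ.biUnion fun a : Fin P => Fintype.piFinset fun i : Fin m =>
        if i ∈ ({j, j'} : Finset (Fin m)) then X a else Finset.univ).card := by
    refine Finset.card_le_card_of_injOn (fun f i c => f c i) ?_ ?_
    · intro f hf
      have hf' := (Finset.mem_filter.1 (Finset.mem_coe.1 hf)).2
      refine Finset.mem_coe.2 (Finset.mem_biUnion.2 ⟨f 0 j, Finset.mem_univ _, ?_⟩)
      rw [Fintype.mem_piFinset]
      intro i
      by_cases hi : i ∈ ({j, j'} : Finset (Fin m))
      · rw [if_pos hi, hXd, Finset.mem_filter]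
        refine ⟨Finset.mem_univ _, ?_⟩
        rw [Finset.mem_insert, Finset.mem_singleton] at hi
        rcases hi with rfl | rfl
        · exact ⟨rfl, hf'.2.1⟩
        · exact ⟨hf'.1.symm, hf'.2.2⟩
      · rw [if_neg hi]
        exact Finset.mem_univ _
    · intro f _ f' _ he
      funext c i
      exact congrFun (congrFun he i) c
  have h2 : (Finset.univ.biUnion fun a : Fin P => Fintype.piFinset fun i : Fin m =>
        if i ∈ ({j, j'} : Finset (Fin m)) then X a else Finset.univ).card ≤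
      P * ∏ i : Fin m, if i ∈ ({j, j'} : Finset (Fin m)) then D else P ^ (k + 1) := by
    refine Finset.card_biUnion_le.trans ?_
    have h3 : ∀ a ∈ (Finset.univ : Finset (Fin P)), (Fintype.piFinset fun i : Fin m =>
        if i ∈ ({j, j'} : Finset (Fin m)) then X a else Finset.univ).card ≤
        ∏ i : Fin m, if i ∈ ({j, j'} : Finset (Fin m)) then D else P ^ (k + 1) := by
      intro a _
      rw [Fintype.card_piFinset]
      refine Finset.prod_le_prod' fun i _ => ?_
      by_cases hi : i ∈ ({j, j'} : Finset (Fin m))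
      · rw [if_pos hi, if_pos hi, hXd]
        exact hX a
      · rw [if_neg hi, if_neg hi, Finset.card_univ, Fintype.card_fun, Fintype.card_fin,
          Fintype.card_fin]
    refine (Finset.sum_le_card_nsmul _ _ _ h3).trans ?_
    rw [Finset.card_univ, Fintype.card_fin, smul_eq_mul]
  calc _ ≤ (P * ∏ i : Fin m, if i ∈ ({j, j'} : Finset (Fin m)) then D else P ^ (k + 1)) *
        P ^ (2 * k + 1) := Nat.mul_le_mul_right _ (h1.trans h2)
    _ = (∏ i : Fin m, if i ∈ ({j, j'} : Finset (Fin m)) then D else P ^ (k + 1)) *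
        (P ^ (k + 1)) ^ 2 := by ring
    _ = D ^ 2 * (P ^ (k + 1)) ^ m := prod_two hj
    _ = D ^ 2 * P ^ ((k + 1) * m) := by rw [← pow_mul]

end BetaP

open BetaP in
theorem beta : S_BETA := by
  classical
  intro k P m D S hD
  have h1 : ∑ f : Fin (k + 1) → Fin m → Fin P, bet S (fun j => uz fun c => f c.succ j) (f 0) =
      ∑ p ∈ S ×ˢ (Finset.univ : Finset (Fin m × Fin m)),
        ((Finset.univ : Finset (Fin (k + 1) → Fin m → Fin P)).filter fun f =>
          p.2.1 ≠ p.2.2 ∧ f 0 p.2.1 = f 0 p.2.2 ∧ p.1 + uz (fun c => f c.succ p.2.1) ∈ S ∧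
            p.1 + uz (fun c => f c.succ p.2.2) ∈ S).card := by
    simp only [bet, Finset.card_filter]
    rw [Finset.sum_comm]
  rw [h1, Finset.sum_mul]
  have h2 : ∀ p ∈ S ×ˢ (Finset.univ : Finset (Fin m × Fin m)),
      ((Finset.univ : Finset (Fin (k + 1) → Fin m → Fin P)).filter fun f =>
          p.2.1 ≠ p.2.2 ∧ f 0 p.2.1 = f 0 p.2.2 ∧ p.1 + uz (fun c => f c.succ p.2.1) ∈ S ∧
            p.1 + uz (fun c => f c.succ p.2.2) ∈ S).card * P ^ (2 * k + 1) ≤
        D ^ 2 * P ^ ((k + 1) * m) := by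
    intro p hp
    have hy := (Finset.mem_product.1 hp).1
    by_cases hj : p.2.1 = p.2.2
    · rw [Finset.filter_false_of_mem, Finset.card_empty, zero_mul]
      · exact Nat.zero_le _
      · intro f _ hf
        exact hf.1 hj
    · refine le_trans (Nat.mul_le_mul_right _ (Finset.card_le_card ?_))
        (count_le S p.1 (hD _ hy) hj)
      intro f hf
      rw [Finset.mem_filter] at hf ⊢
      exact ⟨hf.1, hf.2.2⟩
  refine (Finset.sum_le_card_nsmul _ _ _ h2).trans (le_of_eq ?_)
  rw [Finset.card_product, Finset.card_univ, Fintype.card_prod, Fintype.card_fin, smul_eq_mul]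
  ring

end Pool.Agent.H5Ref
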