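import Pool.Agent.H5Ref.Stm2
import Pool.Agent.H5Ref.Circ

/-!
# Piece CIRC2: the circuit for reachability in the double cover of the square (helper70; a modification
of the file Circ.lean)
-/

set_option autoImplicit false
set_option linter.all false

namespace Pool.Agent.H5Ref

open Module Pool.Agent.H5Sym Pool.Agent.H5Dich Pool.Agent.H5Lin

namespace Circ2

open Circ (Cn dt dt_add_left dt_add_right self_add card_cn)

variable {k : ℕ} {V : Type} [Fintype V] [DecidableEq V]

theorem vec1_flip (u : V → ZMod 2) (t : Cn (k + 1) V) : vec1 (flipC u t) = vec1 t := rfl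

theorem rt_flip (u : V → ZMod 2) (t : Cn (k + 1) V) : rt (flipC u t) = rt t := rfl

theorem dt_vec1 (u : V → ZMod 2) (t : Cn (k + 1) V) :
    dt u (vec1 t) = ∑ c : Fin k, u (t.2.1 c.succ) := by
  unfold dt vec1
  simp only [Finset.sum_apply, Finset.mul_sum]
  rw [Finset.sum_comm]
  refine Finset.sum_congr rfl fun c _ => ?_
  rw [Finset.sum_eq_single (t.2.1 c.succ)]
  · rw [Pi.single_eq_same, mul_one]
  · intro v _ hv
    rw [Pi.single_eq_of_ne hv, mul_zero]
  · intro h
    exact absurd (Finset.mem_univ _) h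

theorem sg_flip (u : V → ZMod 2) (t : Cn (k + 1) V) :
    sg (flipC u t) = sg t + (u (rt t) + dt u (vec1 t)) := by
  have h1 : u (rt t) + dt u (vec1 t) = ∑ c : Fin (k + 1), u (t.2.1 c) := by
    rw [dt_vec1, Fin.sum_univ_succ]
    rfl
  rw [h1]
  exact Finset.sum_add_distrib (s := Finset.univ) (f := fun c : Fin (k + 1) => t.2.2 c)
    (g := fun c : Fin (k + 1) => u (t.2.1 c))

variable (S : Finset (V → ZMod 2))

/-- the vertices of the double cover -/
abbrev Q : Type := {y // y ∈ S} × {y // y ∈ S} × ZMod 2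

/-- the number of the vertices -/
abbrev M : ℕ := 2 * S.card ^ 2

theorem card_Q : Fintype.card (Q S) = M S := by
  rw [Fintype.card_prod, Fintype.card_prod, Fintype.card_coe, ZMod.card]
  show _ = 2 * S.card ^ 2
  ring

variable (k) in
/-- the gates -/
abbrev Gt : Type :=
  Cn (k + 1) V ⊕ ((Cn (k + 1) V × Cn (k + 1) V) ⊕
    ((Fin (M S + 1) × Q S × Q S) ⊕ ((Fin (M S) × Q S × Q S × Q S) ⊕ Unit)))

variable {S}

/-- input gates -/
abbrev gI (t : Cn (k + 1) V) : Gt k S := Sum.inl t

/-- pair gates -/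
abbrev gD (t : Cn (k + 1) V × Cn (k + 1) V) : Gt k S := Sum.inr (Sum.inl t)

/-- reachability gates -/
abbrev gR (t : Fin (M S + 1)) (p q : Q S) : Gt k S := Sum.inr (Sum.inr (Sum.inl (t, p, q)))

/-- composition gates -/
abbrev gA (t : Fin (M S)) (p r q : Q S) : Gt k S :=
  Sum.inr (Sum.inr (Sum.inr (Sum.inl (t, p, r, q))))

/-- the output gate -/
abbrev gO : Gt k S := Sum.inr (Sum.inr (Sum.inr (Sum.inr ())))

/-- the relation of two vertices given by a pair of constraints -/
def Rel (c : Cn (k + 1) V × Cn (k + 1) V) (p q : Q S) : Prop :=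
  rt c.1 = rt c.2 ∧ vec1 c.1 = p.1.1 + q.1.1 ∧ vec1 c.2 = p.2.1.1 + q.2.1.1 ∧
    sg c.1 + sg c.2 = p.2.2 + q.2.2

instance (c : Cn (k + 1) V × Cn (k + 1) V) (p q : Q S) : Decidable (Rel c p q) := by
  unfold Rel
  infer_instance

/-- the wires into a reachability gate -/
def wR (t : Fin (M S + 1)) (p q : Q S) : Multiset (ℕ × Gt k S) :=
  Fin.cases ((Finset.univ.filter fun c : Cn (k + 1) V × Cn (k + 1) V => Rel c p q).val.map
      fun c => (0, gD c))
    (fun t' => (0, gR t'.castSucc p q) ::ₘ (Finset.univ : Finset (Q S)).val.map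
      fun r => (0, gA t' p r q)) t

/-- the vertex in the other sheet -/
def oth (p : Q S) : Q S := (p.1, p.2.1, p.2.2 + 1)

variable (k S) in
/-- the circuit -/
noncomputable def circ : LCircuit.{0, 0} (Con (pred (even (k + 1))) V) Bool where
  Gate := Gt k S
  Row := Empty
  finite := inferInstance
  owner r := r.elim
  label
    | Sum.inl t => .input t
    | Sum.inr (Sum.inl _) => .sym andB
    | Sum.inr (Sum.inr (Sum.inl _)) => .sym orB
    | Sum.inr (Sum.inr (Sum.inr (Sum.inl _))) => .sym andB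
    | Sum.inr (Sum.inr (Sum.inr (Sum.inr _))) => .sym norB
  wires
    | Sum.inl _ => 0
    | Sum.inr (Sum.inl x) => (0, gI x.1) ::ₘ {(0, gI x.2)}
    | Sum.inr (Sum.inr (Sum.inl x)) => wR x.1 x.2.1 x.2.2
    | Sum.inr (Sum.inr (Sum.inr (Sum.inl x))) =>
      (0, gR x.1.castSucc x.2.1 x.2.2.1) ::ₘ {(0, gR x.1.castSucc x.2.2.1 x.2.2.2)}
    | Sum.inr (Sum.inr (Sum.inr (Sum.inr _))) =>
      (Finset.univ : Finset (Q S)).val.map fun p => (0, gR (Fin.last _) p (oth p))
  entry r := r.elim
  level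
    | Sum.inl _ => 0
    | Sum.inr (Sum.inl _) => 1
    | Sum.inr (Sum.inr (Sum.inl x)) => 2 * (x.1 : ℕ) + 2
    | Sum.inr (Sum.inr (Sum.inr (Sum.inl x))) => 2 * (x.1 : ℕ) + 3
    | Sum.inr (Sum.inr (Sum.inr (Sum.inr _))) => 2 * M S + 3
  level_wires := by
    rintro (t | t | ⟨t, p, q⟩ | ⟨t, p, r, q⟩ | u) e he
    · exact absurd he (Multiset.notMem_zero _)
    · simp only [Multiset.mem_cons, Multiset.mem_singleton] at he
      rcases he with rfl | rfl
      · exact Nat.zero_lt_one
      · exact Nat.zero_lt_one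
    · revert he
      refine Fin.cases ?_ (fun t' => ?_) t
      · intro he
        simp only [wR, Fin.cases_zero, Multiset.mem_map] at he
        obtain ⟨c, -, rfl⟩ := he
        show 1 < 2 * 0 + 2
        norm_num
      · intro he
        simp only [wR, Fin.cases_succ, Multiset.mem_cons, Multiset.mem_map] at he
        rcases he with rfl | ⟨c, -, rfl⟩
        · simp only [Fin.val_castSucc, Fin.val_succ]
          omega
        · simp only [Fin.val_succ]
          omega
    · simp only [Multiset.mem_cons, Multiset.mem_singleton] at he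
      rcases he with rfl | rfl
      · simp only [Fin.val_castSucc]
        omega
      · simp only [Fin.val_castSucc]
        omega
    · simp only [Multiset.mem_map] at he
      obtain ⟨c, -, rfl⟩ := he
      simp only [Fin.val_last]
      omega
  level_entry i := i.elim
  out := gO

/-- the action on the double cover -/
def psi (u : V → ZMod 2) : Equiv.Perm (Q S) :=
  Equiv.prodShear (Equiv.refl _) fun y => Equiv.prodShear (Equiv.refl _) fun y' =>
    Equiv.addRight (dt u y.1 + dt u y'.1)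

theorem psi_apply (u : V → ZMod 2) (p : Q S) :
    psi u p = (p.1, p.2.1, p.2.2 + (dt u p.1.1 + dt u p.2.1.1)) := rfl

theorem psi_add (u v : V → ZMod 2) (p : Q S) : psi (u + v) p = psi u (psi v p) := by
  rw [psi_apply, psi_apply, psi_apply, dt_add_left, dt_add_left]
  refine Prod.ext rfl (Prod.ext rfl ?_)
  show p.2.2 + (dt u p.1.1 + dt v p.1.1 + (dt u p.2.1.1 + dt v p.2.1.1)) =
    p.2.2 + (dt v p.1.1 + dt v p.2.1.1) + (dt u p.1.1 + dt u p.2.1.1)
  ring

theorem psi_oth (u : V → ZMod 2) (p : Q S) : psi u (oth p) = oth (psi u p) := by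
  refine Prod.ext rfl (Prod.ext rfl ?_)
  show p.2.2 + 1 + (dt u p.1.1 + dt u p.2.1.1) = p.2.2 + (dt u p.1.1 + dt u p.2.1.1) + 1
  ring

/-- the action on the gates -/
def gact (u : V → ZMod 2) : Equiv.Perm (Gt k S) :=
  Equiv.sumCongr (flipC u) (Equiv.sumCongr (Equiv.prodCongr (flipC u) (flipC u))
    (Equiv.sumCongr (Equiv.prodCongr (Equiv.refl _)
    (Equiv.prodCongr (psi u) (psi u))) (Equiv.sumCongr (Equiv.prodCongr (Equiv.refl _)
      (Equiv.prodCongr (psi u) (Equiv.prodCongr (psi u) (psi u)))) (Equiv.refl _))))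

theorem map_psi {α : Type} (u : V → ZMod 2) (f : Q S → α) :
    (Finset.univ : Finset (Q S)).val.map (fun r => f (psi u r)) =
      (Finset.univ : Finset (Q S)).val.map f := by
  have h := Multiset.map_univ_val_equiv (psi (S := S) u)
  conv_rhs => rw [← h]
  rw [Multiset.map_map]
  rfl

theorem rel_flip (u : V → ZMod 2) (c : Cn (k + 1) V × Cn (k + 1) V) (p q : Q S)
    (h : Rel c p q) : Rel (flipC u c.1, flipC u c.2) (psi u p) (psi u q) := by
  obtain ⟨h0, h1, h2, h3⟩ := h
  refine ⟨h0, h1, h2, ?_⟩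
  show sg (flipC u c.1) + sg (flipC u c.2) = p.2.2 + (dt u p.1.1 + dt u p.2.1.1) +
    (q.2.2 + (dt u q.1.1 + dt u q.2.1.1))
  rw [sg_flip, sg_flip, h1, h2, h0, dt_add_right, dt_add_right]
  have h4 : ∀ x : ZMod 2, x + x = 0 := fun x => CharTwo.add_self_eq_zero x
  linear_combination h3 + h4 (u (rt c.2))

theorem psi_psi (u : V → ZMod 2) (p : Q S) : psi u (psi u p) = p := by
  rw [psi_apply, psi_apply]
  refine Prod.ext rfl (Prod.ext rfl ?_)
  show p.2.2 + (dt u p.1.1 + dt u p.2.1.1) + (dt u p.1.1 + dt u p.2.1.1) = p.2.2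
  have h4 : ∀ x : ZMod 2, x + x = 0 := fun x => CharTwo.add_self_eq_zero x
  linear_combination h4 (dt u p.1.1 + dt u p.2.1.1)

theorem wR_act (u : V → ZMod 2) (t : Fin (M S + 1)) (p q : Q S) :
    (wR t (psi u p) (psi u q) : Multiset (ℕ × Gt k S)) =
      (wR t p q).map (Prod.map id (gact u)) := by
  refine Fin.cases ?_ (fun t' => ?_) t
  · simp only [wR, Fin.cases_zero]
    rw [Multiset.map_map]
    have h : (Finset.univ.filter fun c : Cn (k + 1) V × Cn (k + 1) V =>
        Rel c (psi u p) (psi u q)) = (Finset.univ.filter fun c : Cn (k + 1) V × Cn (k + 1) V =>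
          Rel c p q).map (Equiv.prodCongr (flipC u) (flipC u)).toEmbedding := by
      ext c
      simp only [Finset.mem_filter, Finset.mem_univ, true_and, Finset.mem_map,
        Equiv.coe_toEmbedding]
      constructor
      · intro h1
        refine ⟨(flipC u c.1, flipC u c.2), ?_, ?_⟩
        · have h2 := rel_flip u c _ _ h1
          rwa [psi_psi, psi_psi] at h2
        · show (flipC u (flipC u c.1), flipC u (flipC u c.2)) = c
          rw [flipC_flipC, flipC_flipC]
      · rintro ⟨c, h1, rfl⟩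
        exact rel_flip u c _ _ h1
    rw [h, Finset.map_val, Multiset.map_map]
    rfl
  · simp only [wR, Fin.cases_succ]
    rw [Multiset.map_cons, Multiset.map_map]
    congr 1
    exact (map_psi u (fun r => ((0, gA t' (psi u p) r (psi u q)) : ℕ × Gt k S))).symm

variable (k S) in
/-- the action on the circuit -/
noncomputable def circAct : (circ k S).Action fun u : V → ZMod 2 => flipC u where
  gate u := gact u
  row _ := Equiv.refl _
  gate_add u v := by
    refine Equiv.ext ?_
    rintro (t | t | ⟨t, p, q⟩ | ⟨t, p, r, q⟩ | x)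
    · change Sum.inl (flipC (u + v) t) = Sum.inl (flipC u (flipC v t))
      rw [flipC_add]
      rfl
    · change gD (flipC (u + v) t.1, flipC (u + v) t.2) =
        gD (flipC u (flipC v t.1), flipC u (flipC v t.2))
      rw [flipC_add]
      rfl
    · change gR t (psi (u + v) p) (psi (u + v) q) = gR t (psi u (psi v p)) (psi u (psi v q))
      rw [psi_add, psi_add]
    · change gA t (psi (u + v) p) (psi (u + v) r) (psi (u + v) q) =
        gA t (psi u (psi v p)) (psi u (psi v r)) (psi u (psi v q))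
      rw [psi_add, psi_add, psi_add]
    · rfl
  row_add _ _ := rfl
  label u g := by
    rcases g with t | t | x | x | x <;> rfl
  wires u g := by
    rcases g with t | t | ⟨t, p, q⟩ | ⟨t, p, r, q⟩ | x
    · rfl
    · rfl
    · exact wR_act u t p q
    · rfl
    · change (Finset.univ : Finset (Q S)).val.map (fun p => ((0, gR (Fin.last _) p (oth p)) : ℕ × Gt k S)) =
        ((Finset.univ : Finset (Q S)).val.map fun p => (0, gR (Fin.last _) p (oth p))).map
          (Prod.map id (gact u))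
      rw [Multiset.map_map, ← map_psi u]
      refine Multiset.map_congr rfl fun p _ => ?_
      rw [← psi_oth]
      rfl
  owner _ i := i.elim
  entry _ i := i.elim
  out _ := rfl

/-! ### Evaluation -/

variable (φ : Con (pred (even (k + 1))) V → Bool)

/-- the value of a gate -/
noncomputable def ev (g : Gt k S) : Bool := (circ k S).eval φ g

theorem ev_sym (g : Gt k S) (f : Multiset (ℕ × Bool) → Bool) (W : Multiset (ℕ × Gt k S))
    (hl : (circ k S).label g = .sym f) (hw : (circ k S).wires g = W) :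
    ev φ g = f (W.map fun e => (e.1, ev φ e.2)) := by
  subst hw
  exact LCircuit.eval_sym hl

theorem eval_I (c : Cn (k + 1) V) : ev φ (gI c : Gt k S) = φ c :=
  LCircuit.eval_input (C := circ k S) rfl

theorem eval_D (t : Cn (k + 1) V × Cn (k + 1) V) : ev φ (gD t : Gt k S) = true ↔
    φ t.1 = true ∧ φ t.2 = true := by
  rw [ev_sym φ (gD t) andB ((0, gI t.1) ::ₘ {(0, gI t.2)}) rfl rfl,
    Multiset.map_cons, Multiset.map_singleton, andB, decide_eq_true_iff, Multiset.mem_cons,
    Multiset.mem_singleton]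
  simp only [Prod.mk.injEq, true_and, not_or, eval_I]
  constructor
  · rintro ⟨h1, h2⟩
    exact ⟨by simpa using Ne.symm h1, by simpa using Ne.symm h2⟩
  · rintro ⟨h1, h2⟩
    exact ⟨by rw [h1]; decide, by rw [h2]; decide⟩

/-- adjacency -/
def adj (p q : Q S) : Prop := ∃ t : Cn (k + 1) V × Cn (k + 1) V,
  (φ t.1 = true ∧ φ t.2 = true) ∧ Rel t p q

theorem eval_R0 (p q : Q S) : ev φ (gR 0 p q) = true ↔ adj φ p q := by
  rw [ev_sym φ (gR 0 p q) orB ((Finset.univ.filter fun c : Cn (k + 1) V × Cn (k + 1) V =>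
      Rel c p q).val.map fun c => (0, gD c)) rfl rfl,
    Multiset.map_map, orB, decide_eq_true_iff, Multiset.mem_map]
  constructor
  · rintro ⟨c, hc, he⟩
    rw [Finset.mem_val, Finset.mem_filter] at hc
    simp only [Function.comp, Prod.mk.injEq, true_and] at he
    exact ⟨c, (eval_D φ c).1 he, hc.2⟩
  · rintro ⟨c, hc, he⟩
    refine ⟨c, ?_, ?_⟩
    · rw [Finset.mem_val, Finset.mem_filter]
      exact ⟨Finset.mem_univ _, he⟩
    · simp only [Function.comp, (eval_D (S := S) φ c).2 hc]

theorem eval_A (t : Fin (M S)) (p r q : Q S) : ev φ (gA t p r q) = true ↔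
    ev φ (gR t.castSucc p r) = true ∧ ev φ (gR t.castSucc r q) = true := by
  rw [ev_sym φ (gA t p r q) andB ((0, gR t.castSucc p r) ::ₘ {(0, gR t.castSucc r q)}) rfl rfl,
    Multiset.map_cons, Multiset.map_singleton, andB, decide_eq_true_iff, Multiset.mem_cons,
    Multiset.mem_singleton]
  simp only [Prod.mk.injEq, true_and, not_or]
  constructor
  · rintro ⟨h1, h2⟩
    exact ⟨by simpa using Ne.symm h1, by simpa using Ne.symm h2⟩
  · rintro ⟨h1, h2⟩
    exact ⟨by rw [h1]; decide, by rw [h2]; decide⟩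

theorem eval_Rs (t : Fin (M S)) (p q : Q S) : ev φ (gR t.succ p q) = true ↔
    ev φ (gR t.castSucc p q) = true ∨ ∃ r,
      ev φ (gR t.castSucc p r) = true ∧ ev φ (gR t.castSucc r q) = true := by
  rw [ev_sym φ (gR t.succ p q) orB ((0, gR t.castSucc p q) ::ₘ
      (Finset.univ : Finset (Q S)).val.map fun r => (0, gA t p r q)) rfl rfl, Multiset.map_cons, Multiset.map_map, orB, decide_eq_true_iff, Multiset.mem_cons,
    Multiset.mem_map]
  simp only [Prod.mk.injEq, true_and, Function.comp, Finset.mem_val, Finset.mem_univ, ← eval_A]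
  constructor
  · rintro (h1 | ⟨r, h1⟩)
    · exact Or.inl h1.symm
    · exact Or.inr ⟨r, h1⟩
  · rintro (h1 | ⟨r, h1⟩)
    · exact Or.inl h1.symm
    · exact Or.inr ⟨r, h1⟩

theorem eval_out : ev φ (gO : Gt k S) = true ↔
    ∀ p : Q S, ¬ ev φ (gR (Fin.last _) p (oth p)) = true := by
  rw [ev_sym φ gO norB ((Finset.univ : Finset (Q S)).val.map
      fun p => (0, gR (Fin.last _) p (oth p))) rfl rfl, Multiset.map_map, norB, decide_eq_true_iff, Multiset.mem_map]
  simp only [Prod.mk.injEq, true_and, Function.comp, Finset.mem_val, Finset.mem_univ, not_exists]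

theorem adj_symm {p q : Q S} (h : adj φ p q) : adj φ q p := by
  obtain ⟨t, h1, h0, h2, h3, h4⟩ := h
  exact ⟨t, h1, h0, by rw [h2, add_comm], by rw [h3, add_comm], by rw [h4, add_comm]⟩

theorem mono {p q : Q S} (h : adj φ p q) (t : Fin (M S + 1)) :
    ev φ (gR t p q) = true := by
  induction t using Fin.induction with
  | zero => exact (eval_R0 φ p q).2 h
  | succ t ih => exact (eval_Rs φ t p q).2 (Or.inl ih)

/-- the graph -/
def gr : SimpleGraph (Q S) := SimpleGraph.fromRel (adj φ)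

theorem gr_adj {p q : Q S} (h : (gr φ).Adj p q) : adj φ p q := by
  rw [gr, SimpleGraph.fromRel_adj] at h
  rcases h.2 with h | h
  · exact h
  · exact adj_symm φ h

theorem walk (t : ℕ) : ∀ (ht : t < M S + 1) (p q : Q S) (w : (gr φ).Walk p q), p ≠ q →
    w.length ≤ t → ev φ (gR ⟨t, ht⟩ p q) = true := by
  induction t with
  | zero =>
    intro ht p q w hpq hw
    exact absurd (SimpleGraph.Walk.eq_of_length_eq_zero (Nat.le_zero.1 hw)) hpq
  | succ t ih =>
    intro ht p q w hpq hw
    have ht' : t < M S := Nat.lt_of_succ_lt_succ ht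
    have e : (⟨t + 1, ht⟩ : Fin (M S + 1)) = (⟨t, ht'⟩ : Fin (M S)).succ := rfl
    rw [e, eval_Rs]
    cases w with
    | nil => exact absurd rfl hpq
    | cons h w' =>
      rename_i r
      by_cases hr : r = q
      · subst hr
        exact Or.inl (mono φ (gr_adj φ h) _)
      · refine Or.inr ⟨r, mono φ (gr_adj φ h) _, ?_⟩
        refine ih _ r q w' hr ?_
        rw [SimpleGraph.Walk.length_cons] at hw
        omega

theorem reach {p q : Q S} (h : (gr φ).Reachable p q) (hpq : p ≠ q) :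
    ev φ (gR (Fin.last _) p q) = true := by
  classical
  obtain ⟨w⟩ := h
  have h1 := w.toPath.2.length_lt
  rw [card_Q] at h1
  exact walk φ (M S) (Nat.lt_succ_self _) p q w.toPath hpq h1.le

theorem pot (c : (V → ZMod 2) → (V → ZMod 2) → ZMod 2) (hc : ∀ t t', φ t = true → φ t' = true →
    rt t = rt t' → ∀ y ∈ S, ∀ y' ∈ S, y + vec1 t ∈ S → y' + vec1 t' ∈ S →
    c (y + vec1 t) (y' + vec1 t') = c y y' + (sg t + sg t')) (t : Fin (M S + 1)) : ∀ p q : Q S,
    ev φ (gR t p q) = true → c p.1.1 p.2.1.1 + p.2.2 = c q.1.1 q.2.1.1 + q.2.2 := by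
  induction t using Fin.induction with
  | zero =>
    intro p q h
    obtain ⟨t, ⟨h1, h1'⟩, h0, h2, h3, h4⟩ := (eval_R0 φ p q).1 h
    have h5 : p.1.1 + vec1 t.1 = q.1.1 := by
      rw [h2, ← add_assoc, self_add, zero_add]
    have h5' : p.2.1.1 + vec1 t.2 = q.2.1.1 := by
      rw [h3, ← add_assoc, self_add, zero_add]
    have h6 := hc t.1 t.2 h1 h1' h0 p.1.1 p.1.2 p.2.1.1 p.2.1.2 (by rw [h5]; exact q.1.2)
      (by rw [h5']; exact q.2.1.2)
    rw [h5, h5', h4] at h6
    rw [h6]
    have h7 : q.2.2 + q.2.2 = 0 := CharTwo.add_self_eq_zero _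
    linear_combination (-1 : ZMod 2) * h7
  | succ t ih =>
    intro p q h
    rcases (eval_Rs φ t p q).1 h with h | ⟨r, h1, h2⟩
    · exact ih p q h
    · exact (ih p r h1).trans (ih r q h2)

theorem correct : ev φ (gO : Gt k S) = true ↔
    ∃ c : (V → ZMod 2) → (V → ZMod 2) → ZMod 2, ∀ t t', φ t = true → φ t' = true →
      rt t = rt t' → ∀ y ∈ S, ∀ y' ∈ S, y + vec1 t ∈ S → y' + vec1 t' ∈ S →
        c (y + vec1 t) (y' + vec1 t') = c y y' + (sg t + sg t') := by
  classical
  rw [eval_out]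
  constructor
  · intro h
    have hnr : ∀ p : Q S, ¬ (gr φ).Reachable p (oth p) := by
      intro p hp
      refine h p (reach φ hp fun he => ?_)
      have h1 : p.2.2 = p.2.2 + 1 := congrArg (fun x : Q S => x.2.2) he
      exact absurd (left_eq_add.1 h1) one_ne_zero
    obtain ⟨e, he⟩ : ∃ e : (gr (S := S) φ).ConnectedComponent → ℕ, Function.Injective e :=
      Countable.exists_injective_nat _
    let m : Q S → ℕ := fun p => e ((gr (S := S) φ).connectedComponentMk p)
    have hm : ∀ p q, adj φ p q → m p = m q := by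
      intro p q hpq
      by_cases hne : p = q
      · rw [hne]
      · have h1 : (gr φ).Adj p q := by
          rw [gr, SimpleGraph.fromRel_adj]
          exact ⟨hne, Or.inl hpq⟩
        exact congrArg e (SimpleGraph.ConnectedComponent.sound h1.reachable)
    have hmo : ∀ p, m p ≠ m (oth p) := by
      intro p hp
      exact hnr p (SimpleGraph.ConnectedComponent.exact (he hp))
    refine ⟨fun y y' => if hy : y ∈ S ∧ y' ∈ S then
      (if m (⟨y, hy.1⟩, ⟨y', hy.2⟩, 0) < m (⟨y, hy.1⟩, ⟨y', hy.2⟩, 1) then 0 else 1) else 0,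
      fun t t' ht ht' hr y hy y' hy' hz hz' => ?_⟩
    beta_reduce
    rw [dif_pos (⟨hy, hy'⟩ : y ∈ S ∧ y' ∈ S),
      dif_pos (⟨hz, hz'⟩ : y + vec1 t ∈ S ∧ y' + vec1 t' ∈ S)]
    have a1 : ∀ a : ZMod 2, m (⟨y, hy⟩, ⟨y', hy'⟩, a) =
        m (⟨y + vec1 t, hz⟩, ⟨y' + vec1 t', hz'⟩, a + (sg t + sg t')) := by
      intro a
      apply hm
      refine ⟨(t, t'), ⟨ht, ht'⟩, hr, ?_, ?_, ?_⟩
      · show vec1 t = y + (y + vec1 t)
        rw [← add_assoc, self_add, zero_add]
      · show vec1 t' = y' + (y' + vec1 t')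
        rw [← add_assoc, self_add, zero_add]
      · show sg t + sg t' = a + (a + (sg t + sg t'))
        rw [← add_assoc a a, CharTwo.add_self_eq_zero, zero_add]
    have a2 := hmo (⟨y, hy⟩, ⟨y', hy'⟩, 0)
    have a3 : oth ((⟨y, hy⟩, ⟨y', hy'⟩, 0) : Q S) = (⟨y, hy⟩, ⟨y', hy'⟩, 1) := by
      refine Prod.ext rfl (Prod.ext rfl ?_)
      show (0 : ZMod 2) + 1 = 1
      rw [zero_add]
    rw [a3] at a2
    have b0 := a1 0
    have b1 := a1 1
    rcases F2.cases (sg t + sg t') with hs | hs
    · rw [hs, add_zero] at b0 b1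
      rw [b0, b1, hs, add_zero]
    · rw [hs, zero_add] at b0
      have e2 : (1 : ZMod 2) + 1 = 0 := CharTwo.add_self_eq_zero 1
      rw [hs, e2] at b1
      rw [← b0, ← b1, hs]
      by_cases hlt : m (⟨y, hy⟩, ⟨y', hy'⟩, 0) < m (⟨y, hy⟩, ⟨y', hy'⟩, 1)
      · rw [if_neg (not_lt.2 hlt.le), if_pos hlt, zero_add]
      · rw [if_pos (lt_of_le_of_ne (not_lt.1 hlt) (Ne.symm a2)), if_neg hlt, e2]
  · rintro ⟨c, hc⟩ p hp
    have h1 := pot φ c hc _ p (oth p) hp
    have h2 : c p.1.1 p.2.1.1 + p.2.2 = c p.1.1 p.2.1.1 + (p.2.2 + 1) := h1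
    have h3 : p.2.2 = p.2.2 + 1 := add_left_cancel h2
    exact absurd (left_eq_add.1 h3) one_ne_zero

end Circ2

open Circ2 in
theorem circ2 : S_CIRC2 := by
  intro k V _ _ S
  refine ⟨Circ2.circ k S, ⟨circAct k S⟩, ?_, ?_, ?_, fun φ => correct φ⟩
  · show Finite (Gt k S)
    infer_instance
  · intro g
    rcases g with t | t | x | x | x
    · exact Or.inl ⟨t, rfl⟩
    · exact Or.inr (Or.inr (Or.inl rfl))
    · exact Or.inr (Or.inl rfl)
    · exact Or.inr (Or.inr (Or.inl rfl))
    · exact Or.inr (Or.inr (Or.inr rfl))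
  · show Nat.card (Gt k S) + Nat.card Empty ≤ _
    have h1 : Nat.card (Q S) = M S := by
      rw [Nat.card_eq_fintype_card, card_Q]
    have h3 : Nat.card (Fin (M S + 1) × Q S × Q S) = (M S + 1) * (M S * M S) := by
      rw [Nat.card_prod, Nat.card_prod (Q S) (Q S), h1, Nat.card_fin]
    have h4 : Nat.card (Fin (M S) × Q S × Q S × Q S) = M S * (M S * (M S * M S)) := by
      rw [Nat.card_prod, Nat.card_prod (Q S) (Q S × Q S), Nat.card_prod (Q S) (Q S), h1,
        Nat.card_fin]
    have h5 : Nat.card Empty = 0 := Nat.card_eq_zero.2 (Or.inl inferInstance)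
    have h6 : Nat.card Unit = 1 := Nat.card_unique
    rw [Nat.card_sum, Nat.card_sum, Nat.card_sum, Nat.card_sum, Nat.card_prod, Circ.card_cn, h3, h4,
      h5, h6]
    have h2 : (M S + 1) * (M S * M S) + (M S * (M S * (M S * M S)) + 1) ≤
        2 * (2 * S.card ^ 2 + 1) ^ 4 := by
      show (M S + 1) * (M S * M S) + (M S * (M S * (M S * M S)) + 1) ≤ 2 * (M S + 1) ^ 4
      generalize M S = n
      nlinarith [Nat.zero_le n, Nat.zero_le (n ^ 2), Nat.zero_le (n ^ 3), Nat.zero_le (n ^ 4)]
    generalize (2 * Fintype.card V) ^ (k + 1) = x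
    rw [add_zero, ← pow_two x]
    omega

end Pool.Agent.H5Ref
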