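import Pool.Agent.H5Ref.Stm
import Pool.Agent.H5Sym.InfoSet

/-!
# Piece DIM (helper61): the dimension of the space of the right-hand sides with a potential
-/

set_option autoImplicit false

namespace Pool.Agent.H5Ref

open Module Pool.Agent.H5Sym

/-- the right-hand sides for which there is a potential -/
def pot {V : Type} (S : Finset (V → ZMod 2)) {m : ℕ} (z : Fin m → V → ZMod 2) :
    Submodule (ZMod 2) (Fin m → ZMod 2) where
  carrier := {b | ∃ c : (V → ZMod 2) → ZMod 2,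
    ∀ j, ∀ y ∈ S, y + z j ∈ S → c (y + z j) = c y + b j}
  zero_mem' := ⟨0, fun j y _ _ => by simp⟩
  add_mem' := by
    rintro a b ⟨c, hc⟩ ⟨c', hc'⟩
    refine ⟨c + c', fun j y hy hy' => ?_⟩
    rw [Pi.add_apply, Pi.add_apply, Pi.add_apply, hc j y hy hy', hc' j y hy hy']
    ring
  smul_mem' := by
    rintro r b ⟨c, hc⟩
    refine ⟨r • c, fun j y hy hy' => ?_⟩
    rw [Pi.smul_apply, Pi.smul_apply, Pi.smul_apply, hc j y hy hy', smul_add]

theorem dim (hyp : S_HYP) : S_DIM := by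
  classical
  intro V _ _ S m z α hα hS hz
  obtain ⟨ι₀, hι₀⟩ := exists_info (pot S z)
  have hcard : Nat.card {b : Fin m → ZMod 2 // ∃ c : (V → ZMod 2) → ZMod 2,
      ∀ j, ∀ y ∈ S, y + z j ∈ S → c (y + z j) = c y + b j} =
      2 ^ finrank (ZMod 2) (pot S z) := by
    have h1 := Module.natCard_eq_pow_finrank (K := ZMod 2) (V := pot S z)
    rw [Nat.card_zmod] at h1
    exact h1
  have hd : (finrank (ZMod 2) (pot S z) : ℝ) ≤ Real.logb 2 S.card / α := by
    generalize finrank (ZMod 2) (pot S z) = d at ι₀ hι₀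
    have h2 : ∀ i : Fin d, ∃ Φ : (V → ZMod 2) → ZMod 2, ∀ j : Fin d, ∀ y ∈ S,
        y + z (ι₀ j) ∈ S → Φ (y + z (ι₀ j)) = Φ y + if i = j then 1 else 0 := by
      intro i
      obtain ⟨b, ⟨c, hc⟩, hb⟩ := hι₀ fun j => if i = j then 1 else 0
      refine ⟨c, fun j y hy hy' => ?_⟩
      rw [hc _ y hy hy', hb j]
    choose Φ hΦ using h2
    have h3 := hyp (V → ZMod 2) (Fin d) S (fun j y => y + z (ι₀ j)) Φ
      (fun j => add_left_injective _) (fun i j y hy hy' => hΦ i j y hy hy')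
    have hS0 : (0 : ℝ) < S.card := by exact_mod_cast hS.card_pos
    have h4 : (d : ℝ) * (α * S.card) ≤
        ((∑ j : Fin d, (S.filter fun x => x + z (ι₀ j) ∈ S).card : ℕ) : ℝ) := by
      rw [Nat.cast_sum]
      calc (d : ℝ) * (α * S.card) = ∑ _j : Fin d, α * (S.card : ℝ) := by
            rw [Finset.sum_const, Finset.card_univ, Fintype.card_fin, nsmul_eq_mul]
        _ ≤ _ := Finset.sum_le_sum fun j _ => hz (ι₀ j)
    rw [le_div_iff₀ hα]
    have h5 := h4.trans h3
    have h6 : (S.card : ℝ) * (d * α) ≤ S.card * Real.logb 2 S.card := by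
      linarith [h5]
    exact le_of_mul_le_mul_left h6 hS0
  rw [hcard, Nat.cast_pow, Nat.cast_two, ← Real.rpow_natCast]
  exact Real.rpow_le_rpow_of_exponent_le one_le_two hd

end Pool.Agent.H5Ref
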