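import Pool.Agent.H5Ref.Stm
set_option autoImplicit false
namespace Pool.Agent.H5Ref


/-- `n log₂ n` -/
noncomputable def hypEnt (n : ℕ) : ℝ := n * Real.logb 2 n

lemma hent_add (a b : ℕ) (h : a ≤ b) : hypEnt a + hypEnt b + 2 * a ≤ hypEnt (a + b) := by
  rcases Nat.eq_zero_or_pos a with h0 | ha
  · subst h0; simp [hypEnt]
  have hb : 0 < b := lt_of_lt_of_le ha h
  have haR : (0 : ℝ) < a := by exact_mod_cast ha
  have hbR : (0 : ℝ) < b := by exact_mod_cast hb
  have hl2 : 0 < Real.log 2 := Real.log_pos (by norm_num)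
  have hab : (a : ℝ) ≤ b := by exact_mod_cast h
  -- first estimate
  have h1 : Real.log 2 ≤ Real.log (a + b) - Real.log a := by
    rw [← Real.log_div (by positivity) (by positivity)]
    apply Real.log_le_log (by norm_num)
    rw [le_div_iff₀ haR]; linarith
  -- second estimate
  have h2 : (a : ℝ) * Real.log 2 ≤ b * (Real.log (a + b) - Real.log b) := by
    rw [← Real.log_div (by positivity) (by positivity)]
    have hB := one_add_mul_self_le_rpow_one_add (s := (a : ℝ) / b) (by
      have : (0 : ℝ) ≤ (a : ℝ) / b := by positivity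
      linarith) (p := (b : ℝ) / a) (by rw [le_div_iff₀ haR]; linarith)
    have e1 : (1 : ℝ) + (b : ℝ) / a * ((a : ℝ) / b) = 2 := by field_simp; norm_num
    rw [e1] at hB
    have e2 : (1 : ℝ) + (a : ℝ) / b = (a + b) / b := by field_simp; ring
    rw [e2] at hB
    have h3 : Real.log 2 ≤ (b : ℝ) / a * Real.log ((a + b) / b) := by
      rw [← Real.log_rpow (by positivity)]
      exact Real.log_le_log (by norm_num) hB
    calc (a : ℝ) * Real.log 2 ≤ a * ((b : ℝ) / a * Real.log ((a + b) / b)) :=
          mul_le_mul_of_nonneg_left h3 haR.le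
      _ = b * Real.log ((a + b) / b) := by field_simp
  unfold hypEnt
  rw [Nat.cast_add]
  unfold Real.logb
  rw [show (a : ℝ) * (Real.log a / Real.log 2) + b * (Real.log b / Real.log 2) + 2 * a
      = (a * Real.log a + b * Real.log b + 2 * a * Real.log 2) / Real.log 2 by field_simp,
    show ((a : ℝ) + b) * (Real.log (a + b) / Real.log 2)
      = ((a : ℝ) + b) * Real.log (a + b) / Real.log 2 by ring]
  apply div_le_div_of_nonneg_right _ hl2.le
  have h1' := mul_le_mul_of_nonneg_left h1 haR.le
  nlinarith

lemma hent_add' (a b : ℕ) : hypEnt a + hypEnt b + 2 * (min a b : ℕ) ≤ hypEnt (a + b) := by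
  rcases le_total a b with h | h
  · rw [min_eq_left h]; exact hent_add a b h
  · rw [min_eq_right h, add_comm a b, add_comm (hypEnt a)]; exact hent_add b a h

lemma hyp_main {X J : Type} [DecidableEq X] [DecidableEq J]
    (τ : J → X → X) (Φ : J → X → ZMod 2) (hinj : ∀ j, Function.Injective (τ j)) (J' : Finset J) :
    ∀ S : Finset X,
      (∀ i ∈ J', ∀ j ∈ J', ∀ x ∈ S, τ j x ∈ S → Φ i (τ j x) = Φ i x + if i = j then 1 else 0) →
      ((∑ j ∈ J', (S.filter fun x => τ j x ∈ S).card : ℕ) : ℝ) ≤ hypEnt S.card := by
  classical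
  induction J' using Finset.induction_on with
  | empty =>
    intro S _
    simp only [Finset.sum_empty, Nat.cast_zero]
    unfold hypEnt
    rcases Nat.eq_zero_or_pos S.card with h | h
    · rw [h]; simp
    · apply mul_nonneg (by positivity)
      apply Real.logb_nonneg (by norm_num)
      exact_mod_cast h
  | insert j₀ J' hj ih =>
    intro S hS
    set S₀ := S.filter fun x => Φ j₀ x = 0 with hS0
    set S₁ := S.filter fun x => ¬ Φ j₀ x = 0 with hS1
    have hcard : S₀.card + S₁.card = S.card := Finset.card_filter_add_card_filter_not _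
    have hsub : ∀ T : Finset X, T ⊆ S →
        (∀ i ∈ J', ∀ j ∈ J', ∀ x ∈ T, τ j x ∈ T → Φ i (τ j x) = Φ i x + if i = j then 1 else 0) := by
      intro T hT i hi j hj' x hx hx'
      exact hS i (Finset.mem_insert_of_mem hi) j (Finset.mem_insert_of_mem hj') x (hT hx) (hT hx')
    have h0 := ih S₀ (hsub _ (Finset.filter_subset _ _))
    have h1 := ih S₁ (hsub _ (Finset.filter_subset _ _))
    have hsplit : ∀ j ∈ J', (S.filter fun x => τ j x ∈ S).card =
        (S₀.filter fun x => τ j x ∈ S₀).card + (S₁.filter fun x => τ j x ∈ S₁).card := by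
      intro j hj'
      have hne : j₀ ≠ j := by rintro rfl; exact hj hj'
      have key : ∀ x ∈ S, τ j x ∈ S → Φ j₀ (τ j x) = Φ j₀ x := by
        intro x hx hx'
        have := hS j₀ (Finset.mem_insert_self _ _) j (Finset.mem_insert_of_mem hj') x hx hx'
        rw [if_neg hne, add_zero] at this; exact this
      rw [← Finset.card_filter_add_card_filter_not (s := S.filter fun x => τ j x ∈ S)
        (fun x => Φ j₀ x = 0)]
      congr 1
      · congr 1; ext x
        simp only [hS0, Finset.mem_filter]
        constructor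
        · rintro ⟨⟨hx, hx'⟩, h⟩
          exact ⟨⟨hx, h⟩, hx', by rw [key x hx hx']; exact h⟩
        · rintro ⟨⟨hx, h⟩, hx', _⟩
          exact ⟨⟨hx, hx'⟩, h⟩
      · congr 1; ext x
        simp only [hS1, Finset.mem_filter]
        constructor
        · rintro ⟨⟨hx, hx'⟩, h⟩
          exact ⟨⟨hx, h⟩, hx', by rw [key x hx hx']; exact h⟩
        · rintro ⟨⟨hx, h⟩, hx', _⟩
          exact ⟨⟨hx, hx'⟩, h⟩
    have hj0 : (S.filter fun x => τ j₀ x ∈ S).card ≤ 2 * min S₀.card S₁.card := by
      have key : ∀ x ∈ S, τ j₀ x ∈ S → Φ j₀ (τ j₀ x) = Φ j₀ x + 1 := by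
        intro x hx hx'
        have := hS j₀ (Finset.mem_insert_self _ _) j₀ (Finset.mem_insert_self _ _) x hx hx'
        rw [if_pos rfl] at this; exact this
      rw [← Finset.card_filter_add_card_filter_not (s := S.filter fun x => τ j₀ x ∈ S)
        (fun x => Φ j₀ x = 0), two_mul]
      have z2 : ∀ a : ZMod 2, ¬ a = 0 → a + 1 = 0 := by decide
      have z1 : ∀ a : ZMod 2, a = 0 → ¬ a + 1 = 0 := by decide
      apply Nat.add_le_add
      · apply le_min
        · apply Finset.card_le_card
          intro x hx
          simp only [Finset.mem_filter] at hx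
          simp only [hS0, Finset.mem_filter]
          exact ⟨hx.1.1, hx.2⟩
        · apply Finset.card_le_card_of_injOn (τ j₀)
          · intro x hx
            simp only [Finset.coe_filter, Finset.mem_filter, Set.mem_ofPred_eq] at hx
            simp only [hS1, Finset.coe_filter, Set.mem_ofPred_eq]
            refine ⟨hx.1.2, ?_⟩
            rw [key x hx.1.1 hx.1.2]; exact z1 _ hx.2
          · exact (hinj j₀).injOn
      · apply le_min
        · apply Finset.card_le_card_of_injOn (τ j₀)
          · intro x hx
            simp only [Finset.coe_filter, Finset.mem_filter, Set.mem_ofPred_eq] at hx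
            simp only [hS0, Finset.coe_filter, Set.mem_ofPred_eq]
            refine ⟨hx.1.2, ?_⟩
            rw [key x hx.1.1 hx.1.2]; exact z2 _ hx.2
          · exact (hinj j₀).injOn
        · apply Finset.card_le_card
          intro x hx
          simp only [Finset.mem_filter] at hx
          simp only [hS1, Finset.mem_filter]
          exact ⟨hx.1.1, hx.2⟩
    rw [Finset.sum_insert hj, Finset.sum_congr rfl hsplit, Finset.sum_add_distrib]
    have hE := hent_add' S₀.card S₁.card
    rw [hcard] at hE
    have hj0R : ((S.filter fun x => τ j₀ x ∈ S).card : ℝ) ≤ 2 * (min S₀.card S₁.card : ℕ) := by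
      exact_mod_cast hj0
    push_cast at h0 h1 hE hj0R ⊢
    linarith

theorem hyp : S_HYP := by
  intro X J _ _ _ S τ Φ hinj h
  exact hyp_main τ Φ hinj Finset.univ S (fun i _ j _ => h i j)

end Pool.Agent.H5Ref
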