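import Mathlib

/-!
# Piece LEV: two consecutive levels
-/

set_option autoImplicit false

namespace Pool.Agent.H5Ref

open Finset

namespace LevP

variable {P : ℕ}

/-- the support -/
def sp (r : Fin P → ZMod 2) : Finset (Fin P) := univ.filter fun i => r i ≠ 0

/-- the weight -/
def wt (r : Fin P → ZMod 2) : ℕ := (sp r).card

/-- the indicator -/
def ind (s : Finset (Fin P)) : Fin P → ZMod 2 := fun i => if i ∈ s then 1 else 0

theorem z2 (x : ZMod 2) : x = 0 ∨ x = 1 := by
  revert x; decide

theorem sp_ind (s : Finset (Fin P)) : sp (ind s) = s := by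
  ext i
  simp [sp, ind]

theorem ind_sp (r : Fin P → ZMod 2) : ind (sp r) = r := by
  funext i
  rcases z2 (r i) with h | h
  · simp [sp, ind, h]
  · simp [sp, ind, h]

theorem card_W (n : ℕ) : (univ.filter fun r : Fin P → ZMod 2 => wt r = n).card = P.choose n := by
  have h0 : P.choose n = (Finset.powersetCard n (univ : Finset (Fin P))).card := by
    rw [Finset.card_powersetCard, Finset.card_univ, Fintype.card_fin]
  rw [h0]
  refine Finset.card_bij' (fun r _ => sp r) (fun s _ => ind s) ?_ ?_ ?_ ?_
  · intro r hr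
    rw [Finset.mem_powersetCard]
    exact ⟨Finset.subset_univ _, (Finset.mem_filter.1 hr).2⟩
  · intro s hs
    rw [Finset.mem_filter]
    refine ⟨Finset.mem_univ _, ?_⟩
    show (sp (ind s)).card = n
    rw [sp_ind]
    exact (Finset.mem_powersetCard.1 hs).2
  · intro r _
    exact ind_sp r
  · intro s _
    exact sp_ind s

theorem card_W0 (n : ℕ) (j : Fin P) :
    (univ.filter fun r : Fin P → ZMod 2 => wt r = n ∧ r j = 0).card = (P - 1).choose n := by
  have h0 : ((univ : Finset (Fin P)).erase j).card = P - 1 := by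
    rw [Finset.card_erase_of_mem (Finset.mem_univ _), Finset.card_univ, Fintype.card_fin]
  rw [← h0, ← Finset.card_powersetCard]
  refine Finset.card_bij' (fun r _ => sp r) (fun s _ => ind s) ?_ ?_ ?_ ?_
  · intro r hr
    obtain ⟨-, h1, h2⟩ := Finset.mem_filter.1 hr
    rw [Finset.mem_powersetCard]
    refine ⟨?_, h1⟩
    intro i hi
    rw [Finset.mem_erase]
    refine ⟨?_, Finset.mem_univ _⟩
    rintro rfl
    exact (Finset.mem_filter.1 hi).2 h2
  · intro s hs
    obtain ⟨h1, h2⟩ := Finset.mem_powersetCard.1 hs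
    rw [Finset.mem_filter]
    refine ⟨Finset.mem_univ _, ?_, ?_⟩
    · show (sp (ind s)).card = n
      rw [sp_ind]
      exact h2
    · show (if j ∈ s then (1 : ZMod 2) else 0) = 0
      rw [if_neg]
      intro hj
      exact (Finset.mem_erase.1 (h1 hj)).1 rfl
  · intro r _
    exact ind_sp r
  · intro s _
    exact sp_ind s

theorem card_W1 (n : ℕ) (j : Fin P) (hP : 1 ≤ P) :
    (univ.filter fun r : Fin P → ZMod 2 => wt r = n + 1 ∧ r j ≠ 0).card = (P - 1).choose n := by
  have h1 := card_W (P := P) (n + 1)
  have h2 := card_W0 (n + 1) j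
  have h3 : (univ.filter fun r : Fin P → ZMod 2 => wt r = n + 1).card =
      (univ.filter fun r : Fin P → ZMod 2 => wt r = n + 1 ∧ r j = 0).card +
      (univ.filter fun r : Fin P → ZMod 2 => wt r = n + 1 ∧ r j ≠ 0).card := by
    rw [← Finset.filter_filter, ← Finset.filter_filter]
    exact (Finset.card_filter_add_card_filter_not _).symm
  rw [h1, h2] at h3
  obtain ⟨Q, rfl⟩ : ∃ Q, P = Q + 1 := ⟨P - 1, by omega⟩
  rw [Nat.choose_succ_succ] at h3
  simp only [Nat.add_sub_cancel] at h3 ⊢
  simp only [Nat.succ_eq_add_one] at h3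
  omega

theorem wt_add0 {r : Fin P → ZMod 2} {j : Fin P} (h : r j = 0) :
    wt (r + Pi.single j 1) = wt r + 1 := by
  have h1 : sp (r + Pi.single j 1) = insert j (sp r) := by
    ext i
    by_cases hi : i = j
    · subst hi
      simp [sp, h]
    · simp [sp, hi]
  unfold wt
  rw [h1, Finset.card_insert_of_notMem]
  simp [sp, h]

theorem wt_add1 {r : Fin P → ZMod 2} {j : Fin P} (h : r j ≠ 0) :
    wt r = wt (r + Pi.single j 1) + 1 := by
  have h2 : (1 : ZMod 2) + 1 = 0 := by decide
  have h1 : (r + Pi.single j 1 : Fin P → ZMod 2) j = 0 := by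
    rcases z2 (r j) with h' | h'
    · exact absurd h' h
    · simp [h', h2]
  have h3 := wt_add0 h1
  have h4 : r + Pi.single j 1 + Pi.single j 1 = r := by
    rw [add_assoc, ← Pi.single_add, h2, Pi.single_zero, add_zero]
  rw [h4] at h3
  exact h3

/-- the row -/
def row {h : ℕ} (y : Fin (2 * h) × Fin P → ZMod 2) (c : Fin (2 * h)) : Fin P → ZMod 2 :=
  fun i => y (c, i)

theorem card_pf {h : ℕ} (F : Fin (2 * h) → Finset (Fin P → ZMod 2)) :
    (univ.filter fun y : Fin (2 * h) × Fin P → ZMod 2 => ∀ c, row y c ∈ F c).card =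
      ∏ c, (F c).card := by
  rw [← Fintype.card_piFinset]
  refine Finset.card_bij' (fun y _ => fun c => row y c) (fun f _ => fun p => f p.1 p.2) ?_ ?_ ?_ ?_
  · intro y hy
    rw [Fintype.mem_piFinset]
    exact (Finset.mem_filter.1 hy).2
  · intro f hf
    rw [Finset.mem_filter]
    exact ⟨Finset.mem_univ _, fun c => Fintype.mem_piFinset.1 hf c⟩
  · intro y _
    rfl
  · intro f _
    rfl

open scoped Classical in
theorem count {h : ℕ} (G : Finset (Fin (2 * h)) → Fin (2 * h) → Finset (Fin P → ZMod 2)) (x z : ℕ)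
    (hd : ∀ B B' c r, r ∈ G B c → r ∈ G B' c → (c ∈ B ↔ c ∈ B'))
    (hc : ∀ B c, (G B c).card = if c ∈ B then x else z) :
    (univ.filter fun y : Fin (2 * h) × Fin P → ZMod 2 =>
      ∃ B : Finset (Fin (2 * h)), B.card = h ∧ ∀ c, row y c ∈ G B c).card =
      (2 * h).choose h * (x * z) ^ h := by
  have h1 : (univ.filter fun y : Fin (2 * h) × Fin P → ZMod 2 =>
      ∃ B : Finset (Fin (2 * h)), B.card = h ∧ ∀ c, row y c ∈ G B c) =
      (powersetCard h (univ : Finset (Fin (2 * h)))).biUnion fun B =>
        univ.filter fun y : Fin (2 * h) × Fin P → ZMod 2 => ∀ c, row y c ∈ G B c := by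
    ext y
    simp only [Finset.mem_filter, Finset.mem_univ, true_and, Finset.mem_biUnion,
      Finset.mem_powersetCard, Finset.subset_univ]
  rw [h1, Finset.card_biUnion]
  · rw [Finset.sum_congr rfl (g := fun _ => (x * z) ^ h), Finset.sum_const,
      Finset.card_powersetCard, Finset.card_univ, Fintype.card_fin, smul_eq_mul]
    intro B hB
    have hBc := (Finset.mem_powersetCard.1 hB).2
    rw [card_pf, Finset.prod_congr rfl (fun c _ => hc B c), Finset.prod_ite, Finset.prod_const,
      Finset.prod_const]
    have e1 : (univ.filter fun c : Fin (2 * h) => c ∈ B) = B := by ext; simp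
    have e2 : (univ.filter fun c : Fin (2 * h) => ¬ c ∈ B) = Bᶜ := by ext; simp
    rw [e1, e2, Finset.card_compl, Fintype.card_fin, hBc, mul_pow]
    congr 2
    omega
  · intro B _ B' _ hne
    rw [Function.onFun, Finset.disjoint_left]
    intro y hy hy'
    apply hne
    ext c
    exact hd B B' c _ ((Finset.mem_filter.1 hy).2 c) ((Finset.mem_filter.1 hy').2 c)

open scoped Classical in
theorem lev0 (h P l : ℕ) (hP : 1 ≤ P) : ∃ S : Finset (Fin (2 * h) × Fin P → ZMod 2),
    S.card = (2 * h).choose h * (P.choose l * P.choose (l + 1)) ^ h ∧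
    ∀ i : Fin (2 * h) → Fin P,
      (S.filter fun y => y + ∑ c, Pi.single (c, i c) 1 ∈ S).card =
        (2 * h).choose h * (P - 1).choose l ^ (2 * h) := by
  let G : Finset (Fin (2 * h)) → Fin (2 * h) → Finset (Fin P → ZMod 2) := fun B c =>
    univ.filter fun r => wt r = if c ∈ B then l else l + 1
  let S : Finset (Fin (2 * h) × Fin P → ZMod 2) := univ.filter fun y =>
    ∃ B : Finset (Fin (2 * h)), B.card = h ∧ ∀ c, row y c ∈ G B c
  have hG : ∀ B c r, r ∈ G B c ↔ wt r = if c ∈ B then l else l + 1 := fun B c r => by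
    simp [G]
  have hS : ∀ y, y ∈ S ↔ ∃ B : Finset (Fin (2 * h)), B.card = h ∧
      ∀ c, wt (row y c) = if c ∈ B then l else l + 1 := fun y => by
    simp [S, G]
  refine ⟨S, ?_, fun i => ?_⟩
  · refine count G _ _ ?_ ?_
    · intro B B' c r h1 h2
      rw [hG] at h1 h2
      by_cases hc : c ∈ B <;> by_cases hc' : c ∈ B' <;> simp [hc, hc'] at h1 h2 ⊢ <;> omega
    · intro B c
      by_cases hc : c ∈ B
      · simp only [G, hc, if_true]
        exact card_W l
      · simp only [G, hc, if_false]
        exact card_W (l + 1)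
  · let G' : Finset (Fin (2 * h)) → Fin (2 * h) → Finset (Fin P → ZMod 2) := fun B c =>
      univ.filter fun r => if c ∈ B then (wt r = l ∧ r (i c) = 0) else (wt r = l + 1 ∧ r (i c) ≠ 0)
    have hcount := count G' ((P - 1).choose l) ((P - 1).choose l) (by
      intro B B' c r h1 h2
      have h1' := (Finset.mem_filter.1 h1).2
      have h2' := (Finset.mem_filter.1 h2).2
      by_cases hc : c ∈ B <;> by_cases hc' : c ∈ B' <;> simp only [hc, hc', if_true, if_false] at h1' h2' ⊢
      · exact absurd h1'.2 h2'.2
      · exact absurd h2'.2 h1'.2) (by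
      intro B c
      by_cases hc : c ∈ B
      · simp only [G', hc, if_true]
        exact card_W0 l (i c)
      · simp only [G', hc, if_false]
        exact card_W1 l (i c) hP)
    have hrow : ∀ (y : Fin (2 * h) × Fin P → ZMod 2) (c : Fin (2 * h)),
        row (y + ∑ c, Pi.single (c, i c) 1) c = row y c + Pi.single (i c) 1 := by
      intro y c
      funext a
      show y (c, a) + (∑ c', Pi.single (c', i c') (1 : ZMod 2) : Fin (2 * h) × Fin P → ZMod 2) (c, a)
        = y (c, a) + (Pi.single (i c) 1 : Fin P → ZMod 2) a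
      congr 1
      rw [Finset.sum_apply, Finset.sum_eq_single c]
      · by_cases ha : a = i c
        · rw [ha]; simp
        · rw [Pi.single_eq_of_ne ha, Pi.single_eq_of_ne]
          intro h'
          exact ha (Prod.ext_iff.1 h').2
      · intro b _ hb
        rw [Pi.single_eq_of_ne]
        intro h'
        exact hb (Prod.ext_iff.1 h').1.symm
      · intro h'
        exact absurd (Finset.mem_univ _) h'
    have hset : (S.filter fun y => y + ∑ c, Pi.single (c, i c) 1 ∈ S) =
        univ.filter fun y : Fin (2 * h) × Fin P → ZMod 2 =>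
          ∃ B : Finset (Fin (2 * h)), B.card = h ∧ ∀ c, row y c ∈ G' B c := by
      ext y
      rw [Finset.mem_filter, hS, hS, Finset.mem_filter]
      constructor
      · rintro ⟨⟨B, hB, h1⟩, ⟨B', hB', h2⟩⟩
        refine ⟨Finset.mem_univ _, B, hB, fun c => ?_⟩
        have k1 := h1 c
        have k2 := h2 c
        rw [hrow] at k2
        simp only [G', Finset.mem_filter, Finset.mem_univ, true_and]
        by_cases h0 : row y c (i c) = 0
        · have k3 := wt_add0 h0
          by_cases hc : c ∈ B
          · rw [if_pos hc] at k1 ⊢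
            exact ⟨k1, h0⟩
          · exfalso
            rw [if_neg hc] at k1
            split_ifs at k2 <;> omega
        · have k3 := wt_add1 h0
          by_cases hc : c ∈ B
          · exfalso
            rw [if_pos hc] at k1
            split_ifs at k2 <;> omega
          · rw [if_neg hc] at k1 ⊢
            exact ⟨k1, h0⟩
      · rintro ⟨-, B, hB, h1⟩
        have h2 : ∀ c, if c ∈ B then (wt (row y c) = l ∧ row y c (i c) = 0)
            else (wt (row y c) = l + 1 ∧ row y c (i c) ≠ 0) := fun c =>
          (Finset.mem_filter.1 (h1 c)).2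
        refine ⟨⟨B, hB, fun c => ?_⟩, ⟨Bᶜ, ?_, fun c => ?_⟩⟩
        · have k := h2 c
          by_cases hc : c ∈ B
          · rw [if_pos hc] at k ⊢; exact k.1
          · rw [if_neg hc] at k ⊢; exact k.1
        · rw [Finset.card_compl, Fintype.card_fin, hB]
          omega
        · have k := h2 c
          rw [hrow]
          by_cases hc : c ∈ B
          · rw [if_pos hc] at k
            rw [if_neg (by simpa using hc), wt_add0 k.2, k.1]
          · rw [if_neg hc] at k
            have k3 := wt_add1 k.2
            rw [if_pos (by simpa using hc)]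
            omega
    have e : (S.filter fun y => y + ∑ c, Pi.single (c, i c) 1 ∈ S).card =
        (univ.filter fun y : Fin (2 * h) × Fin P → ZMod 2 =>
          ∃ B : Finset (Fin (2 * h)), B.card = h ∧ ∀ c, row y c ∈ G' B c).card := by
      rw [hset]
    have e2 : (2 * h).choose h * ((P - 1).choose l * (P - 1).choose l) ^ h =
        (2 * h).choose h * (P - 1).choose l ^ (2 * h) := by
      rw [← sq, ← pow_mul]
    rw [← e2, ← hcount]
    convert e using 2

end LevP

end Pool.Agent.H5Ref
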