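import Pool.Agent.H5Ref.Stm
import Pool.Agent.H5Ref.Lev0

/-!
# Piece LEV
-/

set_option autoImplicit false

namespace Pool.Agent.H5Ref

/-- **Piece LEV.** -/
theorem lev : S_LEV := by
  intro h P l hP
  obtain ⟨S, h1, h2⟩ := LevP.lev0 h P l hP
  refine ⟨S, h1, fun i => ?_⟩
  rw [← h2 i]

end Pool.Agent.H5Ref
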