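import Pool.Agent.H5Ref.Upper
import Pool.Agent.H5Ref.Hyp
import Pool.Agent.H5Ref.Dim
import Pool.Agent.H5Ref.Lev
import Pool.Agent.H5Ref.Circ

/-!
# The upper bound with explicit constants
-/

set_option autoImplicit false

namespace Pool.Agent.H5Ref

open Module Pool.Agent.H5Sym Pool.Agent.H5Dich Pool.Agent.H5Lin

theorem levN_le {h P l : ℕ} (hh : 1 ≤ h) (hl : 1 ≤ l) (hP : 2 ≤ P) :
    levN h P l ≤ P ^ (5 * h * l) := by
  have h1 : (2 * h).choose h ≤ P ^ (2 * h) :=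
    (Nat.choose_le_two_pow _ _).trans (Nat.pow_le_pow_left hP _)
  have h2 : P.choose l ≤ P ^ l := Nat.choose_le_pow P l
  have h3 : P.choose (l + 1) ≤ P ^ (l + 1) := Nat.choose_le_pow P (l + 1)
  calc levN h P l ≤ P ^ (2 * h) * (P ^ l * P ^ (l + 1)) ^ h :=
        Nat.mul_le_mul h1 (Nat.pow_le_pow_left (Nat.mul_le_mul h2 h3) _)
    _ = P ^ (2 * h + (l + (l + 1)) * h) := by rw [← pow_add, ← pow_mul, ← pow_add]
    _ ≤ P ^ (5 * h * l) := by
        refine Nat.pow_le_pow_right (by omega) ?_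
        nlinarith

theorem size_le {h P l : ℕ} (hh : 1 ≤ h) (hl : 1 ≤ l) (hP : 2 ≤ P) :
    (2 * (2 * h * P)) ^ (2 * h) + 2 * (2 * levN h P l + 1) ^ 4 ≤ P ^ (40 * h ^ 2 * l) := by
  have hP1 : 1 ≤ P := by omega
  have hN := levN_le hh hl hP
  have h1 : (2 * (2 * h * P)) ^ (2 * h) ≤ P ^ (39 * h ^ 2 * l) := by
    have e1 : 4 * h ≤ P ^ (4 * h) := by
      calc 4 * h ≤ 2 ^ (4 * h) := Nat.lt_two_pow_self.le
        _ ≤ P ^ (4 * h) := Nat.pow_le_pow_left hP _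
    calc (2 * (2 * h * P)) ^ (2 * h) = (4 * h * P) ^ (2 * h) := by congr 1; ring
      _ ≤ (P ^ (4 * h) * P) ^ (2 * h) := Nat.pow_le_pow_left (Nat.mul_le_mul_right _ e1) _
      _ = P ^ ((4 * h + 1) * (2 * h)) := by rw [← pow_succ, ← pow_mul]
      _ ≤ P ^ (39 * h ^ 2 * l) := by
          refine Nat.pow_le_pow_right hP1 ?_
          have : h ^ 2 * 1 ≤ h ^ 2 * l := Nat.mul_le_mul_left _ hl
          nlinarith
  have h2 : 2 * (2 * levN h P l + 1) ^ 4 ≤ P ^ (39 * h ^ 2 * l) := by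
    have hpos : 1 ≤ P ^ (5 * h * l) := Nat.one_le_pow _ _ hP1
    have e1 : 2 * levN h P l + 1 ≤ P ^ (5 * h * l + 2) := by
      calc 2 * levN h P l + 1 ≤ 2 * P ^ (5 * h * l) + P ^ (5 * h * l) := by omega
        _ ≤ P ^ (5 * h * l) * 2 ^ 2 := by omega
        _ ≤ P ^ (5 * h * l) * P ^ 2 := Nat.mul_le_mul_left _ (Nat.pow_le_pow_left hP 2)
        _ = P ^ (5 * h * l + 2) := (pow_add _ _ _).symm
    calc 2 * (2 * levN h P l + 1) ^ 4 ≤ P * (P ^ (5 * h * l + 2)) ^ 4 :=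
          Nat.mul_le_mul hP (Nat.pow_le_pow_left e1 4)
      _ = P ^ ((5 * h * l + 2) * 4 + 1) := by rw [← pow_mul, pow_succ, mul_comm]
      _ ≤ P ^ (39 * h ^ 2 * l) := by
          refine Nat.pow_le_pow_right hP1 ?_
          have h3 : 1 * 1 ≤ h * l := Nat.mul_le_mul hh hl
          have h4 : h * l * 1 ≤ h * l * h := Nat.mul_le_mul_left _ hh
          nlinarith
  calc _ ≤ P ^ (39 * h ^ 2 * l) + P ^ (39 * h ^ 2 * l) := Nat.add_le_add h1 h2
    _ = 2 * P ^ (39 * h ^ 2 * l) := by ring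
    _ ≤ P * P ^ (39 * h ^ 2 * l) := Nat.mul_le_mul_right _ hP
    _ = P ^ (39 * h ^ 2 * l + 1) := by rw [pow_succ P (39 * h ^ 2 * l), mul_comm]
    _ ≤ P ^ (40 * h ^ 2 * l) := by
        refine Nat.pow_le_pow_right hP1 ?_
        have : 1 * 1 ≤ h ^ 2 * l := Nat.mul_le_mul (Nat.one_le_pow _ _ hh) hl
        nlinarith

theorem exponent_le {h P l : ℕ} (hh : 1 ≤ h) (hl : 1 ≤ l) (hP : 2 * l ≤ P) {m : ℝ}
    (hm : 10 * h * 2 ^ h * l * (P / l : ℝ) ^ h * Real.logb 2 P ≤ m) :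
    Real.logb 2 (levN h P l) * (P ^ 2 / ((P - l) * (l + 1)) : ℝ) ^ h - m ≤ -m / 2 := by
  have hl0 : (0 : ℝ) < l := by exact_mod_cast hl
  have hP2 : (2 * l : ℝ) ≤ P := by exact_mod_cast hP
  have hP0 : (0 : ℝ) < P := by linarith
  have hP1 : (1 : ℝ) < P := by
    have : (1 : ℝ) ≤ l := by exact_mod_cast hl
    linarith
  have hlog : 0 ≤ Real.logb 2 P := Real.logb_nonneg one_lt_two hP1.le
  have hN0 : 0 < levN h P l :=
    Nat.mul_pos (Nat.choose_pos (by omega)) (Nat.pow_pos (Nat.mul_pos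
      (Nat.choose_pos (by omega)) (Nat.choose_pos (by omega))))
  have h1 : Real.logb 2 (levN h P l) ≤ 5 * h * l * Real.logb 2 P := by
    have h2 : (levN h P l : ℝ) ≤ (P : ℝ) ^ (5 * h * l) := by
      exact_mod_cast levN_le hh hl (by omega : 2 ≤ P)
    have h3 := Real.logb_le_logb_of_le one_lt_two (by exact_mod_cast hN0) h2
    rw [Real.logb_pow] at h3
    push_cast at h3
    exact h3
  have h0 : 0 ≤ Real.logb 2 (levN h P l) :=
    Real.logb_nonneg one_lt_two (by exact_mod_cast hN0)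
  have h2 : (P ^ 2 / ((P - l) * (l + 1)) : ℝ) ^ h ≤ 2 ^ h * (P / l : ℝ) ^ h := by
    rw [← mul_pow]
    refine pow_le_pow_left₀ ?_ ?_ h
    · have : (0 : ℝ) < P - l := by linarith
      positivity
    · have h4 : (0 : ℝ) < P - l := by linarith
      rw [← mul_div_assoc, div_le_div_iff₀ (by positivity) hl0]
      have h5 : (P : ℝ) ≤ 2 * (P - l) := by linarith
      calc (P : ℝ) ^ 2 * l = P * (P * l) := by ring
        _ ≤ P * (2 * (P - l) * (l + 1)) := by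
            refine mul_le_mul_of_nonneg_left ?_ hP0.le
            refine mul_le_mul h5 (by linarith) hl0.le (by linarith)
        _ = 2 * P * ((P - l) * (l + 1)) := by ring
  have h3 : Real.logb 2 (levN h P l) * (P ^ 2 / ((P - l) * (l + 1)) : ℝ) ^ h ≤
      (5 * h * l * Real.logb 2 P) * (2 ^ h * (P / l : ℝ) ^ h) := by
    have h4 : (0 : ℝ) < P - l := by linarith
    exact mul_le_mul h1 h2 (by positivity) (by positivity)
  have h5 : (5 * h * l * Real.logb 2 P) * (2 ^ h * (P / l : ℝ) ^ h) =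
      10 * h * 2 ^ h * l * (P / l : ℝ) ^ h * Real.logb 2 P / 2 := by ring
  rw [h5] at h3
  linarith

/-- **The upper bound with explicit constants.** -/
theorem upperC (h P l : ℕ) (hh : 1 ≤ h) (hl : 1 ≤ l) (hP : 2 * l ≤ P) :
    ∃ C : LCircuit.{0, 0} (Con (pred (even (2 * h))) (Fin (2 * h) × Fin P)) Bool,
      Nonempty (C.Action fun u : Fin (2 * h) × Fin P → ZMod 2 => flipC u) ∧ Finite C.Gate ∧
      (∀ g, (∃ t, C.label g = .input t) ∨ C.label g = .sym orB ∨ C.label g = .sym andB ∨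
        C.label g = .sym norB) ∧
      C.size ≤ P ^ (40 * h ^ 2 * l) ∧
      (∀ φ, (sol (ones φ)).Nonempty → C.eval φ C.out = true) ∧
      ∀ (m : ℕ) (f : Fin (2 * h) → Fin m → Fin P),
        10 * h * 2 ^ h * l * (P / l : ℝ) ^ h * Real.logb 2 P ≤ m →
        (Nat.card {w // C.eval (inst (even (2 * h)) 0 (evenM (2 * h)) (.refl _) f w) C.out = true} :
          ℝ) ≤ 2 ^ (-(m : ℝ) / 2) * (2 ^ (2 * h)) ^ m := by
  obtain ⟨C, h1, h2, h3, h4, h5, h6⟩ := upperR (dim hyp) lev circ h P l hh (by omega)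
  refine ⟨C, h1, h2, h3, h4.trans (size_le hh hl (by omega)), h5, fun m f hm => (h6 m f).trans ?_⟩
  refine mul_le_mul_of_nonneg_right ?_ (by positivity)
  exact Real.rpow_le_rpow_of_exponent_le one_le_two (exponent_le hh hl hP hm)

end Pool.Agent.H5Ref
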