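import Pool.Agent.H5Ref.Stm2
import Pool.Agent.H5Sym.InfoSet

/-!
# Piece DIM2: the dimension of the space of the right-hand sides with a potential on pairs
-/

set_option autoImplicit false

namespace Pool.Agent.H5Ref

open Module Pool.Agent.H5Sym Pool.Agent.H5Dich Pool.Agent.H5Lin

namespace Dim2

/-- the right-hand sides for which there is a potential on pairs -/
def pot {V : Type} (S : Finset (V → ZMod 2)) {m P : ℕ} (z : Fin m → V → ZMod 2)
    (u : Fin m → Fin P) : Submodule (ZMod 2) (Fin m → ZMod 2) where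
  carrier := {b | ∃ c : (V → ZMod 2) → (V → ZMod 2) → ZMod 2,
    ∀ j j', j ≠ j' → u j = u j' → ∀ y ∈ S, ∀ y' ∈ S, y + z j ∈ S → y' + z j' ∈ S →
      c (y + z j) (y' + z j') = c y y' + (b j + b j')}
  zero_mem' := ⟨fun _ _ => 0, fun j j' _ _ y _ y' _ _ _ => by simp⟩
  add_mem' := by
    rintro a b ⟨c, hc⟩ ⟨c', hc'⟩
    refine ⟨fun y y' => c y y' + c' y y', fun j j' hj hu y hy y' hy' h1 h2 => ?_⟩
    show c (y + z j) (y' + z j') + c' (y + z j) (y' + z j') = c y y' + c' y y' + (a j + b j +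
      (a j' + b j'))
    rw [hc j j' hj hu y hy y' hy' h1 h2, hc' j j' hj hu y hy y' hy' h1 h2]
    ring
  smul_mem' := by
    rintro r b ⟨c, hc⟩
    refine ⟨fun y y' => r * c y y', fun j j' hj hu y hy y' hy' h1 h2 => ?_⟩
    show r * c (y + z j) (y' + z j') = r * c y y' + (r * b j + r * b j')
    rw [hc j j' hj hu y hy y' hy' h1 h2]
    ring

theorem bet_le {V : Type} {m d P : ℕ} (S : Finset (V → ZMod 2)) (z : Fin m → V → ZMod 2)
    (u : Fin m → Fin P) (ι : Fin d ↪ Fin m) :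
    bet S (fun j => z (ι j)) (fun j => u (ι j)) ≤ bet S z u := by
  classical
  unfold bet
  refine Finset.card_le_card_of_injOn (fun p => (p.1, (ι p.2.1, ι p.2.2))) ?_ ?_
  · intro p hp
    have hp' := Finset.mem_filter.1 (Finset.mem_coe.1 hp)
    obtain ⟨h1, h2, h3, h4, h5⟩ := hp'
    refine Finset.mem_coe.2 (Finset.mem_filter.2 ⟨?_, ?_, h3, h4, h5⟩)
    · exact Finset.mem_product.2 ⟨(Finset.mem_product.1 h1).1, Finset.mem_univ _⟩
    · exact fun h => h2 (ι.injective h)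
  · rintro ⟨y, j, j'⟩ _ ⟨y', i, i'⟩ _ h
    simp only [Prod.mk.injEq, EmbeddingLike.apply_eq_iff_eq] at h
    obtain ⟨rfl, rfl, rfl⟩ := h
    rfl

end Dim2

open Dim2 in
theorem dim2 (key : S_KEY) : S_DIM2 := by
  classical
  intro V _ _ S m P n z u hn hn0 hP hβ hlog
  obtain ⟨ι₀, hι₀⟩ := exists_info (pot S z u)
  have hcard : Nat.card {b : Fin m → ZMod 2 // ∃ c : (V → ZMod 2) → (V → ZMod 2) → ZMod 2,
      ∀ j j', j ≠ j' → u j = u j' → ∀ y ∈ S, ∀ y' ∈ S, y + z j ∈ S → y' + z j' ∈ S →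
        c (y + z j) (y' + z j') = c y y' + (b j + b j')} =
      2 ^ finrank (ZMod 2) (pot S z u) := by
    have h1 := Module.natCard_eq_pow_finrank (K := ZMod 2) (V := pot S z u)
    rw [Nat.card_zmod] at h1
    exact h1
  have hd : (finrank (ZMod 2) (pot S z u) : ℝ) ≤ (m : ℝ) / 2 := by
    generalize finrank (ZMod 2) (pot S z u) = d at ι₀ hι₀
    by_contra hcon
    push Not at hcon
    have h2 : ∀ i : Fin d, ∃ Φ : (V → ZMod 2) → (V → ZMod 2) → ZMod 2,
        ∀ j j' : Fin d, j ≠ j' → u (ι₀ j) = u (ι₀ j') → ∀ y ∈ S, ∀ y' ∈ S,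
          y + z (ι₀ j) ∈ S → y' + z (ι₀ j') ∈ S →
          Φ (y + z (ι₀ j)) (y' + z (ι₀ j')) =
            Φ y y' + ((if i = j then 1 else 0) + if i = j' then 1 else 0) := by
      intro i
      obtain ⟨b, ⟨c, hc⟩, hb⟩ := hι₀ fun j => if i = j then 1 else 0
      refine ⟨c, fun j j' hj hu y hy y' hy' h1 h2 => ?_⟩
      rw [hc _ _ (fun h => hj (ι₀.injective h)) hu y hy y' hy' h1 h2, hb j, hb j']
    choose Φ hΦ using h2
    set β' : ℕ := bet S (fun j => z (ι₀ j)) (fun j => u (ι₀ j)) with hβ'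
    have hββ : β' ≤ bet S z u := bet_le S z u ι₀
    have hdR : (m : ℝ) < 2 * d := by linarith
    have hdN : m < 2 * d := by exact_mod_cast hdR
    have h4β : 4 * β' ≤ d * n := by
      have h3 : m * n ≤ 2 * d * n := Nat.mul_le_mul_right n hdN.le
      have h4 : 2 * (4 * β') ≤ 2 * (d * n) := by
        calc 2 * (4 * β') = 8 * β' := by ring
          _ ≤ 8 * bet S z u := Nat.mul_le_mul_left 8 hββ
          _ ≤ m * n := hβ
          _ ≤ 2 * d * n := h3
          _ = 2 * (d * n) := by ring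
      exact Nat.le_of_mul_le_mul_left h4 (by norm_num)
    have h5 := key V S d P n (fun j => z (ι₀ j)) (fun j => u (ι₀ j)) Φ (fun j => hn _) hΦ
      (by omega)
    rw [← hβ'] at h5
    have h4R : 4 * (β' : ℝ) ≤ d * n := by exact_mod_cast h4β
    have hPR : 16 * (P : ℝ) ≤ m := by exact_mod_cast hP
    have hn0R : (0 : ℝ) < n := by exact_mod_cast hn0
    have hd0 : (0 : ℝ) < d := by
      have : (0 : ℝ) ≤ m := Nat.cast_nonneg m
      linarith
    set lg : ℝ := Real.logb 2 S.card with hlg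
    set T : ℝ := P * (S.card : ℝ) ^ 2 * lg with hT
    have h6 : ((d : ℝ) * n) ^ 2 / 4 ≤ 2 * T + P * d * n ^ 2 := by
      have e1 : (d : ℝ) * n / 2 ≤ d * n - 2 * β' := by linarith
      have e2 : 0 ≤ (d : ℝ) * n / 2 := by positivity
      have e3 : ((d : ℝ) * n / 2) ^ 2 ≤ (d * n - 2 * β') ^ 2 := pow_le_pow_left₀ e2 e1 2
      have e4 : (P : ℝ) * (2 * S.card ^ 2 * lg + d * n ^ 2) = 2 * T + P * d * n ^ 2 := by
        rw [hT]; ring
      rw [e4] at h5
      calc ((d : ℝ) * n) ^ 2 / 4 = ((d : ℝ) * n / 2) ^ 2 := by ring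
        _ ≤ _ := e3.trans h5
    have h7 : (P : ℝ) * (d : ℝ) * (n : ℝ) ^ 2 ≤ ((d : ℝ) * (n : ℝ)) ^ 2 / 8 := by
      have e1 : (P : ℝ) ≤ (d : ℝ) / 8 := by linarith
      have e2 : (0 : ℝ) ≤ (d : ℝ) * (n : ℝ) ^ 2 := by positivity
      have e3 := mul_le_mul_of_nonneg_right e1 e2
      have e4 : (P : ℝ) * ((d : ℝ) * (n : ℝ) ^ 2) = (P : ℝ) * (d : ℝ) * (n : ℝ) ^ 2 := by ring
      have e5 : (d : ℝ) / 8 * ((d : ℝ) * (n : ℝ) ^ 2) = ((d : ℝ) * (n : ℝ)) ^ 2 / 8 := by ring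
      rw [e4, e5] at e3
      exact e3
    have h8 : 64 * T ≤ (m : ℝ) ^ 2 * n ^ 2 := by
      refine le_trans (le_of_eq ?_) hlog
      rw [hT]; ring
    have h9 : ((d : ℝ) * n) ^ 2 ≤ ((m : ℝ) * n) ^ 2 / 4 := by
      have : (m : ℝ) ^ 2 * (n : ℝ) ^ 2 = ((m : ℝ) * n) ^ 2 := by ring
      rw [this] at h8
      linarith
    have h10 : (m : ℝ) * n < 2 * (d * n) := by
      calc (m : ℝ) * n < 2 * d * n := mul_lt_mul_of_pos_right hdR hn0R
        _ = 2 * (d * n) := by ring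
    have h11 : ((m : ℝ) * n) ^ 2 < (2 * (d * n)) ^ 2 :=
      pow_lt_pow_left₀ h10 (by positivity) (by norm_num)
    have h12 : (2 * ((d : ℝ) * n)) ^ 2 = 4 * (d * n) ^ 2 := by ring
    rw [h12] at h11
    linarith
  rw [hcard, Nat.cast_pow, Nat.cast_two, ← Real.rpow_natCast]
  exact Real.rpow_le_rpow_of_exponent_le one_le_two hd

end Pool.Agent.H5Ref
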