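import Pool.Agent.H5Ref.Stm2

/-!
# The piece GOOD: counting of pairs
-/

set_option autoImplicit false
set_option linter.all false

namespace Pool.Agent.H5Ref

open Classical in
theorem good : S_GOOD := by
  intro V S d P n z u hn
  -- all the pairs
  let T : Finset (Fin d × (V → ZMod 2)) :=
    ((Finset.univ : Finset (Fin d)) ×ˢ S).filter fun q => q.2 + z q.1 ∈ S
  have hT : ∀ q, q ∈ T ↔ q.2 ∈ S ∧ q.2 + z q.1 ∈ S := by
    intro q
    simp [T]
  have hTcard : T.card = d * n := by
    have h1 : T.card = ∑ j : Fin d, (T.filter fun q => q.1 = j).card :=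
      Finset.card_eq_sum_card_fiberwise fun _ _ => Finset.mem_univ _
    rw [h1]
    have h2 : ∀ j : Fin d, (T.filter fun q => q.1 = j).card = n := by
      intro j
      rw [← hn j]
      have h3 : Nat.card {y // y ∈ S ∧ y + z j ∈ S} = (S.filter fun y => y + z j ∈ S).card := by
        rw [← Nat.card_eq_finsetCard]
        exact Nat.card_congr (Equiv.subtypeEquivRight fun y => by rw [Finset.mem_filter])
      rw [h3]
      refine Finset.card_bij (fun q _ => q.2) ?_ ?_ ?_
      · rintro ⟨j', y⟩ hq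
        rw [Finset.mem_filter, hT] at hq
        obtain ⟨⟨h4, h5⟩, h6⟩ := hq
        dsimp only at h4 h5 h6 ⊢
        subst h6
        exact Finset.mem_filter.2 ⟨h4, h5⟩
      · rintro ⟨j1, y1⟩ hq1 ⟨j2, y2⟩ hq2 h
        rw [Finset.mem_filter] at hq1 hq2
        exact Prod.ext (hq1.2.trans hq2.2.symm) h
      · intro y hy
        rw [Finset.mem_filter] at hy
        exact ⟨(j, y), by rw [Finset.mem_filter, hT]; exact ⟨hy, rfl⟩, rfl⟩
    rw [Finset.sum_congr rfl fun j _ => h2 j]
    simp
  have hGcard : Nat.card {q : Fin d × (V → ZMod 2) // IsGood S z u q.1 q.2} =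
      (T.filter fun q => IsGood S z u q.1 q.2).card := by
    rw [← Nat.card_eq_finsetCard]
    refine Nat.card_congr (Equiv.subtypeEquivRight fun q => ?_)
    rw [Finset.mem_filter, hT]
    exact ⟨fun h => ⟨⟨h.1, h.2.1⟩, h⟩, fun h => h.2⟩
  let A : Finset (Fin d × (V → ZMod 2)) :=
    T.filter fun q => ∃ j', j' ≠ q.1 ∧ u j' = u q.1 ∧ q.2 + z j' ∈ S
  let B : Finset (Fin d × (V → ZMod 2)) :=
    T.filter fun q => ∃ j', j' ≠ q.1 ∧ u j' = u q.1 ∧ q.2 + z q.1 + z j' ∈ S
  have hA : A.card ≤ bet S z u := by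
    have h1 : A ⊆ ((S ×ˢ (Finset.univ : Finset (Fin d × Fin d))).filter fun p =>
        p.2.1 ≠ p.2.2 ∧ u p.2.1 = u p.2.2 ∧ p.1 + z p.2.1 ∈ S ∧ p.1 + z p.2.2 ∈ S).image
        (fun p => (p.2.1, p.1)) := by
      intro q hq
      rw [Finset.mem_filter, hT] at hq
      obtain ⟨⟨h2, h3⟩, j', h4, h5, h6⟩ := hq
      rw [Finset.mem_image]
      refine ⟨(q.2, (q.1, j')), ?_, rfl⟩
      rw [Finset.mem_filter, Finset.mem_product]
      exact ⟨⟨h2, Finset.mem_univ _⟩, h4.symm, h5.symm, h3, h6⟩
    refine (Finset.card_le_card h1).trans (Finset.card_image_le.trans ?_)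
    unfold bet
    apply le_of_eq
    congr!
  have hzz : ∀ (y : V → ZMod 2) (j : Fin d), y + z j + z j = y := by
    intro y j
    funext v
    show y v + z j v + z j v = y v
    have h1 : z j v + z j v = 0 := CharTwo.add_self_eq_zero _
    rw [add_assoc, h1, add_zero]
  have hB : B.card ≤ A.card := by
    refine Finset.card_le_card_of_injOn (fun q => (q.1, q.2 + z q.1)) ?_ ?_
    · intro q hq
      rw [Finset.mem_coe, Finset.mem_filter, hT] at hq
      obtain ⟨⟨h2, h3⟩, j', h4, h5, h6⟩ := hq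
      rw [Finset.mem_coe, Finset.mem_filter, hT]
      refine ⟨⟨h3, ?_⟩, j', h4, h5, h6⟩
      show q.2 + z q.1 + z q.1 ∈ S
      rw [hzz]
      exact h2
    · rintro ⟨j1, y1⟩ _ ⟨j2, y2⟩ _ h
      have h1 : j1 = j2 := congrArg Prod.fst h
      have h2 : y1 + z j1 = y2 + z j2 := congrArg Prod.snd h
      subst h1
      exact Prod.ext rfl (add_right_cancel h2)
  have hsub : T ⊆ (T.filter fun q => IsGood S z u q.1 q.2) ∪ (A ∪ B) := by
    intro q hq
    by_cases hg : IsGood S z u q.1 q.2
    · exact Finset.mem_union_left _ (Finset.mem_filter.2 ⟨hq, hg⟩)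
    · apply Finset.mem_union_right
      by_cases ha : q ∈ A
      · exact Finset.mem_union_left _ ha
      · apply Finset.mem_union_right
        by_contra hb
        have hq' := (hT q).1 hq
        apply hg
        refine ⟨hq'.1, hq'.2, fun j' h1 h2 => ?_, fun j' h1 h2 => ?_⟩
        · by_contra h3
          exact ha (Finset.mem_filter.2 ⟨hq, j', h3, h1, h2⟩)
        · by_contra h3
          exact hb (Finset.mem_filter.2 ⟨hq, j', h3, h1, h2⟩)
  rw [hGcard, ← hTcard]
  calc T.card ≤ _ := Finset.card_le_card hsub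
    _ ≤ (T.filter fun q => IsGood S z u q.1 q.2).card + (A ∪ B).card := Finset.card_union_le _ _
    _ ≤ (T.filter fun q => IsGood S z u q.1 q.2).card + (A.card + B.card) :=
      Nat.add_le_add_left (Finset.card_union_le _ _) _
    _ ≤ _ := by omega

end Pool.Agent.H5Ref
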