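import Pool.Agent.H5Ref.Stm2
import Pool.Agent.H5Ref.Hyp

/-!
# Piece HYP2: abstract edge isoperimetry
-/

set_option autoImplicit false

namespace Pool.Agent.H5Ref

namespace Hyp2P

open Finset

lemma cross {X : Type} [DecidableEq X] (E : X → X → Prop) [DecidableRel E] (A B : Finset X)
    (h1 : ∀ v ∈ A, ∀ w ∈ B, ∀ w' ∈ B, E v w → E v w' → w = w')
    (h2 : ∀ w ∈ B, ∀ v ∈ A, ∀ v' ∈ A, E v w → E v' w → v = v') :
    ((A ×ˢ B).filter fun p => E p.1 p.2).card ≤ min A.card B.card := by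
  apply le_min
  · apply card_le_card_of_injOn Prod.fst
    · intro p hp
      simp only [coe_filter, mem_product, Set.mem_ofPred_eq] at hp
      exact hp.1.1
    · rintro ⟨v, w⟩ hp ⟨v', w'⟩ hp' h
      simp only [coe_filter, mem_product, Set.mem_ofPred_eq] at hp hp'
      simp only at h
      subst h
      rw [h1 v hp.1.1 w hp.1.2 w' hp'.1.2 hp.2 hp'.2]
  · apply card_le_card_of_injOn Prod.snd
    · intro p hp
      simp only [coe_filter, mem_product, Set.mem_ofPred_eq] at hp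
      exact hp.1.2
    · rintro ⟨v, w⟩ hp ⟨v', w'⟩ hp' h
      simp only [coe_filter, mem_product, Set.mem_ofPred_eq] at hp hp'
      simp only at h
      subst h
      rw [h2 w hp.1.2 v hp.1.1 v' hp'.1.1 hp.2 hp'.2]

lemma main {X J : Type} [DecidableEq X] [DecidableEq J] (Φ : J → X → ZMod 2)
    (E : X → X → Prop) [DecidableRel E] (hsymm : ∀ v w, E v w → E w v) (J' : Finset J) :
    ∀ S : Finset X,
      (∀ v ∈ S, ∀ w ∈ S, ∀ w' ∈ S, ∀ i, E v w → E v w' → Φ i v ≠ Φ i w → Φ i v ≠ Φ i w' → w = w') →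
      ((((S ×ˢ S).filter fun p => E p.1 p.2 ∧ ∃ i ∈ J', Φ i p.1 ≠ Φ i p.2).card : ℕ) : ℝ) ≤
        hypEnt S.card := by
  induction J' using Finset.induction_on with
  | empty =>
    intro S _
    have h0 : ((S ×ˢ S).filter fun p => E p.1 p.2 ∧ ∃ i ∈ (∅ : Finset J), Φ i p.1 ≠ Φ i p.2) = ∅ := by
      rw [filter_eq_empty_iff]
      rintro p - ⟨-, i, hi, -⟩
      exact absurd hi (notMem_empty i)
    rw [h0, card_empty, Nat.cast_zero]
    unfold hypEnt
    rcases Nat.eq_zero_or_pos S.card with h | h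
    · rw [h]; simp
    · apply mul_nonneg (by positivity)
      apply Real.logb_nonneg (by norm_num)
      exact_mod_cast h
  | insert j₀ J' hj ih =>
    intro S hS
    set S₀ := S.filter fun x => Φ j₀ x = 0 with hS0
    set S₁ := S.filter fun x => ¬ Φ j₀ x = 0 with hS1
    have hcard : S₀.card + S₁.card = S.card := Finset.card_filter_add_card_filter_not _
    have hs0 : S₀ ⊆ S := filter_subset _ _
    have hs1 : S₁ ⊆ S := filter_subset _ _
    have h0 := ih S₀ (fun v hv w hw w' hw' => hS v (hs0 hv) w (hs0 hw) w' (hs0 hw'))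
    have h1 := ih S₁ (fun v hv w hw w' hw' => hS v (hs1 hv) w (hs1 hw) w' (hs1 hw'))
    have hdiff : ∀ v ∈ S₀, ∀ w ∈ S₁, Φ j₀ v ≠ Φ j₀ w := by
      intro v hv w hw h
      rw [hS0, mem_filter] at hv
      rw [hS1, mem_filter] at hw
      exact hw.2 (h ▸ hv.2)
    have c01 := cross E S₀ S₁
      (fun v hv w hw w' hw' e e' => hS v (hs0 hv) w (hs1 hw) w' (hs1 hw') j₀ e e'
        (hdiff v hv w hw) (hdiff v hv w' hw'))
      (fun w hw v hv v' hv' e e' => hS w (hs1 hw) v (hs0 hv) v' (hs0 hv') j₀ (hsymm _ _ e)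
        (hsymm _ _ e') (hdiff v hv w hw).symm (hdiff v' hv' w hw).symm)
    have c10 := cross E S₁ S₀
      (fun v hv w hw w' hw' e e' => hS v (hs1 hv) w (hs0 hw) w' (hs0 hw') j₀ e e'
        (hdiff w hw v hv).symm (hdiff w' hw' v hv).symm)
      (fun w hw v hv v' hv' e e' => hS w (hs0 hw) v (hs1 hv) v' (hs1 hv') j₀ (hsymm _ _ e)
        (hsymm _ _ e') (hdiff w hw v hv) (hdiff w hw v' hv'))
    have hsub : ((S ×ˢ S).filter fun p => E p.1 p.2 ∧ ∃ i ∈ insert j₀ J', Φ i p.1 ≠ Φ i p.2) ⊆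
        (((S₀ ×ˢ S₀).filter fun p => E p.1 p.2 ∧ ∃ i ∈ J', Φ i p.1 ≠ Φ i p.2) ∪
          ((S₁ ×ˢ S₁).filter fun p => E p.1 p.2 ∧ ∃ i ∈ J', Φ i p.1 ≠ Φ i p.2)) ∪
        (((S₀ ×ˢ S₁).filter fun p => E p.1 p.2) ∪ ((S₁ ×ˢ S₀).filter fun p => E p.1 p.2)) := by
      rintro ⟨v, w⟩ hp
      simp only [mem_filter, mem_product] at hp
      obtain ⟨⟨hv, hw⟩, hE, i, hi, hne⟩ := hp
      simp only [mem_union, mem_filter, mem_product, hS0, hS1]
      have z2 : ∀ a b : ZMod 2, ¬ a = 0 → ¬ b = 0 → a = b := by decide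
      by_cases hv0 : Φ j₀ v = 0
      · by_cases hw0 : Φ j₀ w = 0
        · left; left
          refine ⟨⟨⟨hv, hv0⟩, hw, hw0⟩, hE, i, ?_, hne⟩
          rcases mem_insert.1 hi with rfl | h
          · exact absurd (hv0.trans hw0.symm) hne
          · exact h
        · right; left
          exact ⟨⟨⟨hv, hv0⟩, hw, hw0⟩, hE⟩
      · by_cases hw0 : Φ j₀ w = 0
        · right; right
          exact ⟨⟨⟨hv, hv0⟩, hw, hw0⟩, hE⟩
        · left; right
          refine ⟨⟨⟨hv, hv0⟩, hw, hw0⟩, hE, i, ?_, hne⟩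
          rcases mem_insert.1 hi with rfl | h
          · exact absurd (z2 _ _ hv0 hw0) hne
          · exact h
    have hle := (card_le_card hsub).trans ((card_union_le _ _).trans
      (Nat.add_le_add (card_union_le _ _) (card_union_le _ _)))
    have hle2 := hle.trans (Nat.add_le_add_left (Nat.add_le_add c01 c10) _)
    rw [min_comm S₁.card S₀.card] at hle2
    have hE := hent_add' S₀.card S₁.card
    rw [hcard] at hE
    have hle3 : ((((S ×ˢ S).filter fun p => E p.1 p.2 ∧ ∃ i ∈ insert j₀ J', Φ i p.1 ≠ Φ i p.2).card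
        : ℕ) : ℝ) ≤ ((((S₀ ×ˢ S₀).filter fun p => E p.1 p.2 ∧ ∃ i ∈ J', Φ i p.1 ≠ Φ i p.2).card
        : ℕ) : ℝ) + ((((S₁ ×ˢ S₁).filter fun p => E p.1 p.2 ∧ ∃ i ∈ J', Φ i p.1 ≠ Φ i p.2).card
        : ℕ) : ℝ) + 2 * ((min S₀.card S₁.card : ℕ) : ℝ) := by
      rw [two_mul]
      exact_mod_cast hle2
    linarith

end Hyp2P

open Hyp2P in
theorem hyp2 : S_HYP2 := by
  classical
  intro X J _ S Φ E hsymm ha hb
  haveI := Fintype.ofFinite J
  have h := main Φ E hsymm (Finset.univ : Finset J) S hb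
  have hc : Nat.card {p : X × X // p.1 ∈ S ∧ p.2 ∈ S ∧ E p.1 p.2} =
      ((S ×ˢ S).filter fun p => E p.1 p.2 ∧ ∃ i ∈ (Finset.univ : Finset J), Φ i p.1 ≠ Φ i p.2).card := by
    apply Nat.subtype_card
    rintro ⟨v, w⟩
    simp only [Finset.mem_filter, Finset.mem_product, Finset.mem_univ, true_and]
    constructor
    · rintro ⟨⟨hv, hw⟩, hE, -⟩
      exact ⟨hv, hw, hE⟩
    · rintro ⟨hv, hw, hE⟩
      exact ⟨⟨hv, hw⟩, hE, ha v hv w hw hE⟩
  rw [hc]
  exact h

end Pool.Agent.H5Ref
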