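import Pool.Agent.H5Ref.Stm2

/-!
# Piece KEY: the graph of the pairs of rows
-/

set_option autoImplicit false

namespace Pool.Agent.H5Ref

open Module Pool.Agent.H5Sym Pool.Agent.H5Dich Pool.Agent.H5Lin

namespace KeyP

variable {V : Type} {S : Finset (V → ZMod 2)} {d P : ℕ} {z : Fin d → V → ZMod 2} {u : Fin d → Fin P}

theorem add_add (y w : V → ZMod 2) : y + w + w = y := by
  funext v
  simp only [Pi.add_apply, add_assoc, CharTwo.add_self_eq_zero, add_zero]

theorem good_symm {j : Fin d} {y : V → ZMod 2} (h : IsGood S z u j y) :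
    IsGood S z u j (y + z j) := by
  obtain ⟨h1, h2, h3, h4⟩ := h
  refine ⟨h2, by rw [add_add]; exact h1, h4, ?_⟩
  intro j' hj' h5
  rw [add_add] at h5
  exact h3 j' hj' h5

variable (S z u) in
/-- the edges -/
def Ed (v w : (V → ZMod 2) × (V → ZMod 2)) : Prop :=
  ∃ j j', j ≠ j' ∧ u j = u j' ∧ IsGood S z u j v.1 ∧ IsGood S z u j' v.2 ∧ w.1 = v.1 + z j ∧
    w.2 = v.2 + z j'

end KeyP

open KeyP

theorem key (hHYP2 : S_HYP2) (hGOOD : S_GOOD) : S_KEY := by
  classical
  intro V S d P n z u Φ hn hΦ hbet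
  let G : Finset (Fin d × (V → ZMod 2)) :=
    ((Finset.univ : Finset (Fin d)) ×ˢ S).filter fun q => IsGood S z u q.1 q.2
  have hG : ∀ q, q ∈ G ↔ IsGood S z u q.1 q.2 := by
    intro q
    simp only [G, Finset.mem_filter, Finset.mem_product, Finset.mem_univ, true_and]
    exact ⟨fun h => h.2, fun h => ⟨h.1, h⟩⟩
  have hGc : Nat.card {q : Fin d × (V → ZMod 2) // IsGood S z u q.1 q.2} = G.card :=
    Nat.subtype_card G hG
  have h1 : d * n ≤ G.card + 2 * bet S z u := by
    have := hGOOD V S d P n z u hn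
    rwa [hGc] at this
  -- Cauchy-Schwarz
  let GG : Finset ((Fin d × (V → ZMod 2)) × (Fin d × (V → ZMod 2))) :=
    (G ×ˢ G).filter fun p => u p.1.1 = u p.2.1
  have hGG : GG.card = ∑ a : Fin P, (G.filter fun q => u q.1 = a).card ^ 2 := by
    rw [Finset.card_eq_sum_card_fiberwise (f := fun p => u p.1.1) (t := Finset.univ)
      (fun _ _ => Finset.mem_coe.2 (Finset.mem_univ _))]
    refine Finset.sum_congr rfl fun a _ => ?_
    rw [sq, ← Finset.card_product]
    congr 1
    ext p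
    simp only [GG, Finset.mem_filter, Finset.mem_product]
    constructor
    · rintro ⟨⟨⟨h1, h2⟩, h3⟩, h4⟩
      exact ⟨⟨h1, h4⟩, h2, by rw [← h3]; exact h4⟩
    · rintro ⟨⟨h1, h2⟩, h3, h4⟩
      exact ⟨⟨⟨h1, h3⟩, by rw [h2, h4]⟩, h2⟩
  have hGs : G.card = ∑ a : Fin P, (G.filter fun q => u q.1 = a).card :=
    Finset.card_eq_sum_card_fiberwise (f := fun q : Fin d × (V → ZMod 2) => u q.1)
      (t := Finset.univ)
      (fun _ _ => Finset.mem_coe.2 (Finset.mem_univ _))
  have h2 : (G.card : ℝ) ^ 2 ≤ P * GG.card := by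
    rw [hGG, hGs]
    push_cast
    have := sq_sum_le_card_mul_sum_sq (s := (Finset.univ : Finset (Fin P)))
      (f := fun a => ((G.filter fun q => u q.1 = a).card : ℝ))
    rwa [Finset.card_univ, Fintype.card_fin] at this
  -- the diagonal
  have h3 : (GG.filter fun p => p.1.1 = p.2.1).card ≤ d * n ^ 2 := by
    rw [Finset.card_eq_sum_card_fiberwise (f := fun p => p.1.1) (t := Finset.univ)
      (fun _ _ => Finset.mem_coe.2 (Finset.mem_univ _))]
    have h4 : ∀ j ∈ (Finset.univ : Finset (Fin d)),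
        ((GG.filter fun p => p.1.1 = p.2.1).filter fun p => p.1.1 = j).card ≤ n ^ 2 := by
      intro j _
      have h5 : n = (S.filter fun y => y + z j ∈ S).card := by
        rw [← hn j]
        exact Nat.subtype_card _ fun y => by rw [Finset.mem_filter]
      rw [h5, sq, ← Finset.card_product]
      refine Finset.card_le_card_of_injOn (fun p => (p.1.2, p.2.2)) ?_ ?_
      · intro p hp
        simp only [GG, Finset.coe_filter, Finset.mem_filter, Finset.mem_product,
          Set.mem_ofPred_eq, hG] at hp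
        obtain ⟨⟨⟨⟨g1, g2⟩, -⟩, e1⟩, e2⟩ := hp
        simp only [Finset.coe_product, Finset.coe_filter, Set.mem_prod, Set.mem_ofPred_eq]
        refine ⟨⟨g1.1, ?_⟩, g2.1, ?_⟩
        · have := g1.2.1
          rwa [e2] at this
        · have := g2.2.1
          rwa [← e1, e2] at this
      · intro p hp p' hp' he
        simp only [Finset.coe_filter, Finset.mem_filter, Set.mem_ofPred_eq] at hp hp'
        obtain ⟨⟨-, e1⟩, e2⟩ := hp
        obtain ⟨⟨-, e1'⟩, e2'⟩ := hp'
        simp only [Prod.mk.injEq] at he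
        refine Prod.ext (Prod.ext (e2.trans e2'.symm) he.1) (Prod.ext ?_ he.2)
        rw [← e1, ← e1', e2, e2']
    refine (Finset.sum_le_sum h4).trans ?_
    rw [Finset.sum_const, Finset.card_univ, Fintype.card_fin, smul_eq_mul]
  -- the edges
  have hne : ∀ x : ZMod 2, x + 1 ≠ x := by decide
  have hPhi : ∀ i j j' y y', j ≠ j' → u j = u j' → IsGood S z u j y → IsGood S z u j' y' →
      (Φ i y y' ≠ Φ i (y + z j) (y' + z j') ↔ i = j ∨ i = j') := by
    intro i j j' y y' hj hu g g'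
    rw [hΦ i j j' hj hu y g.1 y' g'.1 g.2.1 g'.2.1]
    by_cases e1 : i = j
    · have e2 : i ≠ j' := fun h => hj (e1.symm.trans h)
      simp only [if_pos e1, if_neg e2, add_zero]
      exact ⟨fun _ => Or.inl e1, fun _ h => hne _ h.symm⟩
    · by_cases e2 : i = j'
      · simp only [if_neg e1, if_pos e2, zero_add]
        exact ⟨fun _ => Or.inr e2, fun _ h => hne _ h.symm⟩
      · simp only [if_neg e1, if_neg e2, add_zero]
        exact ⟨fun h => absurd rfl h, fun h => (h.elim e1 e2).elim⟩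
  let EF : Finset (((V → ZMod 2) × (V → ZMod 2)) × ((V → ZMod 2) × (V → ZMod 2))) :=
    ((S ×ˢ S) ×ˢ (S ×ˢ S)).filter fun p => Ed S z u p.1 p.2
  have h4 : (GG.filter fun p => ¬ p.1.1 = p.2.1).card ≤ EF.card := by
    refine Finset.card_le_card_of_injOn
      (fun p => ((p.1.2, p.2.2), (p.1.2 + z p.1.1, p.2.2 + z p.2.1))) ?_ ?_
    · intro p hp
      simp only [GG, Finset.coe_filter, Finset.mem_filter, Finset.mem_product,
        Set.mem_ofPred_eq, hG] at hp
      obtain ⟨⟨⟨g1, g2⟩, e1⟩, e2⟩ := hp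
      simp only [EF, Finset.coe_filter, Finset.mem_product, Set.mem_ofPred_eq]
      exact ⟨⟨⟨g1.1, g2.1⟩, g1.2.1, g2.2.1⟩, p.1.1, p.2.1, e2, e1, g1, g2, rfl, rfl⟩
    · rintro ⟨⟨j, y⟩, ⟨j', y'⟩⟩ hp ⟨⟨i, x⟩, ⟨i', x'⟩⟩ hp' he
      simp only [GG, Finset.coe_filter, Finset.mem_filter, Finset.mem_product,
        Set.mem_ofPred_eq, hG] at hp hp'
      obtain ⟨⟨⟨g1, g2⟩, e1⟩, e2⟩ := hp
      obtain ⟨⟨⟨k1, k2⟩, l1⟩, l2⟩ := hp'
      simp only [Prod.mk.injEq] at he
      obtain ⟨⟨rfl, rfl⟩, f1, f2⟩ := he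
      have m1 := (hPhi j j j' y y' e2 e1 g1 g2).2 (Or.inl rfl)
      rw [f1, f2] at m1
      have m2 := (hPhi j i i' y y' l2 l1 k1 k2).1 m1
      have m3 : u i = u j := by
        rcases m2 with m2 | m2
        · rw [m2]
        · rw [l1, m2]
      have m4 : i = j := g1.2.2.1 i m3 k1.2.1
      have m5 : i' = j' := g2.2.2.1 i' (by rw [← l1, m3, e1]) k2.2.1
      rw [m4, m5]
  have h5 : (EF.card : ℝ) ≤ 2 * S.card ^ 2 * Real.logb 2 S.card := by
    have h6 := hHYP2 ((V → ZMod 2) × (V → ZMod 2)) (Fin d) (S ×ˢ S) (fun i v => Φ i v.1 v.2)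
      (Ed S z u) ?_ ?_ ?_
    · have h7 : Nat.card {p : ((V → ZMod 2) × (V → ZMod 2)) × ((V → ZMod 2) × (V → ZMod 2)) //
          p.1 ∈ S ×ˢ S ∧ p.2 ∈ S ×ˢ S ∧ Ed S z u p.1 p.2} = EF.card := by
        refine Nat.subtype_card EF fun p => ?_
        simp only [EF, Finset.mem_filter, Finset.mem_product]
        tauto
      rw [h7, Finset.card_product] at h6
      refine h6.trans (le_of_eq ?_)
      push_cast
      rw [← sq, Real.logb_pow]
      push_cast
      ring
    · rintro v w ⟨j, j', a1, a2, a3, a4, a5, a6⟩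
      refine ⟨j, j', a1, a2, ?_, ?_, ?_, ?_⟩
      · rw [a5]
        exact good_symm a3
      · rw [a6]
        exact good_symm a4
      · rw [a5, add_add]
      · rw [a6, add_add]
    · rintro v _ w _ ⟨j, j', a1, a2, a3, a4, a5, a6⟩
      refine ⟨j, ?_⟩
      rw [a5, a6]
      exact (hPhi j j j' v.1 v.2 a1 a2 a3 a4).2 (Or.inl rfl)
    · rintro v _ w _ w' _ i ⟨j, j', a1, a2, a3, a4, a5, a6⟩ ⟨l, l', b1, b2, b3, b4, b5, b6⟩ c1 c2
      rw [a5, a6] at c1
      rw [b5, b6] at c2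
      have d1 := (hPhi i j j' v.1 v.2 a1 a2 a3 a4).1 c1
      have d2 := (hPhi i l l' v.1 v.2 b1 b2 b3 b4).1 c2
      have e1 : u i = u j := by
        rcases d1 with d1 | d1
        · rw [d1]
        · rw [d1, a2]
      have e2 : u i = u l := by
        rcases d2 with d2 | d2
        · rw [d2]
        · rw [d2, b2]
      have e3 : l = j := a3.2.2.1 l (by rw [← e2, e1]) b3.2.1
      have e4 : l' = j' := a4.2.2.1 l' (by rw [← b2, ← e2, e1, a2]) b4.2.1
      refine Prod.ext ?_ ?_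
      · rw [a5, b5, e3]
      · rw [a6, b6, e4]
  have h6 : (GG.card : ℝ) ≤ 2 * S.card ^ 2 * Real.logb 2 S.card + d * n ^ 2 := by
    rw [← Finset.card_filter_add_card_filter_not (s := GG) (fun p => p.1.1 = p.2.1)]
    push_cast
    have h7 : ((GG.filter fun p => p.1.1 = p.2.1).card : ℝ) ≤ d * n ^ 2 := by exact_mod_cast h3
    have h8 : ((GG.filter fun p => ¬ p.1.1 = p.2.1).card : ℝ) ≤ EF.card := by exact_mod_cast h4
    linarith
  have h7 : (0 : ℝ) ≤ (d : ℝ) * n - 2 * bet S z u := by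
    have : ((2 * bet S z u : ℕ) : ℝ) ≤ ((d * n : ℕ) : ℝ) := by exact_mod_cast hbet
    push_cast at this
    linarith
  have h8 : (d : ℝ) * n - 2 * bet S z u ≤ G.card := by
    have : ((d * n : ℕ) : ℝ) ≤ ((G.card + 2 * bet S z u : ℕ) : ℝ) := by exact_mod_cast h1
    push_cast at this
    linarith
  calc ((d : ℝ) * n - 2 * bet S z u) ^ 2 ≤ (G.card : ℝ) ^ 2 := pow_le_pow_left₀ h7 h8 2
    _ ≤ P * GG.card := h2
    _ ≤ P * (2 * S.card ^ 2 * Real.logb 2 S.card + d * n ^ 2) :=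
        mul_le_mul_of_nonneg_left h6 (Nat.cast_nonneg P)

end Pool.Agent.H5Ref
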