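import Pool.Agent.H5Ref.Stm2
import Pool.Agent.H5Ref.Lev0

/-!
# Piece LEV2: two consecutive levels, with the degrees
-/

set_option autoImplicit false

namespace Pool.Agent.H5Ref

open Finset LevP

namespace Lev2

open scoped Classical in
/-- the set -/
noncomputable def LS (h P l : ℕ) : Finset (Fin (2 * h) × Fin P → ZMod 2) :=
  univ.filter fun y => ∃ B : Finset (Fin (2 * h)), B.card = h ∧
    ∀ c, LevP.wt (row y c) = if c ∈ B then l else l + 1

theorem mem_LS {h P l : ℕ} {y : Fin (2 * h) × Fin P → ZMod 2} : y ∈ LS h P l ↔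
    ∃ B : Finset (Fin (2 * h)), B.card = h ∧
      ∀ c, LevP.wt (row y c) = if c ∈ B then l else l + 1 := by
  classical
  unfold LS
  rw [mem_filter]
  exact ⟨fun h => h.2, fun h => ⟨mem_univ _, h⟩⟩

theorem row_add {h P : ℕ} (i : Fin (2 * h) → Fin P) (y : Fin (2 * h) × Fin P → ZMod 2)
    (c : Fin (2 * h)) : row (y + uz i) c = row y c + Pi.single (i c) 1 := by
  funext a
  show y (c, a) + (∑ c', Pi.single (c', i c') (1 : ZMod 2) : Fin (2 * h) × Fin P → ZMod 2) (c, a)
    = y (c, a) + (Pi.single (i c) 1 : Fin P → ZMod 2) a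
  congr 1
  rw [Finset.sum_apply, Finset.sum_eq_single c]
  · by_cases ha : a = i c
    · rw [ha]; simp
    · rw [Pi.single_eq_of_ne ha, Pi.single_eq_of_ne]
      intro h'
      exact ha (Prod.ext_iff.1 h').2
  · intro b _ hb
    rw [Pi.single_eq_of_ne]
    intro h'
    exact hb (Prod.ext_iff.1 h').1.symm
  · intro h'
    exact absurd (Finset.mem_univ _) h'

/-- when both `y` and `y + uz i` are in the set -/
theorem step {h P l : ℕ} {y : Fin (2 * h) × Fin P → ZMod 2} {B : Finset (Fin (2 * h))}
    (hB : B.card = h) (h1 : ∀ c, LevP.wt (row y c) = if c ∈ B then l else l + 1)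
    (i : Fin (2 * h) → Fin P) :
    y + uz i ∈ LS h P l ↔ ∀ c, (row y c (i c) = 0 ↔ c ∈ B) := by
  rw [mem_LS]
  constructor
  · rintro ⟨B', hB', h2⟩ c
    have k1 := h1 c
    have k2 := h2 c
    rw [row_add] at k2
    by_cases h0 : row y c (i c) = 0
    · have k3 := wt_add0 h0
      by_cases hc : c ∈ B
      · exact ⟨fun _ => hc, fun _ => h0⟩
      · exfalso
        rw [if_neg hc] at k1
        split_ifs at k2 <;> omega
    · have k3 := wt_add1 h0
      by_cases hc : c ∈ B
      · exfalso
        rw [if_pos hc] at k1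
        split_ifs at k2 <;> omega
      · exact ⟨fun h => absurd h h0, fun h => absurd h hc⟩
  · intro h2
    refine ⟨Bᶜ, ?_, fun c => ?_⟩
    · rw [Finset.card_compl, Fintype.card_fin, hB]
      omega
    · have k := h1 c
      rw [row_add]
      by_cases hc : c ∈ B
      · have h0 := (h2 c).2 hc
        rw [if_pos hc] at k
        rw [if_neg (by simpa using hc), wt_add0 h0, k]
      · have h0 : row y c (i c) ≠ 0 := fun h => hc ((h2 c).1 h)
        rw [if_neg hc] at k
        have k3 := wt_add1 h0
        rw [if_pos (by simpa using hc)]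
        omega

theorem card_LS (h P l : ℕ) : (LS h P l).card =
    (2 * h).choose h * (P.choose l * P.choose (l + 1)) ^ h := by
  classical
  have hc := count (h := h) (P := P) (fun B c => univ.filter fun r : Fin P → ZMod 2 =>
      LevP.wt r = if c ∈ B then l else l + 1) (P.choose l) (P.choose (l + 1)) (by
    intro B B' c r h1 h2
    rw [mem_filter] at h1 h2
    by_cases hc : c ∈ B <;> by_cases hc' : c ∈ B' <;> simp [hc, hc'] at h1 h2 ⊢ <;> omega) (by
    intro B c
    by_cases hc : c ∈ B
    · simp only [hc, if_true]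
      exact card_W l
    · simp only [hc, if_false]
      exact card_W (l + 1))
  rw [← hc]
  congr 1
  ext y
  rw [mem_LS]
  simp only [mem_filter, mem_univ, true_and]

theorem card_two (h P l : ℕ) (hP : 1 ≤ P) (i : Fin (2 * h) → Fin P) :
    Nat.card {y // y ∈ LS h P l ∧ y + uz i ∈ LS h P l} =
      (2 * h).choose h * (P - 1).choose l ^ (2 * h) := by
  classical
  have hcount := count (h := h) (P := P) (fun B c => univ.filter fun r : Fin P → ZMod 2 =>
      if c ∈ B then (LevP.wt r = l ∧ r (i c) = 0) else (LevP.wt r = l + 1 ∧ r (i c) ≠ 0))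
      ((P - 1).choose l) ((P - 1).choose l) (by
    intro B B' c r h1 h2
    have h1' := (Finset.mem_filter.1 h1).2
    have h2' := (Finset.mem_filter.1 h2).2
    by_cases hc : c ∈ B <;> by_cases hc' : c ∈ B' <;> simp only [hc, hc', if_true, if_false] at h1' h2' ⊢
    · exact absurd h1'.2 h2'.2
    · exact absurd h2'.2 h1'.2) (by
    intro B c
    by_cases hc : c ∈ B
    · simp only [hc, if_true]
      exact card_W0 l (i c)
    · simp only [hc, if_false]
      exact card_W1 l (i c) hP)
  have e2 : (2 * h).choose h * ((P - 1).choose l * (P - 1).choose l) ^ h =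
      (2 * h).choose h * (P - 1).choose l ^ (2 * h) := by
    rw [← sq, ← pow_mul]
  rw [← e2, ← hcount]
  refine Nat.subtype_card _ fun y => ?_
  rw [mem_filter]
  constructor
  · rintro ⟨-, B, hB, h2⟩
    have h3 : ∀ c, if c ∈ B then (LevP.wt (row y c) = l ∧ row y c (i c) = 0)
        else (LevP.wt (row y c) = l + 1 ∧ row y c (i c) ≠ 0) := fun c =>
      (Finset.mem_filter.1 (h2 c)).2
    have h1 : ∀ c, LevP.wt (row y c) = if c ∈ B then l else l + 1 := by
      intro c
      have k := h3 c
      by_cases hc : c ∈ B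
      · rw [if_pos hc] at k ⊢; exact k.1
      · rw [if_neg hc] at k ⊢; exact k.1
    refine ⟨mem_LS.2 ⟨B, hB, h1⟩, (step hB h1 i).2 fun c => ?_⟩
    have k := h3 c
    by_cases hc : c ∈ B
    · rw [if_pos hc] at k
      exact ⟨fun _ => hc, fun _ => k.2⟩
    · rw [if_neg hc] at k
      exact ⟨fun h => absurd h k.2, fun h => absurd h hc⟩
  · rintro ⟨hy, hyi⟩
    obtain ⟨B, hB, h1⟩ := mem_LS.1 hy
    have h2 := (step hB h1 i).1 hyi
    refine ⟨mem_univ _, B, hB, fun c => ?_⟩
    rw [mem_filter]
    refine ⟨mem_univ _, ?_⟩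
    have k := h1 c
    by_cases hc : c ∈ B
    · rw [if_pos hc] at k ⊢
      exact ⟨k, (h2 c).2 hc⟩
    · rw [if_neg hc] at k ⊢
      exact ⟨k, fun h => hc ((h2 c).1 h)⟩

theorem card_deg {h P l : ℕ} {y : Fin (2 * h) × Fin P → ZMod 2} (hy : y ∈ LS h P l) :
    Nat.card {i : Fin (2 * h) → Fin P // y + uz i ∈ LS h P l} = ((P - l) * (l + 1)) ^ h := by
  classical
  obtain ⟨B, hB, h1⟩ := mem_LS.1 hy
  have h2 : Nat.card {i : Fin (2 * h) → Fin P // y + uz i ∈ LS h P l} =
      (Fintype.piFinset fun c : Fin (2 * h) =>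
        univ.filter fun a : Fin P => (row y c a = 0 ↔ c ∈ B)).card := by
    refine Nat.subtype_card _ fun i => ?_
    rw [Fintype.mem_piFinset, step hB h1 i]
    refine forall_congr' fun c => ?_
    rw [mem_filter]
    exact ⟨fun h => h.2, fun h => ⟨mem_univ _, h⟩⟩
  have h3 : ∀ c : Fin (2 * h), (univ.filter fun a : Fin P => (row y c a = 0 ↔ c ∈ B)).card =
      if c ∈ B then P - l else l + 1 := by
    intro c
    have k := h1 c
    have hsp : (univ.filter fun a : Fin P => row y c a ≠ 0).card = LevP.wt (row y c) := rfl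
    by_cases hc : c ∈ B
    · rw [if_pos hc] at k ⊢
      have e : (univ.filter fun a : Fin P => (row y c a = 0 ↔ c ∈ B)) =
          univ.filter fun a : Fin P => row y c a = 0 := by
        refine filter_congr fun a _ => ?_
        exact ⟨fun h => h.2 hc, fun h => ⟨fun _ => hc, fun _ => h⟩⟩
      have h4 := card_filter_add_card_filter_not (s := (univ : Finset (Fin P)))
        (fun a => row y c a = 0)
      rw [card_univ, Fintype.card_fin] at h4
      have h5 : (univ.filter fun a : Fin P => ¬ row y c a = 0).card = l := by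
        rw [← k, ← hsp]
      rw [e]
      omega
    · rw [if_neg hc] at k ⊢
      have e : (univ.filter fun a : Fin P => (row y c a = 0 ↔ c ∈ B)) =
          univ.filter fun a : Fin P => row y c a ≠ 0 := by
        refine filter_congr fun a _ => ?_
        exact ⟨fun h h' => hc (h.1 h'), fun h => ⟨fun h' => absurd h' h, fun h' => absurd h' hc⟩⟩
      rw [e, hsp, k]
  rw [h2, Fintype.card_piFinset, Finset.prod_congr rfl (fun c _ => h3 c), Finset.prod_ite,
    Finset.prod_const, Finset.prod_const]
  have e1 : (univ.filter fun c : Fin (2 * h) => c ∈ B) = B := by ext; simp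
  have e2 : (univ.filter fun c : Fin (2 * h) => ¬ c ∈ B) = Bᶜ := by ext; simp
  rw [e1, e2, Finset.card_compl, Fintype.card_fin, hB, mul_pow]
  congr 2
  omega

end Lev2

theorem lev2 : S_LEV2 := by
  intro h P l hP
  exact ⟨Lev2.LS h P l, Lev2.card_LS h P l, Lev2.card_two h P l hP, fun y hy => Lev2.card_deg hy⟩

end Pool.Agent.H5Ref
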