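import Pool.Agent.H5Ref.Odd2
import Pool.Agent.H5Ref.Hyp2
import Pool.Agent.H5Ref.Good
import Pool.Agent.H5Ref.Key
import Pool.Agent.H5Ref.Dim2
import Pool.Agent.H5Ref.Lev2
import Pool.Agent.H5Ref.Beta
import Pool.Agent.H5Ref.Circ2

/-!
# The upper bound for odd arity with explicit constants
-/

set_option autoImplicit false

namespace Pool.Agent.H5Ref

open Module Pool.Agent.H5Sym Pool.Agent.H5Dich Pool.Agent.H5Lin

/-- **The upper bound for odd arity.** -/
theorem upperO (h P l : ℕ) (hh : 1 ≤ h) (hl : 1 ≤ l) (hP : 2 * l ≤ P) :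
    ∃ C : LCircuit.{0, 0} (Con (pred (even (2 * h + 1))) (Fin (2 * h + 1) × Fin P)) Bool,
      Nonempty (C.Action fun u : Fin (2 * h + 1) × Fin P → ZMod 2 => flipC u) ∧ Finite C.Gate ∧
      (∀ g, (∃ t, C.label g = .input t) ∨ C.label g = .sym orB ∨ C.label g = .sym andB ∨
        C.label g = .sym norB) ∧
      C.size ≤ P ^ (60 * h ^ 2 * l) ∧
      (∀ φ, (sol (ones φ)).Nonempty → C.eval φ C.out = true) ∧
      ∀ m lam : ℕ, 320 * h * 4 ^ h * P * l * (P / l : ℝ) ^ (2 * h) * Real.logb 2 P ≤ (m : ℝ) ^ 2 →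
        2 ^ (h + 3) * lam * m ≤ P * (P / l : ℝ) ^ h →
        lam * Nat.card {f : Fin (2 * h + 1) → Fin m → Fin P //
          2 ^ (-(m : ℝ) / 2) * (2 ^ (2 * h + 1)) ^ m < (Nat.card {w //
            C.eval (inst (even (2 * h + 1)) 0 (evenM (2 * h + 1)) (.refl _) f w) C.out = true} : ℝ)} ≤
          P ^ ((2 * h + 1) * m) :=
  upperOdd (dim2 (key hyp2 good)) lev2 beta circ2 h P l hh hl hP

end Pool.Agent.H5Ref
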