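import Pool.Agent.H5Dich.Count

/-!
# Random sparse systems: the fraction of the bad ones
-/

set_option autoImplicit false

namespace Pool.Agent.H5Ref

open Module Pool.Agent.H5Sym Pool.Agent.H5Dich

variable {R : Type} [Fintype R] [DecidableEq R] {P m : ℕ}

omit [DecidableEq R] in
theorem sum_suppc' (τ : ℕ) (h : Fin m → R → F2)
    (hh : ∀ j, h j ≠ 0 → τ ≤ (Finset.univ.filter fun c => h j c ≠ 0).card) :
    τ * (supp h).card ≤ ∑ c, (suppc h c).card := by
  classical
  have h1 : ∑ c, (suppc h c).card = ∑ j, (Finset.univ.filter fun c => h j c ≠ 0).card := by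
    simp only [suppc, Finset.card_filter]
    exact Finset.sum_comm
  rw [h1]
  calc τ * (supp h).card = ∑ _j ∈ supp h, τ := by rw [Finset.sum_const, smul_eq_mul, mul_comm]
    _ ≤ ∑ j ∈ supp h, (Finset.univ.filter fun c => h j c ≠ 0).card :=
        Finset.sum_le_sum fun j hj => hh j (Finset.mem_filter.1 hj).2
    _ ≤ _ := Finset.sum_le_sum_of_subset (Finset.subset_univ _)

theorem arith' {P κ k l ρ σ B t lam : ℕ} (hk0 : k ≠ 0) (hlam : 1 ≤ lam)
    (hP : 4 * 4 ^ (t + 2) * 4 ^ ρ * lam ^ 2 * κ ^ t * (k + l) ^ 2 ≤ P ^ (t + 2))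
    (hk : k ≤ 2 * κ) (hσ : (t + 2) * k ≤ σ) (hB : B ^ k ≤ bb k ^ σ) :
    ((4 * lam) ^ k * (k + l).choose k * (2 ^ ρ) ^ k) ^ 2 * B ≤ P ^ σ := by
  have h2 : (k + l).choose k * k.factorial ≤ (k + l) ^ k := by
    rw [mul_comm, ← Nat.descFactorial_eq_factorial_mul_choose]
    exact Nat.descFactorial_le_pow (k + l) k
  have h3 : k.factorial ≤ (2 * κ) ^ k := (Nat.factorial_le_pow k).trans (Nat.pow_le_pow_left hk k)
  have h4 : ((4 * lam) ^ k * (k + l).choose k * (2 ^ ρ) ^ k) ^ 2 * bb k ^ (t + 2) ≤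
      P ^ ((t + 2) * k) := by
    calc ((4 * lam) ^ k * (k + l).choose k * (2 ^ ρ) ^ k) ^ 2 * bb k ^ (t + 2)
        = ((4 * lam) ^ k * (4 * lam) ^ k * ((2 ^ ρ) ^ k * (2 ^ ρ) ^ k) * (2 ^ k) ^ (t + 2)) *
            ((k + l).choose k * k.factorial) ^ 2 * k.factorial ^ t := by rw [bb]; ring
      _ ≤ ((4 * lam) ^ k * (4 * lam) ^ k * ((2 ^ ρ) ^ k * (2 ^ ρ) ^ k) * (2 ^ k) ^ (t + 2)) *
            ((k + l) ^ k) ^ 2 * ((2 * κ) ^ k) ^ t := by gcongr
      _ = (4 * 4 ^ (t + 2) * 4 ^ ρ * lam ^ 2 * κ ^ t * (k + l) ^ 2) ^ k := by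
          have e1 : (4 : ℕ) ^ ρ = 2 ^ ρ * 2 ^ ρ := by rw [← mul_pow]; norm_num
          have e2 : (4 : ℕ) ^ (t + 2) = 2 ^ (t + 2) * (2 ^ t * 4) := by
            rw [pow_add, pow_add]
            have : (4 : ℕ) ^ t = 2 ^ t * 2 ^ t := by rw [← mul_pow]; norm_num
            rw [this]
            ring
          have e3 : ((2 : ℕ) ^ k) ^ (t + 2) = (2 ^ (t + 2)) ^ k := by
            rw [← pow_mul, ← pow_mul, mul_comm]
          have e4 : ((k + l) ^ k) ^ 2 = ((k + l) ^ 2) ^ k := by
            rw [← pow_mul, ← pow_mul, mul_comm]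
          have e5 : ((2 * κ) ^ k) ^ t = ((2 * κ) ^ t) ^ k := by
            rw [← pow_mul, ← pow_mul, mul_comm k t]
          rw [e1, e2, e3, e4, e5, ← mul_pow, ← mul_pow, ← mul_pow, ← mul_pow, ← mul_pow, ← mul_pow]
          congr 1
          rw [mul_pow]
          ring
      _ ≤ (P ^ (t + 2)) ^ k := Nat.pow_le_pow_left hP k
      _ = P ^ ((t + 2) * k) := by rw [← pow_mul]
  have h5 : bb k ≤ P ^ k := by
    have h6 : 2 * k ≤ P := by
      refine (Nat.pow_le_pow_iff_left (n := t + 2) (by omega)).1 (le_trans ?_ hP)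
      have h7 : 1 ≤ 4 ^ ρ := Nat.one_le_pow _ _ (by norm_num)
      have h8 : 1 ≤ lam ^ 2 := Nat.one_le_pow _ _ hlam
      calc (2 * k) ^ (t + 2) = (2 * k) ^ t * (2 * k) ^ 2 := pow_add _ _ _
        _ ≤ (4 * κ) ^ t * (2 * (k + l)) ^ 2 := by
            refine Nat.mul_le_mul (Nat.pow_le_pow_left (by omega) _) (Nat.pow_le_pow_left (by omega) _)
        _ = 4 * 4 ^ t * 1 * 1 * κ ^ t * (k + l) ^ 2 := by rw [mul_pow, mul_pow]; ring
        _ ≤ 4 * 4 ^ (t + 2) * 4 ^ ρ * lam ^ 2 * κ ^ t * (k + l) ^ 2 := by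
            refine Nat.mul_le_mul_right _ (Nat.mul_le_mul_right _ (Nat.mul_le_mul (Nat.mul_le_mul
              (Nat.mul_le_mul_left _ (Nat.pow_le_pow_right (by norm_num) (by omega))) h7) h8))
    calc bb k ≤ 2 ^ k * k ^ k := Nat.mul_le_mul_left _ (Nat.factorial_le_pow k)
      _ = (2 * k) ^ k := (mul_pow _ _ _).symm
      _ ≤ P ^ k := Nat.pow_le_pow_left h6 k
  refine (Nat.pow_le_pow_iff_left hk0).1 ?_
  obtain ⟨e, rfl⟩ := Nat.exists_eq_add_of_le hσ
  calc (((4 * lam) ^ k * (k + l).choose k * (2 ^ ρ) ^ k) ^ 2 * B) ^ k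
      = (((4 * lam) ^ k * (k + l).choose k * (2 ^ ρ) ^ k) ^ 2) ^ k * B ^ k := mul_pow _ _ _
    _ ≤ (((4 * lam) ^ k * (k + l).choose k * (2 ^ ρ) ^ k) ^ 2) ^ k * bb k ^ ((t + 2) * k + e) :=
        Nat.mul_le_mul_left _ hB
    _ = (((4 * lam) ^ k * (k + l).choose k * (2 ^ ρ) ^ k) ^ 2 * bb k ^ (t + 2)) ^ k * bb k ^ e := by
        generalize ((4 * lam) ^ k * (k + l).choose k * (2 ^ ρ) ^ k) ^ 2 = Z
        rw [mul_pow, ← pow_mul, mul_assoc, ← pow_add]
    _ ≤ (P ^ ((t + 2) * k)) ^ k * (P ^ k) ^ e := by gcongr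
    _ = (P ^ ((t + 2) * k + e)) ^ k := by ring

theorem bdH_bound' {κ t lam : ℕ} (hlam : 1 ≤ lam)
    (hP : 4 * 4 ^ (t + 2) * 4 ^ Fintype.card R * lam ^ 2 * κ ^ t * m ^ 2 ≤ P ^ (t + 2))
    (h : Fin m → R → F2) (hh : ∀ j, h j ≠ 0 → t + 2 ≤ (Finset.univ.filter fun c => h j c ≠ 0).card)
    (h0 : (supp h).card ≠ 0) (hS : (supp h).card ≤ 2 * κ) (v : R → Fin P → F2) :
    (4 * lam) ^ (supp h).card * m.choose (supp h).card * (2 ^ Fintype.card R) ^ (supp h).card *
      (Finset.univ.filter fun f : R → Fin m → Fin P => bdH f h = v).card ≤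
        P ^ (Fintype.card R * m) := by
  have hkm : (supp h).card ≤ m := by
    have := Finset.card_le_univ (supp h)
    rwa [Fintype.card_fin] at this
  have hm : m = (supp h).card + (m - (supp h).card) := by omega
  have hc : ∀ c, (suppc h c).card ≤ (supp h).card := fun c =>
    Finset.card_le_card (suppc_subset h c)
  have h1 : (∏ c, bb (suppc h c).card) ^ (supp h).card ≤
      bb (supp h).card ^ ∑ c, (suppc h c).card := by
    rw [← Finset.prod_pow, ← Finset.prod_pow_eq_pow_sum]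
    exact Finset.prod_le_prod' fun c _ => bb_pow (hc c)
  have h2 := arith' (l := m - (supp h).card) h0 hlam (by rwa [← hm]) hS (sum_suppc' _ h hh) h1
  rw [← hm] at h2
  refine (Nat.pow_le_pow_iff_left (n := 2) two_ne_zero).1 ?_
  rw [mul_pow, bdH_card, ← Finset.prod_pow]
  have h3 : ∏ c : R, (walk (suppc h c).card (v c) * P ^ (m - (suppc h c).card)) ^ 2 ≤
      ∏ c : R, (bb (suppc h c).card * P ^ (2 * m - (suppc h c).card)) := by
    refine Finset.prod_le_prod' fun c _ => ?_
    rw [mul_pow]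
    calc walk (suppc h c).card (v c) ^ 2 * (P ^ (m - (suppc h c).card)) ^ 2
        ≤ 2 ^ (suppc h c).card * (suppc h c).card.factorial * P ^ (suppc h c).card *
            (P ^ (m - (suppc h c).card)) ^ 2 := Nat.mul_le_mul_right _ (walk_sq _ _)
      _ = bb (suppc h c).card * P ^ (2 * m - (suppc h c).card) := by
          rw [bb, mul_assoc, ← pow_mul, ← pow_add]
          congr 2
          have := hc c
          omega
  calc _ ≤ ((4 * lam) ^ (supp h).card * m.choose (supp h).card * (2 ^ Fintype.card R) ^ (supp h).card) ^ 2 *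
        ∏ c : R, (bb (suppc h c).card * P ^ (2 * m - (suppc h c).card)) := Nat.mul_le_mul_left _ h3
    _ = ((4 * lam) ^ (supp h).card * m.choose (supp h).card * (2 ^ Fintype.card R) ^ (supp h).card) ^ 2 *
        (∏ c : R, bb (suppc h c).card) * ∏ c : R, P ^ (2 * m - (suppc h c).card) := by
        rw [Finset.prod_mul_distrib, ← mul_assoc]
    _ ≤ P ^ (∑ c, (suppc h c).card) * ∏ c : R, P ^ (2 * m - (suppc h c).card) :=
        Nat.mul_le_mul_right _ h2
    _ = (P ^ (Fintype.card R * m)) ^ 2 := by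
        rw [Finset.prod_pow_eq_pow_sum, ← pow_add, ← Finset.sum_add_distrib, ← pow_mul]
        congr 1
        have h4 : ∀ c ∈ (Finset.univ : Finset R),
            (suppc h c).card + (2 * m - (suppc h c).card) = 2 * m := fun c _ => by
          have := hc c
          omega
        rw [Finset.sum_congr rfl h4, Finset.sum_const, Finset.card_univ, smul_eq_mul]
        ring

/-- the admissible families with support `S` -/
noncomputable def fam' (R : Type) [Fintype R] [DecidableEq R] {m : ℕ} (t : ℕ) (S : Finset (Fin m)) :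
    Finset (Fin m → R → F2) :=
  Finset.univ.filter fun h => supp h = S ∧
    ∀ j, h j ≠ 0 → t + 2 ≤ (Finset.univ.filter fun c => h j c ≠ 0).card

theorem fam_card' (t : ℕ) (S : Finset (Fin m)) : (fam' R t S).card ≤ (2 ^ Fintype.card R) ^ S.card := by
  classical
  have h1 : fam' R t S ⊆ Fintype.piFinset fun j => if j ∈ S then (Finset.univ : Finset (R → F2)) else {0} := by
    intro h hh
    rw [fam', Finset.mem_filter] at hh
    rw [Fintype.mem_piFinset]
    intro j
    split_ifs with hj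
    · exact Finset.mem_univ _
    · rw [Finset.mem_singleton]
      by_contra h0
      exact hj (hh.2.1 ▸ Finset.mem_filter.2 ⟨Finset.mem_univ _, h0⟩)
  refine (Finset.card_le_card h1).trans (le_of_eq ?_)
  rw [Fintype.card_piFinset]
  have h2 : ∀ j, (if j ∈ S then (Finset.univ : Finset (R → F2)) else {0}).card =
      if j ∈ S then 2 ^ Fintype.card R else 1 := by
    intro j
    split_ifs
    · rw [Finset.card_univ, Fintype.card_fun, ZMod.card]
    · exact Finset.card_singleton _
  rw [Finset.prod_congr rfl fun j _ => h2 j, Finset.prod_ite_mem, Finset.univ_inter,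
    Finset.prod_const]

/-- the functions `f` for which an admissible family with support size in `[a, b)` has its boundary in
`Bad` -/
noncomputable def badH' (t m a b : ℕ) (Bad : Finset (R → Fin P → F2)) :
    Finset (R → Fin m → Fin P) :=
  (Finset.Ico a b).biUnion fun k => (Finset.powersetCard k (Finset.univ : Finset (Fin m))).biUnion
    fun S => (fam' R t S).biUnion fun h => Bad.biUnion fun v => Finset.univ.filter fun f => bdH f h = v

theorem mem_badH' {t a b : ℕ} {Bad : Finset (R → Fin P → F2)} {f : R → Fin m → Fin P}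
    {h : Fin m → R → F2} (hh : ∀ j, h j ≠ 0 → t + 2 ≤ (Finset.univ.filter fun c => h j c ≠ 0).card)
    (h1 : a ≤ (supp h).card) (h2 : (supp h).card < b) (h3 : bdH f h ∈ Bad) :
    f ∈ badH' t m a b Bad := by
  simp only [badH', Finset.mem_biUnion, Finset.mem_Ico, Finset.mem_powersetCard, Finset.subset_univ,
    true_and, Finset.mem_filter, Finset.mem_univ]
  exact ⟨(supp h).card, ⟨h1, h2⟩, supp h, rfl, h, Finset.mem_filter.2 ⟨Finset.mem_univ _, rfl, hh⟩,
    _, h3, rfl⟩

theorem geom_le' (lam : ℝ) (hl : 1 ≤ lam) (a b : ℕ) (h : a ≤ b) :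
    ∑ k ∈ Finset.Ico a b, (1 / (4 * lam)) ^ k ≤ 4 / 3 * (1 / (4 * lam)) ^ a := by
  have h0 : (0 : ℝ) < 1 / (4 * lam) := by positivity
  have h1 : 1 / (4 * lam) ≤ 1 / 4 := by
    refine one_div_le_one_div_of_le (by norm_num) ?_
    linarith
  set r := 1 / (4 * lam) with hr
  have : (1 - r) * ∑ k ∈ Finset.Ico a b, r ^ k = r ^ a - r ^ b := by
    induction b, h using Nat.le_induction with
    | base => simp
    | succ b hb ih =>
      rw [Finset.sum_Ico_succ_top hb, mul_add, ih, pow_succ]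
      ring
  have h2 : (1 - r) * ∑ k ∈ Finset.Ico a b, r ^ k ≤ r ^ a := by
    rw [this]
    have : (0 : ℝ) < r ^ b := by positivity
    linarith
  have h3 : (0 : ℝ) ≤ ∑ k ∈ Finset.Ico a b, r ^ k := Finset.sum_nonneg fun _ _ => by positivity
  nlinarith

theorem badH_card' {κ t lam : ℕ} (hlam : 1 ≤ lam)
    (hP : 4 * 4 ^ (t + 2) * 4 ^ Fintype.card R * lam ^ 2 * κ ^ t * m ^ 2 ≤ P ^ (t + 2)) {a b : ℕ}
    (ha : 0 < a) (hab : a ≤ b) (hb : b ≤ 2 * κ + 1) (Bad : Finset (R → Fin P → F2)) :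
    ((badH' t m a b Bad).card : ℝ) ≤ Bad.card * (4 / 3 * (1 / (4 * lam)) ^ a) *
      P ^ (Fintype.card R * m) := by
  have hlam' : (0 : ℝ) < lam := by exact_mod_cast hlam
  set ρ := Fintype.card R with hρ
  have h1 : ∀ k ∈ Finset.Ico a b, (((Finset.powersetCard k (Finset.univ : Finset (Fin m))).biUnion
      fun S => (fam' R t S).biUnion fun h => Bad.biUnion fun v =>
        Finset.univ.filter fun f : R → Fin m → Fin P => bdH f h = v).card : ℝ) ≤
        Bad.card * (1 / (4 * lam)) ^ k * P ^ (ρ * m) := by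
    intro k hk
    rw [Finset.mem_Ico] at hk
    have h2 : ∀ S ∈ Finset.powersetCard k (Finset.univ : Finset (Fin m)),
        (((fam' R t S).biUnion fun h => Bad.biUnion fun v =>
          Finset.univ.filter fun f : R → Fin m → Fin P => bdH f h = v).card : ℝ) ≤
          Bad.card * ((1 / (4 * lam)) ^ k * P ^ (ρ * m) / m.choose k) := by
      intro S hS
      have hSk := (Finset.mem_powersetCard.1 hS).2
      have hC : 0 < m.choose k := by
        refine Nat.choose_pos ?_
        have := Finset.card_le_univ S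
        rwa [Fintype.card_fin, hSk] at this
      have hC' : (0 : ℝ) < m.choose k := by exact_mod_cast hC
      have h3 : ∀ h ∈ fam' R t S, ∀ v ∈ Bad,
          ((Finset.univ.filter fun f : R → Fin m → Fin P => bdH f h = v).card : ℝ) ≤
            (1 / (4 * lam)) ^ k * P ^ (ρ * m) / m.choose k / (2 ^ ρ) ^ k := by
        intro h hh v _
        rw [fam', Finset.mem_filter] at hh
        have h4 := bdH_bound' hlam hP h hh.2.2 (by rw [hh.2.1, hSk]; omega) (by rw [hh.2.1]; omega) v
        rw [hh.2.1, hSk, ← hρ] at h4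
        rw [le_div_iff₀ (by positivity), le_div_iff₀ hC', one_div, inv_pow, ← div_eq_inv_mul,
          le_div_iff₀ (by positivity)]
        have h5 : (((4 * lam) ^ k * m.choose k * (2 ^ ρ) ^ k * (Finset.univ.filter
          fun f : R → Fin m → Fin P => bdH f h = v).card : ℕ) : ℝ) ≤ ((P ^ (ρ * m) : ℕ) : ℝ) := by
          exact_mod_cast h4
        push_cast at h5
        linarith
      calc (((fam' R t S).biUnion fun h => Bad.biUnion fun v =>
          Finset.univ.filter fun f : R → Fin m → Fin P => bdH f h = v).card : ℝ)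
          ≤ ∑ h ∈ fam' R t S, ((Bad.biUnion fun v =>
              Finset.univ.filter fun f : R → Fin m → Fin P => bdH f h = v).card : ℝ) := by
            exact_mod_cast Finset.card_biUnion_le
        _ ≤ ∑ h ∈ fam' R t S, ∑ v ∈ Bad, ((Finset.univ.filter
              fun f : R → Fin m → Fin P => bdH f h = v).card : ℝ) := by
            refine Finset.sum_le_sum fun h _ => ?_
            exact_mod_cast Finset.card_biUnion_le
        _ ≤ ∑ _h ∈ fam' R t S, ∑ _v ∈ Bad, ((1 / (4 * lam)) ^ k * P ^ (ρ * m) / m.choose k / (2 ^ ρ) ^ k : ℝ) :=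
            Finset.sum_le_sum fun h hh => Finset.sum_le_sum fun v hv => h3 h hh v hv
        _ = (fam' R t S).card * (Bad.card * ((1 / (4 * lam)) ^ k * P ^ (ρ * m) / m.choose k / (2 ^ ρ) ^ k)) := by
            rw [Finset.sum_const, Finset.sum_const, nsmul_eq_mul, nsmul_eq_mul]
        _ ≤ ((2 ^ ρ) ^ k : ℝ) *
              (Bad.card * ((1 / (4 * lam)) ^ k * P ^ (ρ * m) / m.choose k / (2 ^ ρ) ^ k)) := by
            refine mul_le_mul_of_nonneg_right ?_ (by positivity)
            have := fam_card' (R := R) t S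
            rw [hSk, ← hρ] at this
            exact_mod_cast this
        _ = _ := by field_simp
    calc (((Finset.powersetCard k (Finset.univ : Finset (Fin m))).biUnion
      fun S => (fam' R t S).biUnion fun h => Bad.biUnion fun v =>
        Finset.univ.filter fun f : R → Fin m → Fin P => bdH f h = v).card : ℝ)
        ≤ ∑ S ∈ Finset.powersetCard k (Finset.univ : Finset (Fin m)),
            (((fam' R t S).biUnion fun h => Bad.biUnion fun v =>
              Finset.univ.filter fun f : R → Fin m → Fin P => bdH f h = v).card : ℝ) := by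
          exact_mod_cast Finset.card_biUnion_le
      _ ≤ ∑ _S ∈ Finset.powersetCard k (Finset.univ : Finset (Fin m)),
            (Bad.card * ((1 / (4 * lam)) ^ k * P ^ (ρ * m) / m.choose k) : ℝ) := Finset.sum_le_sum h2
      _ ≤ _ := by
          rw [Finset.sum_const, Finset.card_powersetCard, Finset.card_univ, Fintype.card_fin,
            nsmul_eq_mul]
          rcases Nat.eq_zero_or_pos (m.choose k) with h0 | h0
          · rw [h0]
            simp only [Nat.cast_zero, zero_mul]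
            positivity
          · have hC' : (m.choose k : ℝ) ≠ 0 := by exact_mod_cast h0.ne'
            refine le_of_eq ?_
            field_simp
  calc ((badH' t m a b Bad).card : ℝ)
      ≤ ∑ k ∈ Finset.Ico a b, (((Finset.powersetCard k (Finset.univ : Finset (Fin m))).biUnion
          fun S => (fam' R t S).biUnion fun h => Bad.biUnion fun v =>
            Finset.univ.filter fun f : R → Fin m → Fin P => bdH f h = v).card : ℝ) := by
        exact_mod_cast Finset.card_biUnion_le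
    _ ≤ ∑ k ∈ Finset.Ico a b, (Bad.card * (1 / (4 * lam)) ^ k * P ^ (ρ * m) : ℝ) := Finset.sum_le_sum h1
    _ = Bad.card * (∑ k ∈ Finset.Ico a b, (1 / (4 * lam) : ℝ) ^ k) * P ^ (ρ * m) := by
        rw [Finset.mul_sum, Finset.sum_mul]
    _ ≤ _ := by
        gcongr
        exact geom_le' lam (by exact_mod_cast hlam) a b hab


/-- good entries -/
def Good (t κ : ℕ) (Bad : Finset (R → Fin P → F2)) (f : R → Fin m → Fin P) : Prop :=
  ∀ h : Fin m → R → F2, (∀ j, h j ≠ 0 → t + 2 ≤ (Finset.univ.filter fun c => h j c ≠ 0).card) →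
    (κ ≤ (supp h).card → (supp h).card < 2 * κ → bdH f h ∉ Bad) ∧
    ((supp h).Nonempty → (supp h).card ≤ 2 * κ → bdH f h ≠ 0)

/-- Most choices of the entries are good. -/
theorem good_card {κ t lam : ℕ} (hκ : 0 < κ) (hlam : 1 ≤ lam)
    (hP : 4 * 4 ^ (t + 2) * 4 ^ Fintype.card R * lam ^ 2 * κ ^ t * m ^ 2 ≤ P ^ (t + 2))
    (Bad : Finset (R → Fin P → F2)) (hBad : 4 * Bad.card ≤ 4 ^ κ)
    (X : Finset (R → Fin m → Fin P)) (hX : ∀ f ∈ X, ¬ Good t κ Bad f) :
    lam * X.card ≤ P ^ (Fintype.card R * m) := by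
  have hsub : X ⊆ badH' t m κ (2 * κ) Bad ∪ badH' t m 1 (2 * κ + 1) {0} := by
    intro f hfX
    rw [Finset.mem_union]
    by_contra hf
    rw [not_or] at hf
    refine hX f hfX fun h hh => ⟨fun h1 h2 h3 => hf.1 (mem_badH' hh h1 h2 h3),
      fun h1 h2 h3 => hf.2 ?_⟩
    exact mem_badH' hh (Finset.card_pos.2 h1) (by omega)
      (by rw [h3]; exact Finset.mem_singleton_self _)
  have h1 : (X.card : ℝ) ≤ ((badH' t m κ (2 * κ) Bad).card : ℝ) +
      ((badH' t m 1 (2 * κ + 1) ({0} : Finset (R → Fin P → F2))).card : ℝ) := by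
    exact_mod_cast (Finset.card_le_card hsub).trans (Finset.card_union_le _ _)
  have h2 := badH_card' hlam hP hκ (show κ ≤ 2 * κ by omega) (by omega) Bad
  have h3 := badH_card' hlam hP one_pos (show 1 ≤ 2 * κ + 1 by omega) le_rfl
    ({0} : Finset (R → Fin P → F2))
  rw [Finset.card_singleton] at h3
  push_cast at h3
  have hlam' : (1 : ℝ) ≤ lam := by exact_mod_cast hlam
  have hPP : (0 : ℝ) ≤ (P : ℝ) ^ (Fintype.card R * m) := by positivity
  have hB : (Bad.card : ℝ) * (4 / 3 * (1 / (4 * lam)) ^ κ) ≤ 1 / (3 * lam) := by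
    have h4 : (4 * Bad.card : ℝ) ≤ 4 ^ κ := by exact_mod_cast hBad
    have h5 : (0 : ℝ) < 4 ^ κ := by positivity
    have h6 : (1 / (4 * lam) : ℝ) ^ κ ≤ 1 / 4 ^ κ * (1 / lam) := by
      rw [one_div_mul_one_div, one_div, one_div, inv_pow, mul_pow]
      refine inv_anti₀ (by positivity) ?_
      refine mul_le_mul_of_nonneg_left ?_ h5.le
      exact le_self_pow₀ hlam' (by omega)
    calc (Bad.card : ℝ) * (4 / 3 * (1 / (4 * lam)) ^ κ)
        ≤ (Bad.card : ℝ) * (4 / 3 * (1 / 4 ^ κ * (1 / lam))) := by gcongr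
      _ = (4 * Bad.card) / 4 ^ κ * (1 / (3 * lam)) := by field_simp
      _ ≤ 1 * (1 / (3 * lam)) := by
          refine mul_le_mul_of_nonneg_right ?_ (by positivity)
          rwa [div_le_one h5]
      _ = _ := one_mul _
  have h7 : (X.card : ℝ) ≤ (1 / (3 * lam) + 1 / (3 * lam)) * (P : ℝ) ^ (Fintype.card R * m) := by
    have h8 : (1 : ℝ) * (4 / 3 * (1 / (4 * lam)) ^ 1) = 1 / (3 * lam) := by
      field_simp
    rw [h8] at h3
    have h9 := mul_le_mul_of_nonneg_right hB hPP
    rw [add_mul]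
    linarith
  have h8 : (lam : ℝ) * X.card ≤ (P : ℝ) ^ (Fintype.card R * m) := by
    calc (lam : ℝ) * X.card ≤ lam * ((1 / (3 * lam) + 1 / (3 * lam)) *
          (P : ℝ) ^ (Fintype.card R * m)) := by gcongr
      _ = 2 / 3 * (P : ℝ) ^ (Fintype.card R * m) := by field_simp; ring
      _ ≤ _ := by linarith
  exact_mod_cast h8

end Pool.Agent.H5Ref
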