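import Pool.Agent.H5Lin.Basic
import Pool.Agent.H5Dich.Resist

/-!
# Refutation of random constraint satisfaction problems: definitions
-/

set_option autoImplicit false

namespace Pool.Agent.H5Ref

open Module Pool.Agent.H5Sym Pool.Agent.H5Dich Pool.Agent.H5Lin

open Classical in
/-- The instance with the `m` scopes `(c, f c j)`, `c < k`, over `k * P` variables, which are embedded
into the variables `V` by `ι`: for each row `j` all the constraints of `R` whose signs are in the coset
`q + w j + M`. -/
noncomputable def inst {k m P : ℕ} {V : Type} (R : Set (Fin k → ZMod 2)) (q : Fin k → ZMod 2)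
    (M : Submodule (ZMod 2) (Fin k → ZMod 2)) (ι : Fin k × Fin P ↪ V) (f : Fin k → Fin m → Fin P)
    (w : Fin m → Fin k → ZMod 2) : Con (pred R) V → Bool :=
  fun t => decide (∃ j, ∃ l ∈ M, t = ⟨(), (fun c => ι (c, f c j), q + (w j + l))⟩)

/-- parity: the sum of the `k` entries is zero -/
def even (k : ℕ) : Set (Fin k → ZMod 2) := {x | ∑ j, x j = 0}

/-- the sum of the unit vectors of the variables of a constraint -/
def vec {k : ℕ} {R : Set (Fin k → ZMod 2)} {V : Type} [DecidableEq V] (t : Con (pred R) V) :
    V → ZMod 2 := ∑ c, Pi.single (t.2.1 c) 1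

/-- the sum of the signs of a constraint -/
def sg {k : ℕ} {R : Set (Fin k → ZMod 2)} {V : Type} (t : Con (pred R) V) : ZMod 2 :=
  ∑ c, t.2.2 c

/-- OR of the values of the wires with label `0` -/
def orB (A : Multiset (ℕ × Bool)) : Bool := decide ((0, true) ∈ A)

/-- AND of the values of the wires with label `0` -/
def andB (A : Multiset (ℕ × Bool)) : Bool := decide ((0, false) ∉ A)

/-- NOR of the values of the wires with label `0` -/
def norB (A : Multiset (ℕ × Bool)) : Bool := decide ((0, true) ∉ A)

end Pool.Agent.H5Ref
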