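import Pool.Agent.H5Ref.Stm3
import Pool.Agent.H5Ref.Dim2

/-!
# Piece DIM3: the dimension of the space of the right-hand sides with a potential on pairs,
for all densities
-/

set_option autoImplicit false

namespace Pool.Agent.H5Ref

open Module Pool.Agent.H5Sym Pool.Agent.H5Dich Pool.Agent.H5Lin

open Dim2 in
theorem dim3 (key : S_KEY) (subs : S_SUBS) : S_DIM3 := by
  classical
  intro V _ _ S m P n s z u hn hn0 hs hP hβ hlog
  obtain ⟨ι₀, hι₀⟩ := exists_info (pot S z u)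
  have hcard : Nat.card {b : Fin m → ZMod 2 // ∃ c : (V → ZMod 2) → (V → ZMod 2) → ZMod 2,
      ∀ j j', j ≠ j' → u j = u j' → ∀ y ∈ S, ∀ y' ∈ S, y + z j ∈ S → y' + z j' ∈ S →
        c (y + z j) (y' + z j') = c y y' + (b j + b j')} =
      2 ^ finrank (ZMod 2) (pot S z u) := by
    have h1 := Module.natCard_eq_pow_finrank (K := ZMod 2) (V := pot S z u)
    rw [Nat.card_zmod] at h1
    exact h1
  have hd : (finrank (ZMod 2) (pot S z u) : ℝ) ≤ (m : ℝ) / 2 := by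
    generalize finrank (ZMod 2) (pot S z u) = d at ι₀ hι₀
    by_contra hcon
    push Not at hcon
    have h2 : ∀ i : Fin d, ∃ Φ : (V → ZMod 2) → (V → ZMod 2) → ZMod 2,
        ∀ j j' : Fin d, j ≠ j' → u (ι₀ j) = u (ι₀ j') → ∀ y ∈ S, ∀ y' ∈ S,
          y + z (ι₀ j) ∈ S → y' + z (ι₀ j') ∈ S →
          Φ (y + z (ι₀ j)) (y' + z (ι₀ j')) =
            Φ y y' + ((if i = j then 1 else 0) + if i = j' then 1 else 0) := by
      intro i
      obtain ⟨b, ⟨c, hc⟩, hb⟩ := hι₀ fun j => if i = j then 1 else 0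
      refine ⟨c, fun j j' hj hu y hy y' hy' h1 h2 => ?_⟩
      rw [hc _ _ (fun h => hj (ι₀.injective h)) hu y hy y' hy' h1 h2, hb j, hb j']
    choose Φ hΦ using h2
    have hdR : (m : ℝ) < 2 * d := by linarith
    have hdN : m < 2 * d := by exact_mod_cast hdR
    have hsd : s ≤ d := by omega
    have hββ : bet S (fun j => z (ι₀ j)) (fun j => u (ι₀ j)) ≤ bet S z u := bet_le S z u ι₀
    obtain ⟨ι, hι⟩ := subs V S d s P (fun j => z (ι₀ j)) (fun j => u (ι₀ j)) hsd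
    change bet S (fun j => z (ι₀ (ι j))) (fun j => u (ι₀ (ι j))) * d ^ 2 ≤ _ at hι
    set β' : ℕ := bet S (fun j => z (ι₀ (ι j))) (fun j => u (ι₀ (ι j))) with hβ'
    have hd0N : 0 < d := by omega
    have h4β : 4 * β' ≤ s * n := by
      have h3 : m ^ 2 ≤ 4 * d ^ 2 := by
        calc m ^ 2 ≤ (2 * d) ^ 2 := Nat.pow_le_pow_left hdN.le 2
          _ = 4 * d ^ 2 := by ring
      have h4 : (4 * d ^ 2) * (4 * β') ≤ (4 * d ^ 2) * (s * n) := by
        calc (4 * d ^ 2) * (4 * β') = 16 * (β' * d ^ 2) := by ring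
          _ ≤ 16 * (s ^ 2 * bet S (fun j => z (ι₀ j)) (fun j => u (ι₀ j))) :=
            Nat.mul_le_mul_left 16 hι
          _ ≤ 16 * (s ^ 2 * bet S z u) := Nat.mul_le_mul_left 16 (Nat.mul_le_mul_left _ hββ)
          _ = s * (16 * s * bet S z u) := by ring
          _ ≤ s * (m ^ 2 * n) := Nat.mul_le_mul_left s hβ
          _ = m ^ 2 * (s * n) := by ring
          _ ≤ (4 * d ^ 2) * (s * n) := Nat.mul_le_mul_right _ h3
      exact Nat.le_of_mul_le_mul_left h4 (by positivity)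
    have h5 := key V S s P n (fun j => z (ι₀ (ι j))) (fun j => u (ι₀ (ι j))) (fun i => Φ (ι i))
      (fun j => hn _) (fun i j j' hj hu y hy y' hy' h1 h2 => by
        have h3 := hΦ (ι i) (ι j) (ι j') (fun h => hj (ι.injective h)) hu y hy y' hy' h1 h2
        simp only [ι.injective.eq_iff] at h3
        exact h3)
      (by omega)
    rw [← hβ'] at h5
    have h4R : 4 * (β' : ℝ) ≤ s * n := by exact_mod_cast h4β
    have hPR : 8 * (P : ℝ) ≤ s := by exact_mod_cast hP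
    have hn0R : (0 : ℝ) < n := by exact_mod_cast hn0
    have hs0 : (0 : ℝ) ≤ s := Nat.cast_nonneg s
    set lg : ℝ := Real.logb 2 S.card with hlg
    set T : ℝ := P * (S.card : ℝ) ^ 2 * lg with hT
    have h6 : ((s : ℝ) * n) ^ 2 / 4 ≤ 2 * T + P * s * n ^ 2 := by
      have e1 : (s : ℝ) * n / 2 ≤ s * n - 2 * β' := by linarith
      have e2 : 0 ≤ (s : ℝ) * n / 2 := by positivity
      have e3 : ((s : ℝ) * n / 2) ^ 2 ≤ (s * n - 2 * β') ^ 2 := pow_le_pow_left₀ e2 e1 2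
      have e4 : (P : ℝ) * (2 * S.card ^ 2 * lg + s * n ^ 2) = 2 * T + P * s * n ^ 2 := by
        rw [hT]; ring
      rw [e4] at h5
      calc ((s : ℝ) * n) ^ 2 / 4 = ((s : ℝ) * n / 2) ^ 2 := by ring
        _ ≤ _ := e3.trans h5
    have h7 : (P : ℝ) * (s : ℝ) * (n : ℝ) ^ 2 ≤ ((s : ℝ) * (n : ℝ)) ^ 2 / 8 := by
      have e1 : (P : ℝ) ≤ (s : ℝ) / 8 := by linarith
      have e2 : (0 : ℝ) ≤ (s : ℝ) * (n : ℝ) ^ 2 := by positivity
      have e3 := mul_le_mul_of_nonneg_right e1 e2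
      have e4 : (P : ℝ) * ((s : ℝ) * (n : ℝ) ^ 2) = (P : ℝ) * (s : ℝ) * (n : ℝ) ^ 2 := by ring
      have e5 : (s : ℝ) / 8 * ((s : ℝ) * (n : ℝ) ^ 2) = ((s : ℝ) * (n : ℝ)) ^ 2 / 8 := by ring
      rw [e4, e5] at e3
      exact e3
    have h8 : 16 * T < ((s : ℝ) * n) ^ 2 := by
      have e1 : 16 * T = 16 * P * (S.card : ℝ) ^ 2 * lg := by rw [hT]; ring
      have e2 : ((s : ℝ) * n) ^ 2 = (s : ℝ) ^ 2 * n ^ 2 := by ring
      rw [e1, e2]
      exact hlog
    linarith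
  rw [hcard, Nat.cast_pow, Nat.cast_two, ← Real.rpow_natCast]
  exact Real.rpow_le_rpow_of_exponent_le one_le_two hd

end Pool.Agent.H5Ref
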