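import Pool.Agent.H5Ref.Upper

/-!
# Predicates that contain a coset with large dual distance
-/

set_option autoImplicit false

namespace Pool.Agent.H5Ref

open Module Pool.Agent.H5Sym Pool.Agent.H5Dich Pool.Agent.H5Lin

theorem evenM_dist {k : ℕ} (g : Fin k → F2) (hg : g ≠ 0)
    (h : ∀ y ∈ evenM k, ∑ c, g c * y c = 0) : k ≤ {c | g c ≠ 0}.ncard := by
  obtain ⟨c₀, hc₀⟩ : ∃ c, g c ≠ 0 := by
    by_contra hcon
    push Not at hcon
    exact hg (funext hcon)
  have h1 : ∀ c, g c = g c₀ := by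
    intro c
    by_cases hcc : c = c₀
    · rw [hcc]
    have h2 := h (Pi.single c 1 + Pi.single c₀ 1) (by
      rw [mem_evenM]
      simp only [Pi.add_apply, Finset.sum_add_distrib, Finset.sum_pi_single', Finset.mem_univ,
        if_true]
      decide)
    simp only [Pi.add_apply, mul_add, Finset.sum_add_distrib] at h2
    have h3 : ∀ c, ∑ i, g i * (Pi.single c 1 : Fin k → F2) i = g c := by
      intro c
      rw [Finset.sum_eq_single c]
      · simp
      · intro b _ hb
        rw [Pi.single_eq_of_ne hb, mul_zero]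
      · intro hn
        exact absurd (Finset.mem_univ _) hn
    rw [h3, h3] at h2
    have h5 : ∀ a b : F2, a + b = 0 → a = b := by decide
    exact h5 _ _ h2
  have h2 : {c | g c ≠ 0} = Set.univ := by
    ext c
    simp only [Set.mem_setOf_eq, Set.mem_univ, iff_true]
    rw [h1]
    exact hc₀
  rw [h2, Set.ncard_univ, Nat.card_eq_fintype_card, Fintype.card_fin]

theorem coset_sat {k : ℕ} (q : Fin k → F2) (hq : ∑ j, q j = 1) (l : Fin k → F2)
    (hl : l ∈ evenM k) : q + l ∈ {x : Fin k → F2 | ∃ j, x j = 1} := by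
  by_contra hcon
  rw [Set.mem_ofPred_eq] at hcon
  push Not at hcon
  have h1 : ∀ j, (q + l) j = 0 := fun j => (F2.cases _).resolve_right (hcon j)
  have h2 : ∑ j, (q + l) j = 0 := Finset.sum_eq_zero fun j _ => h1 j
  simp only [Pi.add_apply, Finset.sum_add_distrib] at h2
  rw [hq, mem_evenM.1 hl, add_zero] at h2
  exact one_ne_zero h2

theorem coset_nae {k : ℕ} (hk : Even k) (q : Fin k → F2) (hq : ∑ j, q j = 1) (l : Fin k → F2)
    (hl : l ∈ evenM k) : q + l ∈ {x : Fin k → F2 | ∃ j j', x j ≠ x j'} := by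
  by_contra hcon
  rw [Set.mem_ofPred_eq] at hcon
  push Not at hcon
  have h2 : ∑ j, (q + l) j = 1 := by
    simp only [Pi.add_apply, Finset.sum_add_distrib]
    rw [hq, mem_evenM.1 hl, add_zero]
  rcases Nat.eq_zero_or_pos k with rfl | hk0
  · simp at h2
  have h3 : ∀ j, (q + l) j = (q + l) ⟨0, hk0⟩ := fun j => hcon j ⟨0, hk0⟩
  rw [Finset.sum_congr rfl fun j _ => h3 j, Finset.sum_const, Finset.card_univ, Fintype.card_fin,
    nsmul_eq_mul] at h2
  obtain ⟨r, rfl⟩ := hk
  push_cast at h2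
  rw [← two_mul, show (2 : F2) = 0 from rfl, zero_mul, zero_mul] at h2
  exact zero_ne_one h2

end Pool.Agent.H5Ref
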