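import Pool.Agent.H5Ref.Stm3

/-!
# Piece LFT: parity constraints implied by the constraints of an instance
-/

set_option autoImplicit false

namespace Pool.Agent.H5Ref

open Module Pool.Agent.H5Sym Pool.Agent.H5Dich Pool.Agent.H5Lin

theorem lft_true {k : ℕ} {R : Set (Fin k → ZMod 2)} {V : Type} {q : Fin k → ZMod 2}
    {φ : Con (pred R) V → Bool} {t : Con (pred (even k)) V} : lft q φ t = true ↔
    ∀ t' : Con (pred R) V, sco t' = sco t → sg t' = ∑ c, q c + sg t → φ t' = true := by
  classical
  rw [lft, decide_eq_true_iff]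

theorem lft_inst : S_LFTI := by
  intro k m P V R q ι f w
  funext t
  have z2 : ∀ a : ZMod 2, a + a = 0 := by decide
  have vz : ∀ a : Fin k → ZMod 2, a + a = 0 := fun a => funext fun c => z2 (a c)
  rw [Bool.eq_iff_iff, lft_true, inst_true]
  obtain ⟨⟨⟩, s, a⟩ := t
  change Fin k → V at s
  change Fin k → ZMod 2 at a
  constructor
  · intro h
    have h1 := h ⟨(), (s, q + a)⟩ rfl (by
      change ∑ c, (q + a) c = ∑ c, q c + ∑ c, a c
      simp only [Pi.add_apply, Finset.sum_add_distrib])
    obtain ⟨j, l, hl, he⟩ := inst_true.1 h1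
    refine ⟨j, l, hl, ?_⟩
    have h2 : (s, q + a) = ((fun c => ι (c, f c j), q + (w j + l)) :
        (Fin k → V) × (Fin k → ZMod 2)) := eq_of_heq (Sigma.mk.inj he).2
    have h3 := (Prod.mk.inj h2).1
    have h4 := add_left_cancel (Prod.mk.inj h2).2
    have h5 : (s, a) = ((fun c => ι (c, f c j), 0 + (w j + l)) :
        (Fin k → V) × (Fin k → ZMod 2)) := by rw [h3, h4, zero_add]
    exact congrArg (fun x : (Fin k → V) × (Fin k → ZMod 2) => (⟨(), x⟩ : Con (pred (even k)) V)) h5
  · rintro ⟨j, l, hl, he⟩ ⟨⟨⟩, s', a'⟩ h1 h2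
    change Fin k → V at s'
    change Fin k → ZMod 2 at a'
    have h3 : (s, a) = ((fun c => ι (c, f c j), 0 + (w j + l)) :
        (Fin k → V) × (Fin k → ZMod 2)) := eq_of_heq (Sigma.mk.inj he).2
    have h4 := (Prod.mk.inj h3).1
    have h5 := (Prod.mk.inj h3).2
    have h6 : s' = s := h1
    have h7 : ∑ c, a' c = ∑ c, q c + ∑ c, a c := h2
    refine inst_true.2 ⟨j, a' + q + w j, ?_, ?_⟩
    · rw [mem_evenM] at hl ⊢
      simp only [Pi.add_apply, Finset.sum_add_distrib]
      rw [h7, h5]
      simp only [Pi.add_apply, Finset.sum_add_distrib, Pi.zero_apply, Finset.sum_const_zero]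
      rw [hl]
      linear_combination z2 (∑ c, q c) + z2 (∑ c, w j c)
    · have h8 : (s', a') = ((fun c => ι (c, f c j), q + (w j + (a' + q + w j))) :
          (Fin k → V) × (Fin k → ZMod 2)) := by
        rw [h6, h4]
        refine Prod.ext rfl ?_
        change a' = q + (w j + (a' + q + w j))
        linear_combination -(vz q) - vz (w j)
      exact congrArg (fun x : (Fin k → V) × (Fin k → ZMod 2) => (⟨(), x⟩ : Con (pred R) V)) h8

theorem lft_sol : S_LFTS := by
  intro k V R q hR hq φ ⟨x, hx⟩
  refine ⟨x, fun t ht => ?_⟩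
  have ht' := lft_true.1 ht
  obtain ⟨⟨⟩, s, a⟩ := t
  change Fin k → V at s
  change Fin k → ZMod 2 at a
  change ∑ c, (x (s c) + a c) = 0
  rcases F2.cases (∑ c, (x (s c) + a c)) with h0 | h0
  · exact h0
  · exfalso
    apply hR
    refine Set.eq_univ_of_forall fun v => ?_
    have z2 : ∀ a : ZMod 2, a + a = 0 := by decide
    rcases F2.cases (∑ c, v c + ∑ c, q c) with h1 | h1
    · have h2 := hq (v + q) (by
        rw [mem_evenM]
        simp only [Pi.add_apply, Finset.sum_add_distrib]
        exact h1)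
      have h3 : q + (v + q) = v := by
        funext c
        simp only [Pi.add_apply]
        linear_combination z2 (q c)
      rwa [h3] at h2
    · have h2 := ht' ⟨(), (s, fun c => v c + x (s c))⟩ rfl (by
        change ∑ c, (v c + x (s c)) = ∑ c, q c + ∑ c, a c
        rw [Finset.sum_add_distrib] at h0 ⊢
        linear_combination h1 - h0 - z2 (∑ c, q c) + z2 (∑ c, x (s c)))
      have h3 : (fun c => x (s c) + (v c + x (s c))) ∈ R := hx _ h2
      have h4 : (fun c => x (s c) + (v c + x (s c))) = v := by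
        funext c
        linear_combination z2 (x (s c))
      rwa [h4] at h3

end Pool.Agent.H5Ref
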