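import Pool.Agent.H5Ref.Stm3
import Pool.Agent.H5Ref.Lft
import Pool.Agent.H5Ref.Clean2

/-!
# The upper bound in the final form
-/

set_option autoImplicit false

namespace Pool.Agent.H5Ref

open Module Pool.Agent.H5Sym Pool.Agent.H5Dich Pool.Agent.H5Lin

theorem markovG {Ω : Type} [Fintype Ω] (g : Ω → ℕ) (c K : ℕ) :
    Nat.card {ω : Ω // ¬ c * g ω ≤ K} * K ≤ c * ∑ ω, g ω := by
  classical
  have h0 : Nat.card {ω : Ω // ¬ c * g ω ≤ K} = (Finset.univ.filter fun ω => ¬ c * g ω ≤ K).card :=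
    Nat.subtype_card _ fun ω => by simp
  rw [h0]
  calc (Finset.univ.filter fun ω => ¬ c * g ω ≤ K).card * K =
        ∑ ω ∈ (Finset.univ.filter fun ω => ¬ c * g ω ≤ K), K := by
          rw [Finset.sum_const, smul_eq_mul]
    _ ≤ ∑ ω ∈ (Finset.univ.filter fun ω => ¬ c * g ω ≤ K), c * g ω :=
        Finset.sum_le_sum fun ω hω => (not_le.1 (Finset.mem_filter.1 hω).2).le
    _ ≤ ∑ ω, c * g ω :=
        Finset.sum_le_sum_of_subset_of_nonneg (Finset.subset_univ _) fun _ _ _ => Nat.zero_le _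
    _ = _ := by rw [Finset.mul_sum]

theorem bad_arith3 {b m n s P N D T h k lam : ℕ} (hm : 0 < m) (hn : 0 < n) (hP : 0 < P)
    (h2 : b * (m ^ 2 * n) ≤ 16 * s * T) (h1 : T * P ^ (2 * (2 * h) + 1) ≤ m ^ 2 * N * D ^ 2 * k)
    (hND : N * D = n * P ^ (2 * h)) (h5 : lam * (16 * s * D) ≤ P ^ (2 * h + 1)) :
    lam * b ≤ k := by
  have h3 : b * P ^ (2 * h + 1) ≤ 16 * s * D * k := by
    have h4 : (b * P ^ (2 * h + 1)) * (m ^ 2 * n * P ^ (2 * h)) ≤
        (16 * s * D * k) * (m ^ 2 * n * P ^ (2 * h)) := by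
      have e : P ^ (2 * (2 * h) + 1) = P ^ (2 * h + 1) * P ^ (2 * h) := by
        rw [← pow_add]
        congr 1
        omega
      calc (b * P ^ (2 * h + 1)) * (m ^ 2 * n * P ^ (2 * h)) =
            (b * (m ^ 2 * n)) * P ^ (2 * (2 * h) + 1) := by rw [e]; ring
        _ ≤ (16 * s * T) * P ^ (2 * (2 * h) + 1) := Nat.mul_le_mul_right _ h2
        _ = 16 * s * (T * P ^ (2 * (2 * h) + 1)) := by rw [mul_assoc]
        _ ≤ 16 * s * (m ^ 2 * N * D ^ 2 * k) := Nat.mul_le_mul_left _ h1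
        _ = 16 * s * m ^ 2 * (N * D) * D * k := by ring
        _ = 16 * s * m ^ 2 * (n * P ^ (2 * h)) * D * k := by rw [hND]
        _ = _ := by ring
    exact Nat.le_of_mul_le_mul_right h4 (by positivity)
  have h8 : (lam * b) * P ^ (2 * h + 1) ≤ k * P ^ (2 * h + 1) := by
    calc (lam * b) * P ^ (2 * h + 1) = lam * (b * P ^ (2 * h + 1)) := mul_assoc _ _ _
      _ ≤ lam * (16 * s * D * k) := Nat.mul_le_mul_left _ h3
      _ = (lam * (16 * s * D)) * k := by ring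
      _ ≤ P ^ (2 * h + 1) * k := Nat.mul_le_mul_right _ h5
      _ = _ := mul_comm _ _
  exact Nat.le_of_mul_le_mul_right h8 (by positivity)

/-- few scopes have many coincidences -/
theorem bad3 (hBETA : S_BETA) {h P l m s lam : ℕ} (hl : 1 ≤ l) (hP : 2 * l ≤ P) (hm : 0 < m)
    (S : Finset (Fin (2 * h) × Fin P → ZMod 2)) (hS1 : S.card = levN h P l)
    (hS3 : ∀ y ∈ S, Nat.card {i : Fin (2 * h) → Fin P // y + uz i ∈ S} = ((P - l) * (l + 1)) ^ h)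
    (hlam : lam * (16 * s * ((P - l) * (l + 1)) ^ h) ≤ P ^ (2 * h + 1)) :
    lam * Nat.card {f : Fin (2 * h + 1) → Fin m → Fin P //
      ¬ 16 * s * bet S (fun j => uz fun c => f c.succ j) (f 0) ≤ m ^ 2 * levE h P l} ≤
      P ^ ((2 * h + 1) * m) := by
  have h1 := hBETA (2 * h) P m (((P - l) * (l + 1)) ^ h) S hS3
  have hn0 : 0 < levE h P l := levE_pos (by omega)
  have h2 := markovG (fun f : Fin (2 * h + 1) → Fin m → Fin P =>
    bet S (fun j => uz fun c => f c.succ j) (f 0)) (16 * s) (m ^ 2 * levE h P l)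
  rw [hS1] at h1
  exact bad_arith3 hm hn0 (by omega) h2 h1 (levE_mul (by omega)) hlam

/-- the choice of the number of rows -/
theorem dens3 {h P l m : ℕ} (hh : 1 ≤ h) (hl : 1 ≤ l) (hP : 2 * l ≤ P)
    (hm : (10 * (2 * h + 1 : ℕ) * l * Real.logb 2 P) ^ 2 * (2 * P / l : ℝ) ^ (2 * h + 1) ≤
      (m : ℝ) ^ 2) :
    ∃ s : ℕ, 2 * s ≤ m ∧ 8 * P ≤ s ∧
      16 * P * (levN h P l : ℝ) ^ 2 * Real.logb 2 (levN h P l) < (s : ℝ) ^ 2 * (levE h P l : ℝ) ^ 2 ∧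
      ∀ lam : ℕ, 3200 * ((2 * h + 1 : ℕ) * lam * Real.logb 2 P) ^ 2 * 4 ^ (2 * h + 1) * l ≤ P →
        lam * (16 * s * ((P - l) * (l + 1)) ^ h) ≤ P ^ (2 * h + 1) := by
  have hl0 : (0 : ℝ) < l := by exact_mod_cast hl
  have hl1 : (1 : ℝ) ≤ l := by exact_mod_cast hl
  have hh1 : (1 : ℝ) ≤ h := by exact_mod_cast hh
  have hP2 : (2 * l : ℝ) ≤ P := by exact_mod_cast hP
  have hP0 : (0 : ℝ) < P := by linarith
  have hlog : 1 ≤ Real.logb 2 P := by
    rw [Real.le_logb_iff_rpow_le one_lt_two hP0, Real.rpow_one]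
    linarith
  have hr : (2 : ℝ) ≤ P / l := by rw [le_div_iff₀ hl0]; linarith
  -- the common expression
  set X : ℝ := 4 ^ h * (P / l : ℝ) ^ (2 * h) * (P * l) with hX
  have hM : (10 * (2 * h + 1 : ℕ) * l * Real.logb 2 P) ^ 2 * (2 * P / l : ℝ) ^ (2 * h + 1) =
      200 * (2 * h + 1 : ℕ) ^ 2 * Real.logb 2 P ^ 2 * X := by
    rw [hX, mul_div_assoc, pow_succ (2 * (P / l : ℝ)), mul_pow 2 (P / l : ℝ) (2 * h),
      pow_mul (2 : ℝ) 2 h]
    norm_num
    field_simp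
    ring
  rw [hM] at hm
  have hX0 : 0 < X := by positivity
  have hXP : 8 * (P : ℝ) ^ 2 ≤ X := by
    have h1 : (P / l : ℝ) ^ 2 ≤ (P / l : ℝ) ^ (2 * h) :=
      pow_le_pow_right₀ (by linarith) (by omega)
    have h2 : (4 : ℝ) ≤ 4 ^ h := by
      calc (4 : ℝ) = 4 ^ 1 := (pow_one _).symm
        _ ≤ 4 ^ h := pow_le_pow_right₀ (by norm_num) hh
    calc 8 * (P : ℝ) ^ 2 ≤ 4 * (P / l : ℝ) ^ 2 * (P * l) := by
          have e : 4 * (P / l : ℝ) ^ 2 * (P * l) = 4 * P ^ 2 * (P / l) := by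
            field_simp
          rw [e]
          have : (4 : ℝ) * P ^ 2 * 2 ≤ 4 * P ^ 2 * (P / l) :=
            mul_le_mul_of_nonneg_left hr (by positivity)
          linarith
      _ ≤ _ := by rw [hX]; gcongr
  set K : ℝ := ((2 * h + 1 : ℕ) : ℝ) with hK
  have hK2 : 8 * (h : ℝ) ≤ K ^ 2 := by
    rw [hK]; push_cast; nlinarith
  have hK3 : (3 : ℝ) ≤ K := by
    rw [hK]; push_cast; linarith
  set r : ℝ := Real.sqrt (200 * K ^ 2 * Real.logb 2 P ^ 2 * X) with hrdef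
  have hr2 : r ^ 2 = 200 * K ^ 2 * Real.logb 2 P ^ 2 * X := Real.sq_sqrt (by positivity)
  have hr0 : 0 ≤ r := Real.sqrt_nonneg _
  have hrm : r ≤ m := by
    have h4 := abs_le_of_sq_le_sq' (hr2.trans_le hm) (Nat.cast_nonneg _)
    exact h4.2
  have hrP : 32 * (P : ℝ) ≤ r := by
    have h5 : (32 * (P : ℝ)) ^ 2 ≤ r ^ 2 := by
      rw [hr2]
      calc (32 * (P : ℝ)) ^ 2 ≤ 200 * 3 ^ 2 * 1 ^ 2 * (8 * (P : ℝ) ^ 2) := by nlinarith [sq_nonneg (P : ℝ)]
        _ ≤ 200 * K ^ 2 * Real.logb 2 P ^ 2 * X := by gcongr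
    exact (abs_le_of_sq_le_sq' h5 hr0).2
  have hs1 : ((⌊r / 2⌋₊ : ℕ) : ℝ) ≤ r / 2 := Nat.floor_le (by positivity)
  have hs2 : r / 2 < (⌊r / 2⌋₊ : ℕ) + 1 := Nat.lt_floor_add_one _
  have hs3 : r / 4 < ((⌊r / 2⌋₊ : ℕ) : ℝ) := by
    have : (2 : ℝ) ≤ P := by linarith
    linarith
  refine ⟨⌊r / 2⌋₊, ?_, ?_, ?_, ?_⟩
  · have : ((2 * ⌊r / 2⌋₊ : ℕ) : ℝ) ≤ (m : ℝ) := by
      push_cast
      linarith
    exact_mod_cast this
  · have : ((8 * P : ℕ) : ℝ) ≤ ((⌊r / 2⌋₊ : ℕ) : ℝ) := by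
      push_cast
      linarith
    exact_mod_cast this
  · have h1 := log_levN hh hl hP
    have h2 := levE_sq (h := h) hl hP
    have hn0 : (0 : ℝ) < levE h P l := by exact_mod_cast levE_pos (h := h) (by omega : l < P)
    have h5 : (0 : ℝ) ≤ Real.logb 2 (levN h P l) :=
      Real.logb_nonneg one_lt_two (by exact_mod_cast levN_pos (h := h) (by omega : l < P))
    have h6 : 16 * (16 * P * (levN h P l : ℝ) ^ 2 * Real.logb 2 (levN h P l)) ≤
        r ^ 2 * (levE h P l : ℝ) ^ 2 := by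
      calc 16 * (16 * P * (levN h P l : ℝ) ^ 2 * Real.logb 2 (levN h P l)) ≤
            16 * (16 * P * (4 ^ h * (P / l : ℝ) ^ (2 * h) * (levE h P l : ℝ) ^ 2) *
              (5 * h * l * Real.logb 2 P)) := by gcongr
        _ = 160 * (8 * h) * Real.logb 2 P * X * (levE h P l : ℝ) ^ 2 := by rw [hX]; ring
        _ ≤ 200 * K ^ 2 * Real.logb 2 P ^ 2 * X * (levE h P l : ℝ) ^ 2 := by
            have h7 : Real.logb 2 P ≤ Real.logb 2 P ^ 2 := by nlinarith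
            gcongr
            norm_num
        _ = r ^ 2 * (levE h P l : ℝ) ^ 2 := by rw [hr2]
    have h8 : r ^ 2 < 16 * ((⌊r / 2⌋₊ : ℕ) : ℝ) ^ 2 := by
      have h9 : r < 4 * ((⌊r / 2⌋₊ : ℕ) : ℝ) := by linarith
      calc r ^ 2 < (4 * ((⌊r / 2⌋₊ : ℕ) : ℝ)) ^ 2 := pow_lt_pow_left₀ h9 hr0 two_ne_zero
        _ = _ := by ring
    have h10 : r ^ 2 * (levE h P l : ℝ) ^ 2 <
        16 * ((⌊r / 2⌋₊ : ℕ) : ℝ) ^ 2 * (levE h P l : ℝ) ^ 2 :=
      mul_lt_mul_of_pos_right h8 (by positivity)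
    linarith
  · intro lam hlam
    have hDle : ((P - l) * (l + 1)) ^ h ≤ (2 * P * l) ^ h := by
      refine Nat.pow_le_pow_left ?_ h
      calc (P - l) * (l + 1) ≤ P * (2 * l) := Nat.mul_le_mul (Nat.sub_le _ _) (by omega)
        _ = 2 * P * l := by ring
    refine (Nat.mul_le_mul_left _ (Nat.mul_le_mul_left _ hDle)).trans ?_
    have h6 : ((lam * (16 * ⌊r / 2⌋₊ * (2 * P * l) ^ h) : ℕ) : ℝ) ≤ ((P ^ (2 * h + 1) : ℕ) : ℝ) := by
      push_cast
      have h7 : (lam : ℝ) * (16 * (⌊r / 2⌋₊ : ℕ) * (2 * P * l) ^ h) ≤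
          8 * r * lam * (2 * P * l) ^ h := by
        calc (lam : ℝ) * (16 * (⌊r / 2⌋₊ : ℕ) * (2 * P * l) ^ h) ≤
              lam * (16 * (r / 2) * (2 * P * l) ^ h) := by gcongr
          _ = _ := by ring
      refine h7.trans ?_
      have h8 : (8 * r * lam * (2 * P * l : ℝ) ^ h) ^ 2 ≤ ((P : ℝ) ^ (2 * h + 1)) ^ 2 := by
        calc (8 * r * lam * (2 * P * l : ℝ) ^ h) ^ 2 = 64 * r ^ 2 * lam ^ 2 * ((2 * P * l : ℝ) ^ h) ^ 2 := by
              ring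
          _ = (3200 * (K * lam * Real.logb 2 P) ^ 2 * 4 ^ (2 * h + 1) * l) *
              (P * (P ^ (2 * h)) ^ 2) := by
              rw [hr2, hX, pow_succ (4 : ℝ) (2 * h), ← pow_mul, mul_comm h 2, mul_pow, mul_pow,
                div_pow, pow_mul (2 : ℝ) 2 h, pow_mul (4 : ℝ) 2 h]
              norm_num
              field_simp
              have e4 : ((16 : ℝ)) ^ h = 4 ^ h * 4 ^ h := by rw [← mul_pow]; norm_num
              rw [e4]
              ring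
          _ ≤ P * (P * (P ^ (2 * h)) ^ 2) := mul_le_mul_of_nonneg_right hlam (by positivity)
          _ = _ := by rw [pow_succ (P : ℝ) (2 * h)]; ring
      exact (abs_le_of_sq_le_sq' h8 (by positivity)).2
    exact_mod_cast h6

end Pool.Agent.H5Ref
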