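import Pool.Agent.H5Ref.Final

/-!
# The upper bound in the final form: assembly
-/

set_option autoImplicit false

namespace Pool.Agent.H5Ref

open Module Pool.Agent.H5Sym Pool.Agent.H5Dich Pool.Agent.H5Lin

/-- the number of the right-hand sides with a potential -/
theorem count3 (hDIM : S_DIM3) {h P l m s : ℕ} (hl : l < P)
    (S : Finset (Fin (2 * h) × Fin P → ZMod 2)) (hS1 : S.card = levN h P l)
    (hS2 : ∀ i : Fin (2 * h) → Fin P, Nat.card {y // y ∈ S ∧ y + uz i ∈ S} = levE h P l)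
    (f : Fin (2 * h + 1) → Fin m → Fin P) (hs1 : 2 * s ≤ m) (hs2 : 8 * P ≤ s)
    (hs3 : 16 * P * (levN h P l : ℝ) ^ 2 * Real.logb 2 (levN h P l) <
      (s : ℝ) ^ 2 * (levE h P l : ℝ) ^ 2)
    (hb : 16 * s * bet S (fun j => uz fun c => f c.succ j) (f 0) ≤ m ^ 2 * levE h P l)
    (Acc : (Fin m → Fin (2 * h + 1) → F2) → Prop)
    (hacc : ∀ w, Acc w →
      ∃ c : (Fin (2 * h) × Fin P → ZMod 2) → (Fin (2 * h) × Fin P → ZMod 2) → ZMod 2,
        ∀ j j', j ≠ j' → f 0 j = f 0 j' → ∀ y ∈ S, ∀ y' ∈ S,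
          y + (uz fun c => f c.succ j) ∈ S → y' + (uz fun c => f c.succ j') ∈ S →
          c (y + uz fun c => f c.succ j) (y' + uz fun c => f c.succ j') =
            c y y' + (∑ i, w j i + ∑ i, w j' i)) :
    (Nat.card {w // Acc w} : ℝ) ≤ 2 ^ (-(m : ℝ) / 2) * (2 ^ (2 * h + 1)) ^ m := by
  classical
  have h1 := hDIM (Fin (2 * h) × Fin P) S m P (levE h P l) s (fun j => uz fun c => f c.succ j) (f 0)
    (fun j => hS2 _) (levE_pos hl) hs1 hs2 hb (by rw [hS1]; exact hs3)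
  set A := {b : Fin m → ZMod 2 // ∃ c : (Fin (2 * h) × Fin P → ZMod 2) →
    (Fin (2 * h) × Fin P → ZMod 2) → ZMod 2,
    ∀ j j', j ≠ j' → f 0 j = f 0 j' → ∀ y ∈ S, ∀ y' ∈ S,
      y + (uz fun c => f c.succ j) ∈ S → y' + (uz fun c => f c.succ j') ∈ S →
      c (y + uz fun c => f c.succ j) (y' + uz fun c => f c.succ j') = c y y' + (b j + b j')} with hA
  have hinj : Nat.card {w // Acc w} ≤ Nat.card (A × (Fin m → Fin (2 * h) → F2)) := by
    refine Nat.card_le_card_of_injective (fun w => (⟨fun j => ∑ i, w.1 j i, hacc w.1 w.2⟩,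
      fun j i => w.1 j i.castSucc)) ?_
    intro w w' hww
    refine Subtype.ext (funext fun j => funext fun i => ?_)
    have e1 := congrFun (congrArg Subtype.val (congrArg Prod.fst hww)) j
    have e2 := congrFun (congrArg Prod.snd hww) j
    dsimp only at e1 e2
    have e5 : ∀ i : Fin (2 * h), w.1 j i.castSucc = w'.1 j i.castSucc := fun i => congrFun e2 i
    rw [Fin.sum_univ_castSucc, Fin.sum_univ_castSucc] at e1
    simp only [e5] at e1
    have e6 := add_left_cancel e1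
    exact Fin.lastCases (motive := fun i => w.1 j i = w'.1 j i) e6 e5 i
  have hcard : (Nat.card (A × (Fin m → Fin (2 * h) → F2)) : ℝ) =
      Nat.card A * (2 ^ (2 * h)) ^ m := by
    rw [Nat.card_prod, Nat.card_eq_fintype_card (α := Fin m → Fin (2 * h) → F2), Fintype.card_fun,
      Fintype.card_fun, ZMod.card, Fintype.card_fin, Fintype.card_fin]
    push_cast
    rfl
  have h4 : (Nat.card {w // Acc w} : ℝ) ≤ Nat.card A * (2 ^ (2 * h)) ^ m := by
    rw [← hcard]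
    exact_mod_cast hinj
  refine h4.trans ((mul_le_mul_of_nonneg_right h1 (by positivity)).trans (le_of_eq ?_))
  rw [pow_succ (2 : ℝ) (2 * h), mul_pow ((2 : ℝ) ^ (2 * h)) (2 : ℝ) m, ← Real.rpow_natCast (2 : ℝ) m,
    mul_comm (((2 : ℝ) ^ (2 * h)) ^ m), ← mul_assoc, ← Real.rpow_add two_pos]
  congr 2
  ring

/-- **The upper bound for odd arity and all densities.** -/
theorem upperOdd3 (hDIM : S_DIM3) (h P l : ℕ) (hh : 1 ≤ h) (hl : 1 ≤ l) (hP : 2 * l ≤ P) :
    ∃ C : LCircuit.{0, 0} (Con (pred (even (2 * h + 1))) (Fin (2 * h + 1) × Fin P)) Bool,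
      Nonempty (C.Action fun u : Fin (2 * h + 1) × Fin P → ZMod 2 => flipC u) ∧ Finite C.Gate ∧
      (∀ g, (∃ t, C.label g = .input t) ∨ C.label g = .sym orB ∨ C.label g = .sym andB ∨
        C.label g = .sym norB) ∧
      C.size ≤ P ^ (60 * h ^ 2 * l) ∧
      (∀ φ, (sol (ones φ)).Nonempty → C.eval φ C.out = true) ∧
      ∀ m lam : ℕ, (10 * (2 * h + 1 : ℕ) * l * Real.logb 2 P) ^ 2 * (2 * P / l : ℝ) ^ (2 * h + 1) ≤
          (m : ℝ) ^ 2 →
        3200 * ((2 * h + 1 : ℕ) * lam * Real.logb 2 P) ^ 2 * 4 ^ (2 * h + 1) * l ≤ P →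
        lam * Nat.card {f : Fin (2 * h + 1) → Fin m → Fin P //
          2 ^ (-(m : ℝ) / 2) * (2 ^ (2 * h + 1)) ^ m < (Nat.card {w //
            C.eval (inst (even (2 * h + 1)) 0 (evenM (2 * h + 1)) (.refl _) f w) C.out = true} : ℝ)} ≤
          P ^ ((2 * h + 1) * m) := by
  classical
  obtain ⟨S, hS1, hS2, hS3⟩ := lev2 h P l (by omega)
  let S' : Finset (Fin (2 * h + 1) × Fin P → ZMod 2) := S.map ⟨emb, emb_inj⟩
  have hS' : ∀ y, emb y ∈ S' ↔ y ∈ S := fun y => by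
    simp only [S', Finset.mem_map, Function.Embedding.coeFn_mk]
    exact ⟨fun ⟨w, hw, he⟩ => emb_inj he ▸ hw, fun hy => ⟨y, hy, rfl⟩⟩
  have hSc : S'.card = levN h P l := by rw [Finset.card_map]; exact hS1
  obtain ⟨C, hact, hfin, hlab, hsize, heval⟩ := circ2 (2 * h) (Fin (2 * h + 1) × Fin P) S'
  refine ⟨C, hact, hfin, hlab, ?_, ?_, ?_⟩
  · rw [hSc, Fintype.card_prod, Fintype.card_fin, Fintype.card_fin] at hsize
    exact hsize.trans (size_odd hh hl (by omega))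
  · rintro φ ⟨x, hx⟩
    have key : ∀ t, φ t = true → ∑ v, x v * (vec1 t) v = x (rt t) + sg t := by
      intro t ht
      have h1 : ∑ c : Fin (2 * h + 1), (x (t.2.1 c) + t.2.2 c) = 0 := hx t ht
      have h2 : ∑ v, x v * (vec1 t) v = ∑ c : Fin (2 * h), x (t.2.1 c.succ) :=
        vec_add_single x fun c : Fin (2 * h) => t.2.1 c.succ
      rw [h2]
      rw [Finset.sum_add_distrib, Fin.sum_univ_succ] at h1
      have h5 : ∀ a b c : F2, a + b + c = 0 → b = a + c := by decide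
      exact h5 _ _ _ h1
    refine (heval φ).2 ⟨fun y y' => ∑ v, x v * y v + ∑ v, x v * y' v,
      fun t t' ht ht' hr y _ y' _ _ _ => ?_⟩
    have h3 : ∀ y w : Fin (2 * h + 1) × Fin P → ZMod 2,
        ∑ v, x v * (y + w) v = ∑ v, x v * y v + ∑ v, x v * w v := fun y w => by
      simp only [Pi.add_apply, mul_add, Finset.sum_add_distrib]
    change ∑ v, x v * (y + vec1 t) v + ∑ v, x v * (y' + vec1 t') v =
      ∑ v, x v * y v + ∑ v, x v * y' v + (sg t + sg t')
    rw [h3, h3, key t ht, key t' ht', hr]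
    have h6 : ∀ a b c d e : F2, a + (e + b) + (c + (e + d)) = a + c + (b + d) := by decide
    exact h6 _ _ _ _ _
  · intro m lam hm hlam
    obtain ⟨s, hs1, hs2, hs3, hs4⟩ := dens3 hh hl hP hm
    have hbad := bad3 beta (m := m) (s := s) (lam := lam) hl hP (by omega) S hS1 hS3 (hs4 lam hlam)
    have hgood : ∀ f : Fin (2 * h + 1) → Fin m → Fin P,
        16 * s * bet S (fun j => uz fun c => f c.succ j) (f 0) ≤ m ^ 2 * levE h P l →
        (Nat.card {w // C.eval (inst (even (2 * h + 1)) 0 (evenM (2 * h + 1)) (.refl _) f w)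
          C.out = true} : ℝ) ≤ 2 ^ (-(m : ℝ) / 2) * (2 ^ (2 * h + 1)) ^ m := ?_
    · refine le_trans (Nat.mul_le_mul_left _ ?_) hbad
      exact Nat.card_le_card_of_injective
        (fun f => (⟨f.1, fun hb => absurd f.2 (not_lt.2 (hgood f.1 hb))⟩ :
          {f : Fin (2 * h + 1) → Fin m → Fin P //
            ¬ 16 * s * bet S (fun j => uz fun c => f c.succ j) (f 0) ≤ m ^ 2 * levE h P l}))
        (fun f f' hff => Subtype.ext (congrArg (fun q => q.1) hff))
    intro f hb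
    refine count3 hDIM (by omega) S hS1 hS2 f hs1 hs2 hs3 hb _ fun w hw => ?_
    obtain ⟨c, hc⟩ := (heval _).1 hw
    refine ⟨fun y y' => c (emb y) (emb y'), fun j j' _ hr y hy y' hy' hz hz' => ?_⟩
    let t : Fin m → Con (pred (even (2 * h + 1))) (Fin (2 * h + 1) × Fin P) := fun j =>
      ⟨(), (fun i : Fin (2 * h + 1) => (i, f i j),
        ((0 : Fin (2 * h + 1) → F2) + (w j + (0 : Fin (2 * h + 1) → F2)) : Fin (2 * h + 1) → F2))⟩
    have ht : ∀ j, inst (even (2 * h + 1)) 0 (evenM (2 * h + 1)) (.refl _) f w (t j) = true :=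
      fun j => inst_true.2 ⟨j, 0, (evenM (2 * h + 1)).zero_mem, rfl⟩
    have hsg : ∀ j, sg (t j) = ∑ i, w j i := by
      intro j
      change ∑ i : Fin (2 * h + 1), ((0 : Fin (2 * h + 1) → F2) +
        (w j + (0 : Fin (2 * h + 1) → F2))) i = _
      rw [zero_add, add_zero]
    have hvec : ∀ j, vec1 (t j) = emb (uz fun c => f c.succ j) := by
      intro j
      rw [emb_uz]
      rfl
    have h2 := hc (t j) (t j') (ht j) (ht j') (by
      change ((0 : Fin (2 * h + 1)), f 0 j) = (0, f 0 j')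
      rw [hr]) (emb y) ((hS' y).2 hy) (emb y') ((hS' y').2 hy')
      (by rw [hvec, ← emb_add]; exact (hS' _).2 hz) (by rw [hvec, ← emb_add]; exact (hS' _).2 hz')
    rw [hvec, hvec, ← emb_add, ← emb_add, hsg, hsg] at h2
    exact h2

/-- the size with the layer of AND gates -/
theorem size_all {k P l : ℕ} (hk : 2 ≤ k) (hl : 1 ≤ l) (hP : 2 ≤ P) {s : ℕ}
    (hs : s ≤ P ^ (15 * k ^ 2 * l)) : (2 * (k * P)) ^ k + s ≤ P ^ (20 * k ^ 2 * l) := by
  have hP1 : 1 ≤ P := by omega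
  have hk2 : 2 * k ≤ P ^ k := by
    refine le_trans ?_ (Nat.pow_le_pow_left hP k)
    obtain ⟨j, rfl⟩ : ∃ j, k = j + 2 := ⟨k - 2, by omega⟩
    clear hs hk
    induction j with
    | zero => norm_num
    | succ j ih =>
      calc 2 * (j + 1 + 2) ≤ 2 * (2 * (j + 2)) := by omega
        _ ≤ 2 * 2 ^ (j + 2) := Nat.mul_le_mul_left _ ih
        _ = 2 ^ (j + 1 + 2) := by ring
  have h1 : (2 * (k * P)) ^ k ≤ P ^ (15 * k ^ 2 * l) := by
    calc (2 * (k * P)) ^ k = (2 * k * P) ^ k := by rw [mul_assoc]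
      _ ≤ (P ^ k * P) ^ k := Nat.pow_le_pow_left (Nat.mul_le_mul_right _ hk2) _
      _ = P ^ ((k + 1) * k) := by rw [← pow_succ, ← pow_mul]
      _ ≤ P ^ (15 * k ^ 2 * l) := by
          refine Nat.pow_le_pow_right hP1 ?_
          have : k ^ 2 * 1 ≤ k ^ 2 * l := Nat.mul_le_mul_left _ hl
          nlinarith
  calc (2 * (k * P)) ^ k + s ≤ P ^ (15 * k ^ 2 * l) + P ^ (15 * k ^ 2 * l) := Nat.add_le_add h1 hs
    _ = 2 * P ^ (15 * k ^ 2 * l) := by ring
    _ ≤ P * P ^ (15 * k ^ 2 * l) := Nat.mul_le_mul_right _ hP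
    _ = P ^ (15 * k ^ 2 * l + 1) := by rw [pow_succ P (15 * k ^ 2 * l), mul_comm]
    _ ≤ P ^ (20 * k ^ 2 * l) := by
        refine Nat.pow_le_pow_right hP1 ?_
        have : 1 * 1 ≤ k ^ 2 * l := Nat.mul_le_mul (Nat.one_le_pow _ _ (by omega)) hl
        nlinarith

/-- **The upper bound for parities, all arities.** -/
theorem upperEven (hDIM : S_DIM3) (k P l : ℕ) (hk : 2 ≤ k) (hl : 1 ≤ l) (hP : 2 * l ≤ P) :
    ∃ C : LCircuit.{0, 0} (Con (pred (even k)) (Fin k × Fin P)) Bool,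
      Nonempty (C.Action fun u : Fin k × Fin P → ZMod 2 => flipC u) ∧ Finite C.Gate ∧
      (∀ g, (∃ t, C.label g = .input t) ∨ C.label g = .sym orB ∨ C.label g = .sym andB ∨
        C.label g = .sym norB) ∧
      C.size ≤ P ^ (15 * k ^ 2 * l) ∧
      (∀ φ, (sol (ones φ)).Nonempty → C.eval φ C.out = true) ∧
      ∀ m lam : ℕ, (10 * k * l * Real.logb 2 P) ^ 2 * (2 * P / l : ℝ) ^ k ≤ (m : ℝ) ^ 2 →
        (Even k ∨ 3200 * (k * lam * Real.logb 2 P) ^ 2 * 4 ^ k * l ≤ P) →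
        lam * Nat.card {f : Fin k → Fin m → Fin P //
          2 ^ (-(m : ℝ) / 2) * (2 ^ k) ^ m < (Nat.card {w //
            C.eval (inst (even k) 0 (evenM k) (.refl _) f w) C.out = true} : ℝ)} ≤ P ^ (k * m) := by
  rcases Nat.even_or_odd' k with ⟨h, rfl | rfl⟩
  · obtain ⟨C, h1, h2, h3, h4, h5, h6⟩ := upperC h P l (by omega) hl hP
    refine ⟨C, h1, h2, h3, h4.trans (Nat.pow_le_pow_right (by omega) ?_), h5, ?_⟩
    · nlinarith [Nat.zero_le (h ^ 2 * l)]
    · intro m lam hm _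
      have hl0 : (0 : ℝ) < l := by exact_mod_cast hl
      have hP2 : (2 * l : ℝ) ≤ P := by exact_mod_cast hP
      have hP0 : (0 : ℝ) < P := by linarith
      have hlog : 0 ≤ Real.logb 2 P := Real.logb_nonneg one_lt_two (by
        have : (1 : ℝ) ≤ l := by exact_mod_cast hl
        linarith)
      have h7 : 10 * h * 2 ^ h * l * (P / l : ℝ) ^ h * Real.logb 2 P ≤ m := by
        have h8 : (10 * h * 2 ^ h * l * (P / l : ℝ) ^ h * Real.logb 2 P) ^ 2 ≤ (m : ℝ) ^ 2 := by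
          refine le_trans ?_ hm
          push_cast
          have e : (10 * h * 2 ^ h * l * (P / l : ℝ) ^ h * Real.logb 2 P) ^ 2 =
              (10 * h * l * Real.logb 2 P) ^ 2 * (2 * P / l : ℝ) ^ (2 * h) := by
            rw [mul_div_assoc, mul_comm 2 h, pow_mul (2 * (P / l : ℝ)), mul_pow 2 (P / l : ℝ) h]
            ring
          rw [e]
          have h9 : (0 : ℝ) ≤ (h : ℝ) := Nat.cast_nonneg _
          gcongr
          linarith
        exact (abs_le_of_sq_le_sq' h8 (Nat.cast_nonneg _)).2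
      have h10 : Nat.card {f : Fin (2 * h) → Fin m → Fin P //
          2 ^ (-(m : ℝ) / 2) * (2 ^ (2 * h)) ^ m < (Nat.card {w //
            C.eval (inst (even (2 * h)) 0 (evenM (2 * h)) (.refl _) f w) C.out = true} : ℝ)} = 0 := by
        rw [Nat.card_eq_zero]
        exact Or.inl ⟨fun f => absurd f.2 (not_lt.2 (h6 m f.1 h7))⟩
      rw [h10, mul_zero]
      exact Nat.zero_le _
  · obtain ⟨C, h1, h2, h3, h4, h5, h6⟩ := upperOdd3 hDIM h P l (by omega) hl hP
    refine ⟨C, h1, h2, h3, h4.trans (Nat.pow_le_pow_right (by omega) ?_), h5, ?_⟩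
    · nlinarith [Nat.zero_le (h ^ 2 * l), Nat.zero_le (h * l)]
    · intro m lam hm hlam
      refine h6 m lam hm (hlam.resolve_left ?_)
      rw [Nat.not_even_iff_odd]
      exact ⟨h, rfl⟩

/-- **The upper bound for all predicates which contain a coset of the even vectors.** -/
theorem upperAll (hDIM : S_DIM3) (hPRE : S_PRE) (k P l : ℕ) (R : Set (Fin k → ZMod 2))
    (q : Fin k → ZMod 2) (hk : 2 ≤ k) (hR : R ≠ Set.univ) (hq : ∀ v ∈ evenM k, q + v ∈ R)
    (hl : 1 ≤ l) (hP : 2 * l ≤ P) :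
    ∃ C : LCircuit.{0, 0} (Con (pred R) (Fin k × Fin P)) Bool,
      Nonempty (C.Action fun u : Fin k × Fin P → ZMod 2 => flipC u) ∧ Finite C.Gate ∧
      (∀ g, (∃ t, C.label g = .input t) ∨ C.label g = .sym orB ∨ C.label g = .sym andB ∨
        C.label g = .sym norB) ∧
      C.size ≤ P ^ (20 * k ^ 2 * l) ∧
      (∀ φ, (sol (ones φ)).Nonempty → C.eval φ C.out = true) ∧
      ∀ m lam : ℕ, (10 * k * l * Real.logb 2 P) ^ 2 * (2 * P / l : ℝ) ^ k ≤ (m : ℝ) ^ 2 →
        (Even k ∨ 3200 * (k * lam * Real.logb 2 P) ^ 2 * 4 ^ k * l ≤ P) →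
        lam * Nat.card {f : Fin k → Fin m → Fin P //
          2 ^ (-(m : ℝ) / 2) * (2 ^ k) ^ m < (Nat.card {w //
            C.eval (inst R q (evenM k) (.refl _) f w) C.out = true} : ℝ)} ≤ P ^ (k * m) := by
  obtain ⟨C, h1, h2, h3, h4, h5, h6⟩ := upperEven hDIM k P l hk hl hP
  obtain ⟨C', g1, g2, g3, g4, g5⟩ := hPRE k (Fin k × Fin P) R q C h1 h2 h3
  refine ⟨C', g1, g2, g3, ?_, ?_, ?_⟩
  · rw [Fintype.card_prod, Fintype.card_fin, Fintype.card_fin] at g4
    exact g4.trans (size_all hk hl (by omega) h4)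
  · intro φ hφ
    rw [g5]
    exact h5 _ (lft_sol k _ R q hR hq φ hφ)
  · intro m lam hm hlam
    have h7 := h6 m lam hm hlam
    have h8 : ∀ (f : Fin k → Fin m → Fin P) w, C'.eval (inst R q (evenM k) (.refl _) f w) C'.out =
        C.eval (inst (even k) 0 (evenM k) (.refl _) f w) C.out := by
      intro f w
      rw [g5, lft_inst]
    simp only [h8]
    exact h7

end Pool.Agent.H5Ref
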