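import Pool.Agent.H5Ref.Stm3

/-!
# Piece PRE: composition of a circuit with a layer of AND gates
-/

set_option autoImplicit false
set_option linter.all false

namespace Pool.Agent.H5Ref

open Module Pool.Agent.H5Sym Pool.Agent.H5Dich Pool.Agent.H5Lin

namespace Pre

variable {k : ℕ} {V : Type} [Fintype V] [DecidableEq V] {R : Set (Fin k → ZMod 2)}

/-- constraints as pairs -/
def cnEquiv {k : ℕ} (R : Set (Fin k → ZMod 2)) (V : Type) : Con (pred R) V ≃ (Fin k → V) × (Fin k → ZMod 2) where
  toFun t := t.2
  invFun x := ⟨(), x⟩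
  left_inv _ := rfl
  right_inv _ := rfl

instance instCn : Fintype (Con (pred R) V) := Fintype.ofEquiv _ (cnEquiv R V).symm

theorem card_cn : Nat.card (Con (pred R) V) = (2 * Fintype.card V) ^ k := by
  rw [Nat.card_congr (cnEquiv R V), Nat.card_eq_fintype_card, Fintype.card_prod, Fintype.card_fun,
    Fintype.card_fun, Fintype.card_fin, ZMod.card, mul_pow, mul_comm]

theorem sco_flip (u : V → ZMod 2) (t : Con (pred R) V) : sco (flipC u t) = sco t := rfl

theorem sg_flip (u : V → ZMod 2) (t : Con (pred R) V) :
    sg (flipC u t) = sg t + ∑ c, u (sco t c) := by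
  show ∑ c : Fin k, (t.2.2 c + u (t.2.1 c)) = ∑ c : Fin k, t.2.2 c + ∑ c : Fin k, u (t.2.1 c)
  exact Finset.sum_add_distrib

variable (R) in
/-- the inputs of an AND gate -/
def ws (q : Fin k → ZMod 2) (t : Con (pred (even k)) V) : Finset (Con (pred R) V) :=
  Finset.univ.filter fun t' : Con (pred R) V => sco t' = sco t ∧ sg t' = ∑ c, q c + sg t

theorem mem_ws (q : Fin k → ZMod 2) (t : Con (pred (even k)) V) (t' : Con (pred R) V) :
    t' ∈ ws R q t ↔ sco t' = sco t ∧ sg t' = ∑ c, q c + sg t := by
  rw [ws, Finset.mem_filter]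
  exact and_iff_right (Finset.mem_univ _)

theorem ws_act (q : Fin k → ZMod 2) (u : V → ZMod 2) (t : Con (pred (even k)) V) :
    ws R q (flipC u t) = (ws R q t).map (flipC u).toEmbedding := by
  ext c
  rw [mem_ws, Finset.mem_map]
  constructor
  · rintro ⟨h1, h2⟩
    rw [sco_flip] at h1
    rw [sg_flip] at h2
    refine ⟨flipC u c, (mem_ws q t _).2 ⟨h1, ?_⟩, flipC_flipC u c⟩
    rw [sg_flip, h2, h1]
    have h3 : ∀ x : ZMod 2, x + x = 0 := fun x => CharTwo.add_self_eq_zero x
    linear_combination h3 (∑ c, u (sco t c))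
  · rintro ⟨c, hc, rfl⟩
    obtain ⟨h1, h2⟩ := (mem_ws q t _).1 hc
    rw [Equiv.coe_toEmbedding, sco_flip, sco_flip, sg_flip, sg_flip, h1, h2]
    exact ⟨rfl, add_assoc _ _ _⟩

/-- the new kind of a gate -/
def lab : Label (Con (pred (even k)) V) Bool → Label (Con (pred R) V) Bool
  | .input _ => .sym andB
  | .sym f => .sym f
  | .mat F => .mat F

/-- the new wires into a gate -/
def wr {G : Type} (q : Fin k → ZMod 2) : Label (Con (pred (even k)) V) Bool →
    Multiset (ℕ × G) → Multiset (ℕ × (Con (pred R) V ⊕ G))
  | .input t, _ => (ws R q t).val.map fun t' => (0, Sum.inl t')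
  | .sym _, W => W.map (Prod.map id Sum.inr)
  | .mat _, W => W.map (Prod.map id Sum.inr)

variable (R) in
/-- the circuit -/
def circ (q : Fin k → ZMod 2) (C : LCircuit.{0, 0} (Con (pred (even k)) V) Bool) :
    LCircuit.{0, 0} (Con (pred R) V) Bool where
  Gate := Con (pred R) V ⊕ C.Gate
  Row := Empty
  finite := inferInstance
  owner r := r.elim
  label
    | Sum.inl t => .input t
    | Sum.inr g => lab (C.label g)
  wires
    | Sum.inl _ => 0
    | Sum.inr g => wr q (C.label g) (C.wires g)
  entry r := r.elim
  level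
    | Sum.inl _ => 0
    | Sum.inr g => C.level g + 1
  level_wires := by
    rintro (t | g) e he
    · exact absurd he (Multiset.notMem_zero _)
    · change e ∈ wr q (C.label g) (C.wires g) at he
      cases hl : C.label g with
      | input t =>
        rw [hl, wr, Multiset.mem_map] at he
        obtain ⟨c, -, rfl⟩ := he
        exact Nat.succ_pos _
      | sym f =>
        rw [hl, wr, Multiset.mem_map] at he
        obtain ⟨c, hc, rfl⟩ := he
        exact Nat.succ_lt_succ (C.level_wires g c hc)
      | mat F =>
        rw [hl, wr, Multiset.mem_map] at he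
        obtain ⟨c, hc, rfl⟩ := he
        exact Nat.succ_lt_succ (C.level_wires g c hc)
  level_entry i := i.elim
  out := Sum.inr C.out

variable (R) in
/-- the action on the circuit -/
def circAct (q : Fin k → ZMod 2) (C : LCircuit.{0, 0} (Con (pred (even k)) V) Bool)
    (A : C.Action fun u : V → ZMod 2 => flipC u) :
    (circ R q C).Action fun u : V → ZMod 2 => flipC u where
  gate u := Equiv.sumCongr (flipC u) (A.gate u)
  row _ := Equiv.refl _
  gate_add u v := by
    refine Equiv.ext ?_
    rintro (t | g)
    · change Sum.inl (flipC (u + v) t) = Sum.inl (flipC u (flipC v t))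
      rw [flipC_add]
      rfl
    · change Sum.inr (A.gate (u + v) g) = Sum.inr (A.gate u (A.gate v g))
      rw [A.gate_add]
      rfl
  row_add _ _ := rfl
  label u g := by
    rcases g with t | g
    · rfl
    · change lab (C.label (A.gate u g)) = (lab (C.label g)).map (flipC u)
      rw [A.label]
      cases C.label g <;> rfl
  wires u g := by
    rcases g with t | g
    · rfl
    · change wr q (C.label (A.gate u g)) (C.wires (A.gate u g)) =
        (wr q (C.label g) (C.wires g)).map (Prod.map id (Equiv.sumCongr (flipC u) (A.gate u)))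
      rw [A.label, A.wires]
      cases C.label g with
      | input t =>
        change (ws R q (flipC u t)).val.map (fun t' => (0, Sum.inl t')) =
          ((ws R q t).val.map fun t' => (0, Sum.inl t')).map _
        rw [ws_act, Finset.map_val, Multiset.map_map, Multiset.map_map]
        rfl
      | sym f =>
        change ((C.wires g).map (Prod.map id (A.gate u))).map (Prod.map id Sum.inr) =
          ((C.wires g).map (Prod.map id Sum.inr)).map _
        rw [Multiset.map_map, Multiset.map_map]
        rfl
      | mat F =>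
        change ((C.wires g).map (Prod.map id (A.gate u))).map (Prod.map id Sum.inr) =
          ((C.wires g).map (Prod.map id Sum.inr)).map _
        rw [Multiset.map_map, Multiset.map_map]
        rfl
  owner _ i := i.elim
  entry _ i := i.elim
  out u := by
    change Sum.inr (A.gate u C.out) = Sum.inr C.out
    rw [A.out]

/-- the value of a gate -/
noncomputable def ev (q : Fin k → ZMod 2) (C : LCircuit.{0, 0} (Con (pred (even k)) V) Bool)
    (φ : Con (pred R) V → Bool) (g : Con (pred R) V ⊕ C.Gate) : Bool := (circ R q C).eval φ g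

theorem ev_sym (q : Fin k → ZMod 2) (C : LCircuit.{0, 0} (Con (pred (even k)) V) Bool)
    (φ : Con (pred R) V → Bool) (g : Con (pred R) V ⊕ C.Gate) (f : Multiset (ℕ × Bool) → Bool)
    (W : Multiset (ℕ × (Con (pred R) V ⊕ C.Gate)))
    (hl : (circ R q C).label g = .sym f) (hw : (circ R q C).wires g = W) :
    ev q C φ g = f (W.map fun e => (e.1, ev q C φ e.2)) := by
  subst hw
  exact LCircuit.eval_sym hl

theorem eval_sym' (q : Fin k → ZMod 2) (C : LCircuit.{0, 0} (Con (pred (even k)) V) Bool)
    (φ : Con (pred R) V → Bool) (g : C.Gate) (f : Multiset (ℕ × Bool) → Bool)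
    (hl : C.label g = .sym f)
    (ih : ∀ g', C.level g' < C.level g → ev q C φ (Sum.inr g') = C.eval (lft q φ) g') :
    ev q C φ (Sum.inr g) = C.eval (lft q φ) g := by
  have h1 : (circ R q C).label (Sum.inr g) = .sym f := by
    change lab (C.label g) = _
    rw [hl]
    rfl
  have h2 : (circ R q C).wires (Sum.inr g) = (C.wires g).map (Prod.map id Sum.inr) := by
    change wr q (C.label g) (C.wires g) = _
    rw [hl]
    rfl
  rw [ev_sym q C φ (Sum.inr g) f ((C.wires g).map (Prod.map id Sum.inr)) h1 h2,
    LCircuit.eval_sym hl, Multiset.map_map]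
  congr 1
  refine Multiset.map_congr rfl fun e he => ?_
  exact Prod.ext rfl (ih e.2 (C.level_wires g e he))

theorem eval_inr (q : Fin k → ZMod 2) (C : LCircuit.{0, 0} (Con (pred (even k)) V) Bool)
    (hC : ∀ g, (∃ t, C.label g = .input t) ∨ C.label g = .sym orB ∨ C.label g = .sym andB ∨
      C.label g = .sym norB) (φ : Con (pred R) V → Bool) (n : ℕ) :
    ∀ g, C.level g < n → ev q C φ (Sum.inr g) = C.eval (lft q φ) g := by
  induction n with
  | zero => exact fun g hg => absurd hg (Nat.not_lt_zero _)
  | succ n ih =>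
    intro g hg
    have ih' : ∀ g', C.level g' < C.level g → ev q C φ (Sum.inr g') = C.eval (lft q φ) g' :=
      fun g' hg' => ih g' (lt_of_lt_of_le hg' (Nat.le_of_lt_succ hg))
    rcases hC g with ⟨t, hl⟩ | hl | hl | hl
    · have h1 : (circ R q C).label (Sum.inr g) = .sym andB := by
        change lab (C.label g) = _
        rw [hl]
        rfl
      have h2 : (circ R q C).wires (Sum.inr g) = (ws R q t).val.map fun t' => (0, Sum.inl t') := by
        change wr q (C.label g) (C.wires g) = _
        rw [hl]
        rfl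
      have h3 : ∀ t', ev q C φ (Sum.inl t') = φ t' := fun t' =>
        LCircuit.eval_input (C := circ R q C) rfl
      rw [ev_sym q C φ (Sum.inr g) andB ((ws R q t).val.map fun t' => (0, Sum.inl t')) h1 h2,
        LCircuit.eval_input hl, Multiset.map_map, andB, lft,
        decide_eq_decide, Multiset.mem_map]
      constructor
      · intro h t' ht1 ht2
        by_contra hf
        rw [Bool.not_eq_true] at hf
        refine h ⟨t', (mem_ws q t t').2 ⟨ht1, ht2⟩, ?_⟩
        exact Prod.ext rfl ((h3 t').trans hf)
      · rintro h ⟨t', ht', he⟩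
        obtain ⟨ht1, ht2⟩ := (mem_ws q t t').1 ht'
        have h4 : ev q C φ (Sum.inl t') = false := congrArg Prod.snd he
        rw [h3, h t' ht1 ht2] at h4
        exact Bool.noConfusion h4
    · exact eval_sym' q C φ g _ hl ih'
    · exact eval_sym' q C φ g _ hl ih'
    · exact eval_sym' q C φ g _ hl ih'

end Pre

open Pre in
theorem pre : S_PRE := by
  intro k V _ _ R q C hA hfin hC
  obtain ⟨A⟩ := hA
  refine ⟨Pre.circ R q C, ⟨circAct R q C A⟩, ?_, ?_, ?_, ?_⟩
  · show Finite (Con (pred R) V ⊕ C.Gate)
    infer_instance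
  · rintro (t | g)
    · exact Or.inl ⟨t, rfl⟩
    · have h : ∀ f, C.label g = .sym f → (Pre.circ R q C).label (Sum.inr g) = .sym f := by
        intro f hf
        change lab (C.label g) = _
        rw [hf]
        rfl
      rcases hC g with ⟨t, hl⟩ | hl | hl | hl
      · refine Or.inr (Or.inr (Or.inl ?_))
        change lab (C.label g) = _
        rw [hl]
        rfl
      · exact Or.inr (Or.inl (h _ hl))
      · exact Or.inr (Or.inr (Or.inl (h _ hl)))
      · exact Or.inr (Or.inr (Or.inr (h _ hl)))
  · show Nat.card (Con (pred R) V ⊕ C.Gate) + Nat.card Empty ≤ _ + (Nat.card C.Gate + Nat.card C.Row)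
    have h5 : Nat.card Empty = 0 := Nat.card_eq_zero.2 (Or.inl inferInstance)
    rw [Nat.card_sum, card_cn, h5]
    omega
  · intro φ
    exact eval_inr q C hC φ (C.level C.out + 1) C.out (Nat.lt_succ_self _)

end Pool.Agent.H5Ref
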