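import Pool.Agent.H5Ref.Stm3

/-!
# Piece SUBS: a subfamily of the rows with few collisions
-/

set_option autoImplicit false

namespace Pool.Agent.H5Ref

namespace Subs

open Finset

open scoped Classical in
theorem bet_zero {V : Type} {P : ℕ} (S : Finset (V → ZMod 2)) (z : Fin 0 → V → ZMod 2) (u : Fin 0 → Fin P) :
    bet S z u = 0 := by
  unfold bet
  rw [Finset.card_eq_zero, Finset.filter_eq_empty_iff]
  intro p _
  exact p.2.1.elim0

open scoped Classical in
/-- the average over the deleted row -/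
theorem average {V : Type} {d P : ℕ} (S : Finset (V → ZMod 2)) (z : Fin (d + 2) → V → ZMod 2)
    (u : Fin (d + 2) → Fin P) :
    ∃ v : Fin (d + 2), (d + 2) * bet S (z ∘ v.succAbove) (u ∘ v.succAbove) ≤ d * bet S z u := by
  by_contra hcon
  push Not at hcon
  obtain ⟨B, hB⟩ : ∃ B, B = (S ×ˢ (Finset.univ : Finset (Fin (d + 2) × Fin (d + 2)))).filter
    (fun p => p.2.1 ≠ p.2.2 ∧ u p.2.1 = u p.2.2 ∧ p.1 + z p.2.1 ∈ S ∧ p.1 + z p.2.2 ∈ S) := ⟨_, rfl⟩
  have hBc : bet S z u = B.card := by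
    rw [hB]
    rfl
  have h1 : ∀ v : Fin (d + 2), bet S (z ∘ v.succAbove) (u ∘ v.succAbove) ≤
      (B.filter fun p => v ≠ p.2.1 ∧ v ≠ p.2.2).card := by
    intro v
    unfold bet
    apply Finset.card_le_card_of_injOn (fun p => (p.1, (v.succAbove p.2.1, v.succAbove p.2.2)))
    · intro p hp
      rw [Finset.mem_coe, Finset.mem_filter, Finset.mem_product] at hp
      rw [Finset.mem_coe, Finset.mem_filter, hB, Finset.mem_filter, Finset.mem_product]
      refine ⟨⟨⟨hp.1.1, Finset.mem_univ _⟩, fun h => hp.2.1 (Fin.succAbove_right_injective h), hp.2.2.1, hp.2.2.2.1,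
        hp.2.2.2.2⟩, (Fin.succAbove_ne v _).symm, (Fin.succAbove_ne v _).symm⟩
    · intro p _ p' _ h
      have h2 := congrArg (fun q => q.1) h
      have h3 := congrArg (fun q => q.2.1) h
      have h4 := congrArg (fun q => q.2.2) h
      simp only at h2 h3 h4
      exact Prod.ext h2 (Prod.ext (Fin.succAbove_right_injective h3) (Fin.succAbove_right_injective h4))
  have h2 : ∑ v : Fin (d + 2), (B.filter fun p => v ≠ p.2.1 ∧ v ≠ p.2.2).card = d * B.card := by
    have h3 : ∀ v : Fin (d + 2), (B.filter fun p => v ≠ p.2.1 ∧ v ≠ p.2.2).card =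
        ∑ p ∈ B, if v ≠ p.2.1 ∧ v ≠ p.2.2 then 1 else 0 := fun v => by rw [Finset.card_filter]
    rw [Finset.sum_congr rfl fun v _ => h3 v, Finset.sum_comm]
    have h4 : ∀ p ∈ B, (∑ v : Fin (d + 2), if v ≠ p.2.1 ∧ v ≠ p.2.2 then 1 else 0) = d := by
      intro p hp
      rw [hB, Finset.mem_filter] at hp
      rw [← Finset.card_filter]
      have h5 : (Finset.univ.filter fun v : Fin (d + 2) => v ≠ p.2.1 ∧ v ≠ p.2.2) = Finset.univ \ {p.2.1, p.2.2} := by
        ext v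
        simp only [Finset.mem_filter, Finset.mem_univ, true_and, Finset.mem_sdiff, Finset.mem_insert,
          Finset.mem_singleton, not_or]
      rw [h5, Finset.card_sdiff_of_subset (Finset.subset_univ _), Finset.card_pair hp.2.1, Finset.card_univ,
        Fintype.card_fin]
      omega
    rw [Finset.sum_congr rfl h4, Finset.sum_const, smul_eq_mul, mul_comm]
  have h6 : ∑ v : Fin (d + 2), (d * bet S z u) < ∑ v : Fin (d + 2),
      (d + 2) * bet S (z ∘ v.succAbove) (u ∘ v.succAbove) :=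
    Finset.sum_lt_sum_of_nonempty Finset.univ_nonempty fun v _ => hcon v
  rw [Finset.sum_const, Finset.card_univ, Fintype.card_fin, smul_eq_mul, hBc, ← h2, ← Finset.mul_sum] at h6
  have h7 := Nat.mul_le_mul_left (d + 2) (Finset.sum_le_sum fun v (_ : v ∈ Finset.univ) => h1 v)
  omega

end Subs

open Subs in
theorem subs : S_SUBS := by
  intro V S d s P z u hsd
  rcases Nat.eq_zero_or_pos s with rfl | hs
  · refine ⟨⟨fun i => i.elim0, fun i => i.elim0⟩, ?_⟩
    rw [bet_zero, Nat.zero_mul]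
    exact Nat.zero_le _
  induction d, hsd using Nat.le_induction with
  | base =>
    refine ⟨Function.Embedding.refl _, ?_⟩
    rw [mul_comm]
    exact le_rfl
  | succ d hd ih =>
    obtain ⟨e, rfl⟩ : ∃ e, d = e + 1 := ⟨d - 1, by omega⟩
    obtain ⟨v, hv⟩ := average S z u
    obtain ⟨ι, hι⟩ := ih (z ∘ v.succAbove) (u ∘ v.succAbove)
    refine ⟨ι.trans v.succAboveEmb, ?_⟩
    obtain ⟨X, hX⟩ : ∃ X, X = bet S ((z ∘ v.succAbove) ∘ ι) ((u ∘ v.succAbove) ∘ ι) := ⟨_, rfl⟩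
    obtain ⟨b, hb⟩ : ∃ b, b = bet S (z ∘ v.succAbove) (u ∘ v.succAbove) := ⟨_, rfl⟩
    obtain ⟨B, hB⟩ : ∃ B, B = bet S z u := ⟨_, rfl⟩
    have hX' : bet S (z ∘ (ι.trans v.succAboveEmb)) (u ∘ (ι.trans v.succAboveEmb)) = X := by
      rw [hX]
      rfl
    rw [hX', ← hB]
    rw [← hX, ← hb] at hι
    rw [← hb, ← hB] at hv
    -- `X (e+1)² ≤ s² b`, `(e+2) b ≤ e B`
    have h1 : (e + 1 + 1) ^ 2 * b ≤ (e + 1) ^ 2 * B := by
      calc (e + 1 + 1) ^ 2 * b = (e + 2) * ((e + 2) * b) := by ring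
        _ ≤ (e + 2) * (e * B) := Nat.mul_le_mul_left _ hv
        _ = (e * (e + 2)) * B := by ring
        _ ≤ (e + 1) ^ 2 * B := Nat.mul_le_mul_right _ (by nlinarith)
    have h2 : (e + 1) ^ 2 * (X * (e + 1 + 1) ^ 2) ≤ (e + 1) ^ 2 * (s ^ 2 * B) := by
      calc (e + 1) ^ 2 * (X * (e + 1 + 1) ^ 2) = (e + 1 + 1) ^ 2 * (X * (e + 1) ^ 2) := by ring
        _ ≤ (e + 1 + 1) ^ 2 * (s ^ 2 * b) := Nat.mul_le_mul_left _ hι
        _ = s ^ 2 * ((e + 1 + 1) ^ 2 * b) := by ring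
        _ ≤ s ^ 2 * ((e + 1) ^ 2 * B) := Nat.mul_le_mul_left _ h1
        _ = (e + 1) ^ 2 * (s ^ 2 * B) := by ring
    exact Nat.le_of_mul_le_mul_left h2 (by positivity)

end Pool.Agent.H5Ref
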