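import Pool.Agent.H5Ref.Final2
import Pool.Agent.H5Ref.Dim3
import Pool.Agent.H5Ref.Subs
import Pool.Agent.H5Ref.Pre

/-!
# The upper bound in the final form, without hypotheses
-/

set_option autoImplicit false

namespace Pool.Agent.H5Ref

open Module Pool.Agent.H5Sym Pool.Agent.H5Dich Pool.Agent.H5Lin

/-- the dimension bound -/
theorem hdim3 : S_DIM3 := dim3 (key hyp2 good) subs

/-- **The upper bound for all predicates which contain a coset of the even vectors.** -/
theorem upperF (k P l : ℕ) (R : Set (Fin k → ZMod 2))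
    (q : Fin k → ZMod 2) (hk : 2 ≤ k) (hR : R ≠ Set.univ) (hq : ∀ v ∈ evenM k, q + v ∈ R)
    (hl : 1 ≤ l) (hP : 2 * l ≤ P) :
    ∃ C : LCircuit.{0, 0} (Con (pred R) (Fin k × Fin P)) Bool,
      Nonempty (C.Action fun u : Fin k × Fin P → ZMod 2 => flipC u) ∧ Finite C.Gate ∧
      (∀ g, (∃ t, C.label g = .input t) ∨ C.label g = .sym orB ∨ C.label g = .sym andB ∨
        C.label g = .sym norB) ∧
      C.size ≤ P ^ (20 * k ^ 2 * l) ∧
      (∀ φ, (sol (ones φ)).Nonempty → C.eval φ C.out = true) ∧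
      ∀ m lam : ℕ, (10 * k * l * Real.logb 2 P) ^ 2 * (2 * P / l : ℝ) ^ k ≤ (m : ℝ) ^ 2 →
        (Even k ∨ 3200 * (k * lam * Real.logb 2 P) ^ 2 * 4 ^ k * l ≤ P) →
        lam * Nat.card {f : Fin k → Fin m → Fin P //
          2 ^ (-(m : ℝ) / 2) * (2 ^ k) ^ m < (Nat.card {w //
            C.eval (inst R q (evenM k) (.refl _) f w) C.out = true} : ℝ)} ≤ P ^ (k * m) :=
  upperAll hdim3 pre k P l R q hk hR hq hl hP

end Pool.Agent.H5Ref
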