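import Pool.Agent.H5Ref.Count
import Pool.Agent.H5Ref.Defs
import Pool.Agent.H5Lin.Fool

/-!
# For most sparse systems the circuit does not see the right-hand side
-/

set_option autoImplicit false

namespace Pool.Agent.H5Ref

open Module Pool.Agent.H5Sym Pool.Agent.H5Dich Pool.Agent.H5Lin

universe u

variable {k P m : ℕ} {V : Type}

theorem inst_true {R : Set (Fin k → F2)} {q : Fin k → F2} {M : Submodule F2 (Fin k → F2)}
    {ι : Fin k × Fin P ↪ V} {f : Fin k → Fin m → Fin P} {w : Fin m → Fin k → F2}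
    {t : Con (pred R) V} : inst R q M ι f w t = true ↔
      ∃ j, ∃ l ∈ M, t = ⟨(), (fun c => ι (c, f c j), q + (w j + l))⟩ := by
  simp only [inst, decide_eq_true_eq]

theorem inst_flip {R : Set (Fin k → F2)} {q : Fin k → F2} {M : Submodule F2 (Fin k → F2)}
    {ι : Fin k × Fin P ↪ V} {f : Fin k → Fin m → Fin P} (u : V → F2) (w : Fin m → Fin k → F2)
    (t : Con (pred R) V) : inst R q M ι f (w + lhsH ι f u) (flipC u t) = inst R q M ι f w t := by
  have key : ∀ (w : Fin m → Fin k → F2) (t : Con (pred R) V), inst R q M ι f w t = true →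
      inst R q M ι f (w + lhsH ι f u) (flipC u t) = true := by
    intro w t h
    obtain ⟨j, l, hl, rfl⟩ := inst_true.1 h
    refine inst_true.2 ⟨j, l, hl, ?_⟩
    rw [flipC_apply]
    have h1 : q + (w j + l) + u ∘ (fun c => ι (c, f c j)) = q + ((w + lhsH ι f u) j + l) := by
      funext c
      change q c + (w j c + l c) + u (ι (c, f c j)) = q c + (w j c + u (ι (c, f c j)) + l c)
      ring
    exact congrArg (fun a => (⟨(), (fun c => ι (c, f c j), a)⟩ : Con (pred R) V)) h1
  rw [Bool.eq_iff_iff]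
  refine ⟨fun h => ?_, key w t⟩
  have h1 := key _ _ h
  rwa [flipC_flipC, add_assoc, add_self_mod, add_zero] at h1

/-- the functionals on the group of flips which are sums of two special ones -/
noncomputable def badSet [Finite V] (ι : Fin k × Fin P ↪ V) (U : Submodule F2 (V → F2)) {D : Type u}
    {Γ : Lang} {C : LCircuit.{0, u} (Con Γ V) D} (act : C.Action fun u : U => flipC u.1) :
    Finset (Fin k → Fin P → F2) := by
  classical
  exact Finset.univ.filter fun v => ∃ ξ ∈ act.special, ∃ η ∈ act.special, funcH ι U v = ξ + η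

theorem badSet_card [Finite V] (ι : Fin k × Fin P ↪ V) (U : Submodule F2 (V → F2))
    (hι : ∀ y : Fin k × Fin P → F2, ∃ u ∈ U, ∀ p, u (ι p) = y p) {D : Type u} {Γ : Lang}
    (C : LCircuit.{0, u} (Con Γ V) D) [Finite C.Gate] (act : C.Action fun u : U => flipC u.1) :
    (badSet ι U act).card ≤ C.size ^ 2 := by
  classical
  have : Finite (V → F2) := Pi.finite
  have : Finite U := Subtype.finite
  have hfinD : Finite (Dual F2 U) := Finite.of_injective (fun q : Dual F2 U => (q : U → F2))
    DFunLike.coe_injective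
  have h1 : ∀ v : badSet ι U act, ∃ p : act.special × act.special,
      funcH ι U v.1 = p.1.1 + p.2.1 := by
    intro v
    obtain ⟨ξ, hξ, η, hη, h⟩ := (Finset.mem_filter.1 v.2).2
    exact ⟨(⟨ξ, hξ⟩, ⟨η, hη⟩), h⟩
  choose p hp using h1
  have h2 : Function.Injective p := by
    intro v v' h
    refine Subtype.ext (funcH_inj hι ?_)
    rw [hp, hp, h]
  have h3 := Nat.card_le_card_of_injective p h2
  rw [Nat.card_eq_fintype_card, Fintype.card_coe, Nat.card_prod, Nat.card_coe_set_eq] at h3
  refine h3.trans ?_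
  rw [pow_two]
  exact Nat.mul_le_mul act.special_card act.special_card

theorem fool [Finite V] (R : Set (Fin k → F2)) (q₀ : Fin k → F2) (M : Submodule F2 (Fin k → F2))
    (ι : Fin k × Fin P ↪ V) (U : Submodule F2 (V → F2))
    (hι : ∀ y : Fin k × Fin P → F2, ∃ u ∈ U, ∀ p, u (ι p) = y p) {D : Type u}
    (C : LCircuit.{0, u} (Con (pred R) V) D) (hodd : C.OddFields)
    (inp : Bool → D) (act : C.Action fun u : U => flipC u.1) {κ t : ℕ} (hκ : 0 < κ)
    (hM : ∀ h : Fin k → F2, h ≠ 0 → (∀ y ∈ M, ∑ c, h c * y c = 0) →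
      t + 2 ≤ (Finset.univ.filter fun c => h c ≠ 0).card)
    (f : Fin k → Fin m → Fin P) (hf : Good t κ (badSet ι U act) f) (w w' : Fin m → Fin k → F2) :
    C.eval (inp ∘ inst R q₀ M ι f w) C.out = C.eval (inp ∘ inst R q₀ M ι f w') C.out := by
  classical
  have : Finite (V → F2) := Pi.finite
  have : Finite U := Subtype.finite
  let A : U →ₗ[F2] (Fin m → Fin k → F2) := (lhsH ι f).comp U.subtype
  let small : Set (Dual F2 (Fin m → Fin k → F2)) :=
    {q | (∀ w : Fin m → Fin k → F2, (∀ j, w j ∈ M) → q w = 0) ∧ (supp (coef q)).card < 2 * κ}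
  have hsmall : ∀ q ∈ small, ∀ j, coef q j ≠ 0 →
      t + 2 ≤ (Finset.univ.filter fun c => coef q j c ≠ 0).card := by
    intro q hq j hj
    refine hM (coef q j) hj fun y hy => ?_
    rw [← coef_single]
    refine hq.1 _ fun j' => ?_
    by_cases h : j' = j
    · subst h
      rwa [Pi.single_eq_same]
    · rw [Pi.single_eq_of_ne h]
      exact M.zero_mem
  let small' : Set (Dual F2 (Fin m → Fin k → F2)) :=
    {q | (∀ w : Fin m → Fin k → F2, (∀ j, w j ∈ M) → q w = 0) ∧ (supp (coef q)).card < κ}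
  have key := act.core (W := Fin m → Fin k → F2) hodd A (fun w => inp ∘ inst R q₀ M ι f w) ?_
    small small' ?_ ?_ ?_ ?_ C.out
  · have := key (w + w') ?_ w'
    · rw [show w' + (w + w') = w by
        rw [add_comm w w', ← add_assoc, add_self_mod, zero_add]] at this
      exact this
    · rintro q ⟨hq1, hq2⟩
      have h0 : bdH f (coef q) = 0 := by
        refine funcH_inj hι (LinearMap.ext fun u => ?_)
        rw [funcH_bd]
        have h1 := hq2 u (act.out u)
        have h2 : funcH ι U 0 u = 0 := by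
          change ∑ c, ∑ i, (0 : Fin k → Fin P → F2) c i * u.1 (ι (c, i)) = 0
          simp
        rw [h2]
        exact h1
      have h1 : supp (coef q) = ∅ := by
        by_contra hne
        exact (hf (coef q) (hsmall q hq1)).2 (Finset.nonempty_iff_ne_empty.2 hne)
          (le_of_lt hq1.2) h0
      rw [coef_apply]
      refine Finset.sum_eq_zero fun j _ => ?_
      have h2 : coef q j = 0 := by
        by_contra h2
        have : j ∈ supp (coef q) := Finset.mem_filter.2 ⟨Finset.mem_univ _, h2⟩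
        rw [h1] at this
        exact absurd this (Finset.notMem_empty j)
      rw [h2]
      simp
  · intro w v t
    exact congrArg inp (inst_flip v.1 w t)
  · refine ⟨fun _ _ => rfl, ?_⟩
    change (supp (0 : Fin m → Fin k → F2)).card < κ
    rw [supp_zero, Finset.card_empty]
    exact hκ
  · rintro q ⟨hq1, hq2⟩ q' ⟨hq1', hq2'⟩
    refine ⟨fun w hw => ?_, ?_⟩
    · rw [LinearMap.add_apply, hq1 w hw, hq1' w hw, add_zero]
    · rw [coef_add]
      have := supp_add (coef q) (coef q')
      omega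
  · intro t w d hd
    refine congrArg inp ?_
    have claim : ∀ j : Fin m, t.2.1 = (fun c => ι (c, f c j)) → d j ∈ M := by
      intro j ht
      by_contra hcon
      have h1 : ∃ μ ∈ M.dualAnnihilator, μ (d j) ≠ 0 := by
        by_contra h2
        push Not at h2
        refine hcon ?_
        rw [← Subspace.dualAnnihilator_dualCoannihilator_eq (W := M)]
        rw [Submodule.mem_dualCoannihilator]
        exact h2
      obtain ⟨μ, hμ, hμ'⟩ := h1
      rw [Submodule.mem_dualAnnihilator] at hμ
      refine hμ' ?_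
      let q : Dual F2 (Fin m → Fin k → F2) := μ.comp (LinearMap.proj j)
      have hq : ∀ w : Fin m → Fin k → F2, q w = μ (w j) := fun w => rfl
      refine hd q ⟨fun w hw => ?_, ?_⟩ fun v hv => ?_
      · rw [hq]
        exact hμ _ (hw j)
      · have h4 : supp (coef q) ⊆ {j} := by
          intro j' hj'
          rw [Finset.mem_singleton]
          by_contra hne
          refine (Finset.mem_filter.1 hj').2 ?_
          funext c'
          change q (Pi.single j' (Pi.single c' 1)) = 0
          rw [hq, Pi.single_eq_of_ne (Ne.symm hne), map_zero]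
        have h5 := Finset.card_le_card h4
        rw [Finset.card_singleton] at h5
        omega
      · have hv' : flipC v.1 t = t := hv
        rw [flipC_apply] at hv'
        have h5 := congrArg Prod.snd (eq_of_heq (Sigma.mk.inj hv').2)
        have h6 : v.1 ∘ t.2.1 = 0 := add_eq_left.1 h5
        rw [hq]
        have h7 : A v j = 0 := by
          rw [ht] at h6
          exact h6
        rw [h7, map_zero]
    rw [Bool.eq_iff_iff, inst_true, inst_true]
    constructor
    · rintro ⟨j, l, hl, ht⟩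
      refine ⟨j, l + d j, M.add_mem hl (claim j (by subst ht; rfl)), ?_⟩
      rw [ht]
      have h1 : q₀ + ((w + d) j + l) = q₀ + (w j + (l + d j)) := by
        rw [Pi.add_apply]
        abel
      rw [h1]
    · rintro ⟨j, l, hl, ht⟩
      refine ⟨j, l + d j, M.add_mem hl (claim j (by subst ht; rfl)), ?_⟩
      rw [ht]
      have h1 : q₀ + (w j + l) = q₀ + ((w + d) j + (l + d j)) := by
        rw [Pi.add_apply]
        have h2 := add_self_mod (d j)
        calc q₀ + (w j + l) = q₀ + (w j + l + 0) := by rw [add_zero]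
          _ = q₀ + (w j + l + (d j + d j)) := by rw [h2]
          _ = _ := by abel
      rw [h1]
  · rintro q hq ⟨ξ, hξ, η, hη, h⟩
    refine ⟨hq.1, ?_⟩
    by_contra hcon
    refine (hf (coef q) (hsmall q hq)).1 (not_lt.1 hcon) hq.2
      (Finset.mem_filter.2 ⟨Finset.mem_univ _, ξ, hξ, η, hη, LinearMap.ext fun u => ?_⟩)
    rw [funcH_bd]
    exact h u

/-- **The lower bound on average.** -/
theorem avgLower [Finite V] (R : Set (Fin k → F2)) (q₀ : Fin k → F2)
    (M : Submodule F2 (Fin k → F2)) (ι : Fin k × Fin P ↪ V) (U : Submodule F2 (V → F2))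
    (hι : ∀ y : Fin k × Fin P → F2, ∃ u ∈ U, ∀ p, u (ι p) = y p) {D : Type u}
    (C : LCircuit.{0, u} (Con (pred R) V) D) [Finite C.Gate] (hodd : C.OddFields)
    (inp : Bool → D) (act : C.Action fun u : U => flipC u.1) {κ τ lam : ℕ} (hκ : 0 < κ)
    (hlam : 1 ≤ lam) (hτ : 2 ≤ τ)
    (hM : ∀ h : Fin k → F2, h ≠ 0 → (∀ y ∈ M, ∑ c, h c * y c = 0) → τ ≤ {c | h c ≠ 0}.ncard)
    (hP : 4 ^ (τ + k + 1) * lam ^ 2 * κ ^ (τ - 2) * m ^ 2 ≤ P ^ τ)
    (hC : C.size ≤ 2 ^ (κ - 1)) :
    lam * Nat.card {f : Fin k → Fin m → Fin P // ∃ w w',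
      C.eval (inp ∘ inst R q₀ M ι f w) C.out ≠ C.eval (inp ∘ inst R q₀ M ι f w') C.out} ≤
      P ^ (k * m) := by
  classical
  obtain ⟨t, rfl⟩ : ∃ t, τ = t + 2 := ⟨τ - 2, by omega⟩
  have h1 : Nat.card {f : Fin k → Fin m → Fin P // ∃ w w',
      C.eval (inp ∘ inst R q₀ M ι f w) C.out ≠ C.eval (inp ∘ inst R q₀ M ι f w') C.out} =
      (Finset.univ.filter fun f : Fin k → Fin m → Fin P => ∃ w w',
        C.eval (inp ∘ inst R q₀ M ι f w) C.out ≠
          C.eval (inp ∘ inst R q₀ M ι f w') C.out).card := by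
    rw [Nat.card_eq_fintype_card, Fintype.card_subtype]
  rw [h1]
  have h2 : 4 * (badSet ι U act).card ≤ 4 ^ κ := by
    obtain ⟨κ', rfl⟩ : ∃ κ', κ = κ' + 1 := ⟨κ - 1, by omega⟩
    have h3 : C.size ^ 2 ≤ (2 ^ κ') ^ 2 := Nat.pow_le_pow_left hC 2
    have h4 : ((2 : ℕ) ^ κ') ^ 2 = 4 ^ κ' := by rw [← pow_mul, mul_comm, pow_mul]; norm_num
    have h5 := (badSet_card ι U hι C act).trans h3
    rw [h4] at h5
    calc 4 * (badSet ι U act).card ≤ 4 * 4 ^ κ' := Nat.mul_le_mul_left _ h5
      _ = 4 ^ (κ' + 1) := by rw [pow_succ, mul_comm]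
  have h3 := good_card (R := Fin k) (P := P) (m := m) (t := t) hκ hlam (by
      rw [Fintype.card_fin]
      refine le_trans (le_of_eq ?_) hP
      rw [Nat.add_sub_cancel]
      ring) (badSet ι U act) h2
    (Finset.univ.filter fun f : Fin k → Fin m → Fin P => ∃ w w',
        C.eval (inp ∘ inst R q₀ M ι f w) C.out ≠ C.eval (inp ∘ inst R q₀ M ι f w') C.out) ?_
  · rwa [Fintype.card_fin] at h3
  · intro f hf hgood
    obtain ⟨w, w', hw⟩ := (Finset.mem_filter.1 hf).2
    refine hw (fool R q₀ M ι U hι C hodd inp act hκ ?_ f hgood w w')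
    intro h hh hy
    have h4 := hM h hh hy
    have h5 : {c | h c ≠ 0} = ↑(Finset.univ.filter fun c => h c ≠ 0) := by
      ext j
      simp
    rwa [h5, Set.ncard_coe_finset] at h4

end Pool.Agent.H5Ref
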