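import Pool.Agent.H5Ref.Stm2
import Pool.Agent.H5Ref.Clean

/-!
# Refutation by reachability in the double cover: odd arity
-/

set_option autoImplicit false

namespace Pool.Agent.H5Ref

open Module Pool.Agent.H5Sym Pool.Agent.H5Dich Pool.Agent.H5Lin

/-- the number of the edges of one row -/
def levE (h P l : ℕ) : ℕ := (2 * h).choose h * (P - 1).choose l ^ (2 * h)

theorem levN_pos {h P l : ℕ} (hl : l < P) : 0 < levN h P l :=
  Nat.mul_pos (Nat.choose_pos (by omega)) (Nat.pow_pos (Nat.mul_pos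
    (Nat.choose_pos (by omega)) (Nat.choose_pos (by omega))))

theorem levE_pos {h P l : ℕ} (hl : l < P) : 0 < levE h P l :=
  Nat.mul_pos (Nat.choose_pos (by omega)) (Nat.pow_pos (Nat.choose_pos (by omega)))

theorem log_levN {h P l : ℕ} (hh : 1 ≤ h) (hl : 1 ≤ l) (hP : 2 * l ≤ P) :
    Real.logb 2 (levN h P l) ≤ 5 * h * l * Real.logb 2 P := by
  have hN0 : 0 < levN h P l := levN_pos (by omega)
  have h2 : (levN h P l : ℝ) ≤ (P : ℝ) ^ (5 * h * l) := by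
    exact_mod_cast levN_le hh hl (by omega : 2 ≤ P)
  have h3 := Real.logb_le_logb_of_le one_lt_two (by exact_mod_cast hN0) h2
  rw [Real.logb_pow] at h3
  push_cast at h3
  exact h3

theorem levE_mul {h P l : ℕ} (hl : l < P) :
    levN h P l * ((P - l) * (l + 1)) ^ h = levE h P l * P ^ (2 * h) := by
  have h1 := lev_alpha h P l hl
  have hP : (0 : ℝ) < P := by
    have : 0 < P := by omega
    exact_mod_cast this
  have h2 : ((P - l : ℕ) : ℝ) = P - l := by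
    rw [Nat.cast_sub hl.le]
  have h3 : ((levN h P l * ((P - l) * (l + 1)) ^ h : ℕ) : ℝ) = ((levE h P l * P ^ (2 * h) : ℕ) : ℝ) := by
    have h4 : ((levE h P l : ℕ) : ℝ) = (((P - l) * (l + 1) / P ^ 2 : ℝ) ^ h) * levN h P l := by
      rw [h1]; rfl
    push_cast
    rw [h4, h2, div_pow, pow_mul]
    field_simp
  exact_mod_cast h3

/-- `4 ^ h (P / l) ^ (2 h) n² ≥ N²` -/
theorem levE_sq {h P l : ℕ} (hl : 1 ≤ l) (hP : 2 * l ≤ P) :
    (levN h P l : ℝ) ^ 2 ≤ 4 ^ h * (P / l : ℝ) ^ (2 * h) * (levE h P l : ℝ) ^ 2 := by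
  have hl0 : (0 : ℝ) < l := by exact_mod_cast hl
  have hP2 : (2 * l : ℝ) ≤ P := by exact_mod_cast hP
  have hP0 : (0 : ℝ) < P := by linarith
  have hPl : (0 : ℝ) < P - l := by linarith
  have h4 : ((levE h P l : ℕ) : ℝ) = (((P - l) * (l + 1) / P ^ 2 : ℝ) ^ h) * levN h P l := by
    rw [lev_alpha h P l (by omega)]; rfl
  have h5 : (1 : ℝ) ≤ 2 ^ h * (P / l : ℝ) ^ h * ((P - l) * (l + 1) / P ^ 2 : ℝ) ^ h := by
    rw [← mul_pow, ← mul_pow]
    refine one_le_pow₀ ?_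
    have e : (2 : ℝ) * (P / l) * ((P - l) * (l + 1) / P ^ 2) = 2 * (P - l) * (l + 1) / (l * P) := by
      field_simp
    rw [e, one_le_div (by positivity)]
    nlinarith
  have h6 : (levN h P l : ℝ) ≤ 2 ^ h * (P / l : ℝ) ^ h * levE h P l := by
    rw [h4, ← mul_assoc]
    exact le_mul_of_one_le_left (Nat.cast_nonneg _) h5
  calc (levN h P l : ℝ) ^ 2 ≤ (2 ^ h * (P / l : ℝ) ^ h * levE h P l) ^ 2 :=
        pow_le_pow_left₀ (Nat.cast_nonneg _) h6 2
    _ = 4 ^ h * (P / l : ℝ) ^ (2 * h) * (levE h P l : ℝ) ^ 2 := by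
        rw [mul_pow, mul_pow, ← pow_mul, ← pow_mul, mul_comm h 2, pow_mul (2 : ℝ) 2 h]
        norm_num

/-- extension by zero -/
def emb {k P : ℕ} (y : Fin k × Fin P → ZMod 2) : Fin (k + 1) × Fin P → ZMod 2 :=
  fun p => Fin.cases (motive := fun _ => ZMod 2) 0 (fun c => y (c, p.2)) p.1

theorem emb_add {k P : ℕ} (y w : Fin k × Fin P → ZMod 2) : emb (y + w) = emb y + emb w := by
  funext p
  obtain ⟨c, i⟩ := p
  refine Fin.cases ?_ (fun c => ?_) c
  · simp [emb]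
  · simp [emb]

theorem emb_inj {k P : ℕ} : Function.Injective (emb (k := k) (P := P)) := by
  intro y w h
  funext p
  have := congrFun h (p.1.succ, p.2)
  simpa [emb] using this

theorem emb_uz {k P : ℕ} (i : Fin k → Fin P) :
    emb (uz i) = ∑ c : Fin k, Pi.single (c.succ, i c) (1 : ZMod 2) := by
  funext p
  obtain ⟨c, a⟩ := p
  refine Fin.cases ?_ (fun c => ?_) c
  · simp only [emb, Fin.cases_zero, Finset.sum_apply]
    symm
    refine Finset.sum_eq_zero fun c' _ => Pi.single_eq_of_ne (fun h => ?_) _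
    exact absurd (Prod.ext_iff.1 h).1.symm (Fin.succ_ne_zero c')
  · simp only [emb, Fin.cases_succ, uz, Finset.sum_apply]
    refine Finset.sum_congr rfl fun c' _ => ?_
    simp only [Pi.single_apply, Prod.mk.injEq, Fin.succ_inj]

theorem size_odd {h P l : ℕ} (hh : 1 ≤ h) (hl : 1 ≤ l) (hP : 2 ≤ P) :
    (2 * ((2 * h + 1) * P)) ^ (2 * h + 1) + ((2 * ((2 * h + 1) * P)) ^ (2 * h + 1)) ^ 2 +
      2 * (2 * levN h P l ^ 2 + 1) ^ 4 ≤ P ^ (60 * h ^ 2 * l) := by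
  have hP1 : 1 ≤ P := by omega
  have hN := levN_le hh hl hP
  have hl2 : h ^ 2 * 1 ≤ h ^ 2 * l := Nat.mul_le_mul_left _ hl
  have hh2 : h * 1 ≤ h * h := Nat.mul_le_mul_left _ hh
  have hhl : h * l * 1 ≤ h * l * h := Nat.mul_le_mul_left _ hh
  have e1 : 2 * (2 * h + 1) ≤ P ^ (4 * h + 2) := by
    calc 2 * (2 * h + 1) ≤ 2 ^ (2 * (2 * h + 1)) := Nat.lt_two_pow_self.le
      _ = 2 ^ (4 * h + 2) := by congr 1; ring
      _ ≤ P ^ (4 * h + 2) := Nat.pow_le_pow_left hP _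
  have e2 : (2 * ((2 * h + 1) * P)) ^ (2 * h + 1) ≤ P ^ ((4 * h + 3) * (2 * h + 1)) := by
    calc (2 * ((2 * h + 1) * P)) ^ (2 * h + 1) = (2 * (2 * h + 1) * P) ^ (2 * h + 1) := by
          rw [mul_assoc]
      _ ≤ (P ^ (4 * h + 2) * P) ^ (2 * h + 1) := Nat.pow_le_pow_left (Nat.mul_le_mul_right _ e1) _
      _ = P ^ ((4 * h + 3) * (2 * h + 1)) := by rw [← pow_succ, ← pow_mul]
  have h1 : (2 * ((2 * h + 1) * P)) ^ (2 * h + 1) ≤ P ^ (58 * h ^ 2 * l) := by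
    refine e2.trans (Nat.pow_le_pow_right hP1 ?_)
    nlinarith
  have h2 : ((2 * ((2 * h + 1) * P)) ^ (2 * h + 1)) ^ 2 ≤ P ^ (58 * h ^ 2 * l) := by
    refine (Nat.pow_le_pow_left e2 2).trans ?_
    rw [← pow_mul]
    refine Nat.pow_le_pow_right hP1 ?_
    nlinarith
  have h3 : 2 * (2 * levN h P l ^ 2 + 1) ^ 4 ≤ P ^ (58 * h ^ 2 * l) := by
    have hpos : 1 ≤ P ^ (10 * h * l) := Nat.one_le_pow _ _ hP1
    have e3 : levN h P l ^ 2 ≤ P ^ (10 * h * l) := by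
      calc levN h P l ^ 2 ≤ (P ^ (5 * h * l)) ^ 2 := Nat.pow_le_pow_left hN 2
        _ = P ^ (10 * h * l) := by rw [← pow_mul]; congr 1; ring
    have e4 : 2 * levN h P l ^ 2 + 1 ≤ P ^ (10 * h * l + 2) := by
      calc 2 * levN h P l ^ 2 + 1 ≤ 2 * P ^ (10 * h * l) + P ^ (10 * h * l) := by omega
        _ ≤ P ^ (10 * h * l) * 2 ^ 2 := by omega
        _ ≤ P ^ (10 * h * l) * P ^ 2 := Nat.mul_le_mul_left _ (Nat.pow_le_pow_left hP _)
        _ = P ^ (10 * h * l + 2) := (pow_add _ _ _).symm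
    calc 2 * (2 * levN h P l ^ 2 + 1) ^ 4 ≤ P * (P ^ (10 * h * l + 2)) ^ 4 :=
          Nat.mul_le_mul hP (Nat.pow_le_pow_left e4 4)
      _ = P ^ ((10 * h * l + 2) * 4 + 1) := by rw [← pow_mul, pow_succ, mul_comm]
      _ ≤ P ^ (58 * h ^ 2 * l) := by
          refine Nat.pow_le_pow_right hP1 ?_
          have h3 : 1 * 1 ≤ h * l := Nat.mul_le_mul hh hl
          nlinarith
  have h4 : 1 ≤ P ^ (58 * h ^ 2 * l) := Nat.one_le_pow _ _ hP1
  calc _ ≤ P ^ (58 * h ^ 2 * l) + P ^ (58 * h ^ 2 * l) + P ^ (58 * h ^ 2 * l) :=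
        Nat.add_le_add (Nat.add_le_add h1 h2) h3
    _ ≤ P ^ (58 * h ^ 2 * l) * 2 ^ 2 := by omega
    _ ≤ P ^ (58 * h ^ 2 * l) * P ^ 2 := Nat.mul_le_mul_left _ (Nat.pow_le_pow_left hP _)
    _ = P ^ (58 * h ^ 2 * l + 2) := (pow_add _ _ _).symm
    _ ≤ P ^ (60 * h ^ 2 * l) := by
        refine Nat.pow_le_pow_right hP1 ?_
        have : 1 * 1 ≤ h ^ 2 * l := Nat.mul_le_mul (Nat.one_le_pow _ _ hh) hl
        nlinarith

/-- the density condition gives the conditions of DIM2 -/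
theorem dens_odd {h P l m : ℕ} (hh : 1 ≤ h) (hl : 1 ≤ l) (hP : 2 * l ≤ P)
    (hm : 320 * h * 4 ^ h * P * l * (P / l : ℝ) ^ (2 * h) * Real.logb 2 P ≤ (m : ℝ) ^ 2) :
    16 * P ≤ m ∧
    64 * P * (levN h P l : ℝ) ^ 2 * Real.logb 2 (levN h P l) ≤ (m : ℝ) ^ 2 * (levE h P l : ℝ) ^ 2 := by
  have hl0 : (0 : ℝ) < l := by exact_mod_cast hl
  have hl1 : (1 : ℝ) ≤ l := by exact_mod_cast hl
  have hh1 : (1 : ℝ) ≤ h := by exact_mod_cast hh
  have hP2 : (2 * l : ℝ) ≤ P := by exact_mod_cast hP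
  have hP0 : (0 : ℝ) < P := by linarith
  have hlog : 1 ≤ Real.logb 2 P := by
    rw [Real.le_logb_iff_rpow_le one_lt_two hP0, Real.rpow_one]
    linarith
  have hr : (2 : ℝ) ≤ P / l := by rw [le_div_iff₀ hl0]; linarith
  constructor
  · have h1 : (P / l : ℝ) ^ 2 ≤ (P / l : ℝ) ^ (2 * h) :=
      pow_le_pow_right₀ (by linarith) (by omega)
    have h2 : (4 : ℝ) ≤ 4 ^ h := by
      calc (4 : ℝ) = 4 ^ 1 := (pow_one _).symm
        _ ≤ 4 ^ h := pow_le_pow_right₀ (by norm_num) hh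
    have h3 : (16 * P : ℝ) ^ 2 ≤ (m : ℝ) ^ 2 := by
      refine le_trans ?_ hm
      calc (16 * P : ℝ) ^ 2 ≤ 320 * 1 * 4 * P * l * (P / l : ℝ) ^ 2 * 1 := by
            have e : 320 * 1 * 4 * (P : ℝ) * l * (P / l : ℝ) ^ 2 * 1 = 1280 * P ^ 2 * (P / l) := by
              field_simp
              ring
            rw [e]
            have : (1280 : ℝ) * P ^ 2 * 2 ≤ 1280 * P ^ 2 * (P / l) :=
              mul_le_mul_of_nonneg_left hr (by positivity)
            nlinarith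
        _ ≤ _ := by gcongr
    have h4 := abs_le_of_sq_le_sq' h3 (Nat.cast_nonneg _)
    exact_mod_cast h4.2
  · have h1 := log_levN hh hl hP
    have h2 := levE_sq (h := h) hl hP
    have h5 : (0 : ℝ) ≤ Real.logb 2 (levN h P l) :=
      Real.logb_nonneg one_lt_two (by exact_mod_cast levN_pos (h := h) (by omega : l < P))
    calc 64 * P * (levN h P l : ℝ) ^ 2 * Real.logb 2 (levN h P l) ≤
          64 * P * (4 ^ h * (P / l : ℝ) ^ (2 * h) * (levE h P l : ℝ) ^ 2) *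
            (5 * h * l * Real.logb 2 P) := by gcongr
      _ = (320 * h * 4 ^ h * P * l * (P / l : ℝ) ^ (2 * h) * Real.logb 2 P) *
          (levE h P l : ℝ) ^ 2 := by ring
      _ ≤ (m : ℝ) ^ 2 * (levE h P l : ℝ) ^ 2 := mul_le_mul_of_nonneg_right hm (by positivity)

end Pool.Agent.H5Ref
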