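import Pool.Agent.H5Ref.Odd

/-!
# The upper bound for odd arity
-/

set_option autoImplicit false

namespace Pool.Agent.H5Ref

open Module Pool.Agent.H5Sym Pool.Agent.H5Dich Pool.Agent.H5Lin

theorem bad_arith {b m n P N D T h k lam : ℕ} (hm : 0 < m) (hn : 0 < n) (hP : 0 < P)
    (h2 : b * (m * n) ≤ 8 * T) (h1 : T * P ^ (2 * (2 * h) + 1) ≤ m ^ 2 * N * D ^ 2 * k)
    (hND : N * D = n * P ^ (2 * h)) (h5 : lam * (8 * m * D) ≤ P ^ (2 * h + 1)) :
    lam * b ≤ k := by
  have h3 : b * P ^ (2 * h + 1) ≤ 8 * m * D * k := by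
    have h4 : (b * P ^ (2 * h + 1)) * (m * n * P ^ (2 * h)) ≤
        (8 * m * D * k) * (m * n * P ^ (2 * h)) := by
      have e : P ^ (2 * (2 * h) + 1) = P ^ (2 * h + 1) * P ^ (2 * h) := by
        rw [← pow_add]
        congr 1
        omega
      calc (b * P ^ (2 * h + 1)) * (m * n * P ^ (2 * h)) =
            (b * (m * n)) * P ^ (2 * (2 * h) + 1) := by rw [e]; ring
        _ ≤ (8 * T) * P ^ (2 * (2 * h) + 1) := Nat.mul_le_mul_right _ h2
        _ = 8 * (T * P ^ (2 * (2 * h) + 1)) := by rw [mul_assoc]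
        _ ≤ 8 * (m ^ 2 * N * D ^ 2 * k) := Nat.mul_le_mul_left _ h1
        _ = 8 * m ^ 2 * (N * D) * D * k := by ring
        _ = 8 * m ^ 2 * (n * P ^ (2 * h)) * D * k := by rw [hND]
        _ = _ := by ring
    exact Nat.le_of_mul_le_mul_right h4 (by positivity)
  have h8 : (lam * b) * P ^ (2 * h + 1) ≤ k * P ^ (2 * h + 1) := by
    calc (lam * b) * P ^ (2 * h + 1) = lam * (b * P ^ (2 * h + 1)) := mul_assoc _ _ _
      _ ≤ lam * (8 * m * D * k) := Nat.mul_le_mul_left _ h3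
      _ = (lam * (8 * m * D)) * k := by ring
      _ ≤ P ^ (2 * h + 1) * k := Nat.mul_le_mul_right _ h5
      _ = _ := mul_comm _ _
  exact Nat.le_of_mul_le_mul_right h8 (by positivity)

theorem bad_arith2 {h P l m lam : ℕ} (hl : 1 ≤ l) (hP : 2 * l ≤ P)
    (hlam : 2 ^ (h + 3) * lam * m ≤ P * (P / l : ℝ) ^ h) :
    lam * (8 * m * ((P - l) * (l + 1)) ^ h) ≤ P ^ (2 * h + 1) := by
  have hP0 : 0 < P := by omega
  have hl0 : (0 : ℝ) < l := by exact_mod_cast hl
  have hPr : (0 : ℝ) < P := by exact_mod_cast hP0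
  have hDle : ((P - l) * (l + 1)) ^ h ≤ (2 * P * l) ^ h := by
    refine Nat.pow_le_pow_left ?_ h
    calc (P - l) * (l + 1) ≤ P * (2 * l) := Nat.mul_le_mul (Nat.sub_le _ _) (by omega)
      _ = 2 * P * l := by ring
  refine (Nat.mul_le_mul_left _ (Nat.mul_le_mul_left _ hDle)).trans ?_
  have h6 : ((lam * (8 * m * (2 * P * l) ^ h) : ℕ) : ℝ) ≤ ((P ^ (2 * h + 1) : ℕ) : ℝ) := by
    push_cast
    calc (lam : ℝ) * (8 * m * (2 * P * l) ^ h) = (2 ^ (h + 3) * lam * m) * (P ^ h * l ^ h) := by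
          rw [pow_add, mul_pow, mul_pow]; ring
      _ ≤ (P * (P / l : ℝ) ^ h) * (P ^ h * l ^ h) :=
          mul_le_mul_of_nonneg_right hlam (by positivity)
      _ = P ^ (2 * h + 1) := by
          rw [div_pow, show 2 * h + 1 = h + h + 1 by ring, pow_add, pow_add]
          field_simp
  exact_mod_cast h6

theorem markov8 {Ω : Type} [Fintype Ω] (g : Ω → ℕ) (K : ℕ) :
    Nat.card {ω : Ω // ¬ 8 * g ω ≤ K} * K ≤ 8 * ∑ ω, g ω := by
  classical
  have h0 : Nat.card {ω : Ω // ¬ 8 * g ω ≤ K} = (Finset.univ.filter fun ω => ¬ 8 * g ω ≤ K).card :=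
    Nat.subtype_card _ fun ω => by simp
  rw [h0]
  calc (Finset.univ.filter fun ω => ¬ 8 * g ω ≤ K).card * K =
        ∑ ω ∈ (Finset.univ.filter fun ω => ¬ 8 * g ω ≤ K), K := by
          rw [Finset.sum_const, smul_eq_mul]
    _ ≤ ∑ ω ∈ (Finset.univ.filter fun ω => ¬ 8 * g ω ≤ K), 8 * g ω :=
        Finset.sum_le_sum fun ω hω => (not_le.1 (Finset.mem_filter.1 hω).2).le
    _ ≤ ∑ ω, 8 * g ω :=
        Finset.sum_le_sum_of_subset_of_nonneg (Finset.subset_univ _) fun _ _ _ => Nat.zero_le _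
    _ = _ := by rw [Finset.mul_sum]

/-- few scopes have many coincidences -/
theorem bad_odd (hBETA : S_BETA) {h P l m lam : ℕ} (hl : 1 ≤ l) (hP : 2 * l ≤ P) (hm : 0 < m)
    (S : Finset (Fin (2 * h) × Fin P → ZMod 2)) (hS1 : S.card = levN h P l)
    (hS3 : ∀ y ∈ S, Nat.card {i : Fin (2 * h) → Fin P // y + uz i ∈ S} = ((P - l) * (l + 1)) ^ h)
    (hlam : 2 ^ (h + 3) * lam * m ≤ P * (P / l : ℝ) ^ h) :
    lam * Nat.card {f : Fin (2 * h + 1) → Fin m → Fin P //
      ¬ 8 * bet S (fun j => uz fun c => f c.succ j) (f 0) ≤ m * levE h P l} ≤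
      P ^ ((2 * h + 1) * m) := by
  have h1 := hBETA (2 * h) P m (((P - l) * (l + 1)) ^ h) S hS3
  have hn0 : 0 < levE h P l := levE_pos (by omega)
  have h2 := markov8 (fun f : Fin (2 * h + 1) → Fin m → Fin P =>
    bet S (fun j => uz fun c => f c.succ j) (f 0)) (m * levE h P l)
  rw [hS1] at h1
  exact bad_arith hm hn0 (by omega) h2 h1 (levE_mul (by omega)) (bad_arith2 hl hP hlam)

/-- **The upper bound for odd arity.** -/
theorem upperOdd (hDIM : S_DIM2) (hLEV : S_LEV2) (hBETA : S_BETA) (hCIRC : S_CIRC2) (h P l : ℕ)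
    (hh : 1 ≤ h) (hl : 1 ≤ l) (hP : 2 * l ≤ P) :
    ∃ C : LCircuit.{0, 0} (Con (pred (even (2 * h + 1))) (Fin (2 * h + 1) × Fin P)) Bool,
      Nonempty (C.Action fun u : Fin (2 * h + 1) × Fin P → ZMod 2 => flipC u) ∧ Finite C.Gate ∧
      (∀ g, (∃ t, C.label g = .input t) ∨ C.label g = .sym orB ∨ C.label g = .sym andB ∨
        C.label g = .sym norB) ∧
      C.size ≤ P ^ (60 * h ^ 2 * l) ∧
      (∀ φ, (sol (ones φ)).Nonempty → C.eval φ C.out = true) ∧
      ∀ m lam : ℕ, 320 * h * 4 ^ h * P * l * (P / l : ℝ) ^ (2 * h) * Real.logb 2 P ≤ (m : ℝ) ^ 2 →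
        2 ^ (h + 3) * lam * m ≤ P * (P / l : ℝ) ^ h →
        lam * Nat.card {f : Fin (2 * h + 1) → Fin m → Fin P //
          2 ^ (-(m : ℝ) / 2) * (2 ^ (2 * h + 1)) ^ m < (Nat.card {w //
            C.eval (inst (even (2 * h + 1)) 0 (evenM (2 * h + 1)) (.refl _) f w) C.out = true} : ℝ)} ≤
          P ^ ((2 * h + 1) * m) := by
  classical
  obtain ⟨S, hS1, hS2, hS3⟩ := hLEV h P l (by omega)
  let S' : Finset (Fin (2 * h + 1) × Fin P → ZMod 2) := S.map ⟨emb, emb_inj⟩
  have hS' : ∀ y, emb y ∈ S' ↔ y ∈ S := fun y => by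
    simp only [S', Finset.mem_map, Function.Embedding.coeFn_mk]
    exact ⟨fun ⟨w, hw, he⟩ => emb_inj he ▸ hw, fun hy => ⟨y, hy, rfl⟩⟩
  have hSc : S'.card = levN h P l := by rw [Finset.card_map]; exact hS1
  obtain ⟨C, hact, hfin, hlab, hsize, heval⟩ := hCIRC (2 * h) (Fin (2 * h + 1) × Fin P) S'
  refine ⟨C, hact, hfin, hlab, ?_, ?_, ?_⟩
  · rw [hSc, Fintype.card_prod, Fintype.card_fin, Fintype.card_fin] at hsize
    exact hsize.trans (size_odd hh hl (by omega))
  · rintro φ ⟨x, hx⟩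
    have key : ∀ t, φ t = true → ∑ v, x v * (vec1 t) v = x (rt t) + sg t := by
      intro t ht
      have h1 : ∑ c : Fin (2 * h + 1), (x (t.2.1 c) + t.2.2 c) = 0 := hx t ht
      have h2 : ∑ v, x v * (vec1 t) v = ∑ c : Fin (2 * h), x (t.2.1 c.succ) :=
        vec_add_single x fun c : Fin (2 * h) => t.2.1 c.succ
      rw [h2]
      rw [Finset.sum_add_distrib, Fin.sum_univ_succ] at h1
      have h5 : ∀ a b c : F2, a + b + c = 0 → b = a + c := by decide
      exact h5 _ _ _ h1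
    refine (heval φ).2 ⟨fun y y' => ∑ v, x v * y v + ∑ v, x v * y' v,
      fun t t' ht ht' hr y _ y' _ _ _ => ?_⟩
    have h3 : ∀ y w : Fin (2 * h + 1) × Fin P → ZMod 2,
        ∑ v, x v * (y + w) v = ∑ v, x v * y v + ∑ v, x v * w v := fun y w => by
      simp only [Pi.add_apply, mul_add, Finset.sum_add_distrib]
    change ∑ v, x v * (y + vec1 t) v + ∑ v, x v * (y' + vec1 t') v =
      ∑ v, x v * y v + ∑ v, x v * y' v + (sg t + sg t')
    rw [h3, h3, key t ht, key t' ht', hr]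
    have h6 : ∀ a b c d e : F2, a + (e + b) + (c + (e + d)) = a + c + (b + d) := by decide
    exact h6 _ _ _ _ _
  · intro m lam hm hlam
    obtain ⟨hm1, hm2⟩ := dens_odd hh hl hP hm
    have hbad := bad_odd hBETA hl hP (by omega) S hS1 hS3 hlam
    have hgood : ∀ f : Fin (2 * h + 1) → Fin m → Fin P,
        8 * bet S (fun j => uz fun c => f c.succ j) (f 0) ≤ m * levE h P l →
        (Nat.card {w // C.eval (inst (even (2 * h + 1)) 0 (evenM (2 * h + 1)) (.refl _) f w)
          C.out = true} : ℝ) ≤ 2 ^ (-(m : ℝ) / 2) * (2 ^ (2 * h + 1)) ^ m := ?_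
    · refine le_trans (Nat.mul_le_mul_left _ ?_) hbad
      exact Nat.card_le_card_of_injective
        (fun f => (⟨f.1, fun hb => absurd f.2 (not_lt.2 (hgood f.1 hb))⟩ :
          {f : Fin (2 * h + 1) → Fin m → Fin P //
            ¬ 8 * bet S (fun j => uz fun c => f c.succ j) (f 0) ≤ m * levE h P l}))
        (fun f f' hff => Subtype.ext (congrArg (fun q => q.1) hff))
    intro f hb
    have h1 := hDIM (Fin (2 * h) × Fin P) S m P (levE h P l) (fun j => uz fun c => f c.succ j) (f 0)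
      (fun j => hS2 _) (levE_pos (by omega)) hm1 hb
      (by
        have : S.card = levN h P l := hS1
        rw [this]
        exact hm2)
    set A := {b : Fin m → ZMod 2 // ∃ c : (Fin (2 * h) × Fin P → ZMod 2) →
      (Fin (2 * h) × Fin P → ZMod 2) → ZMod 2,
      ∀ j j', j ≠ j' → f 0 j = f 0 j' → ∀ y ∈ S, ∀ y' ∈ S,
        y + (uz fun c => f c.succ j) ∈ S → y' + (uz fun c => f c.succ j') ∈ S →
        c (y + uz fun c => f c.succ j) (y' + uz fun c => f c.succ j') = c y y' + (b j + b j')} with hA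
    have hacc : ∀ w : Fin m → Fin (2 * h + 1) → F2,
        C.eval (inst (even (2 * h + 1)) 0 (evenM (2 * h + 1)) (.refl _) f w) C.out = true →
        ∃ c : (Fin (2 * h) × Fin P → ZMod 2) → (Fin (2 * h) × Fin P → ZMod 2) → ZMod 2,
          ∀ j j', j ≠ j' → f 0 j = f 0 j' → ∀ y ∈ S, ∀ y' ∈ S,
            y + (uz fun c => f c.succ j) ∈ S → y' + (uz fun c => f c.succ j') ∈ S →
            c (y + uz fun c => f c.succ j) (y' + uz fun c => f c.succ j') =
              c y y' + (∑ i, w j i + ∑ i, w j' i) := by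
      intro w hw
      obtain ⟨c, hc⟩ := (heval _).1 hw
      refine ⟨fun y y' => c (emb y) (emb y'), fun j j' _ hr y hy y' hy' hz hz' => ?_⟩
      let t : Fin m → Con (pred (even (2 * h + 1))) (Fin (2 * h + 1) × Fin P) := fun j =>
        ⟨(), (fun i : Fin (2 * h + 1) => (i, f i j),
          ((0 : Fin (2 * h + 1) → F2) + (w j + (0 : Fin (2 * h + 1) → F2)) : Fin (2 * h + 1) → F2))⟩
      have ht : ∀ j, inst (even (2 * h + 1)) 0 (evenM (2 * h + 1)) (.refl _) f w (t j) = true :=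
        fun j => inst_true.2 ⟨j, 0, (evenM (2 * h + 1)).zero_mem, rfl⟩
      have hsg : ∀ j, sg (t j) = ∑ i, w j i := by
        intro j
        change ∑ i : Fin (2 * h + 1), ((0 : Fin (2 * h + 1) → F2) +
          (w j + (0 : Fin (2 * h + 1) → F2))) i = _
        rw [zero_add, add_zero]
      have hvec : ∀ j, vec1 (t j) = emb (uz fun c => f c.succ j) := by
        intro j
        rw [emb_uz]
        rfl
      have h2 := hc (t j) (t j') (ht j) (ht j') (by
        change ((0 : Fin (2 * h + 1)), f 0 j) = (0, f 0 j')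
        rw [hr]) (emb y) ((hS' y).2 hy) (emb y') ((hS' y').2 hy')
        (by rw [hvec, ← emb_add]; exact (hS' _).2 hz) (by rw [hvec, ← emb_add]; exact (hS' _).2 hz')
      rw [hvec, hvec, ← emb_add, ← emb_add, hsg, hsg] at h2
      exact h2
    have hinj : Nat.card {w // C.eval (inst (even (2 * h + 1)) 0 (evenM (2 * h + 1)) (.refl _) f w)
        C.out = true} ≤ Nat.card (A × (Fin m → Fin (2 * h) → F2)) := by
      refine Nat.card_le_card_of_injective (fun w => (⟨fun j => ∑ i, w.1 j i, hacc w.1 w.2⟩,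
        fun j i => w.1 j i.castSucc)) ?_
      intro w w' hww
      refine Subtype.ext (funext fun j => funext fun i => ?_)
      have e1 := congrFun (congrArg Subtype.val (congrArg Prod.fst hww)) j
      have e2 := congrFun (congrArg Prod.snd hww) j
      dsimp only at e1 e2
      have e5 : ∀ i : Fin (2 * h), w.1 j i.castSucc = w'.1 j i.castSucc := fun i => congrFun e2 i
      rw [Fin.sum_univ_castSucc, Fin.sum_univ_castSucc] at e1
      simp only [e5] at e1
      have e6 := add_left_cancel e1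
      exact Fin.lastCases (motive := fun i => w.1 j i = w'.1 j i) e6 e5 i
    have hcard : (Nat.card (A × (Fin m → Fin (2 * h) → F2)) : ℝ) =
        Nat.card A * (2 ^ (2 * h)) ^ m := by
      rw [Nat.card_prod, Nat.card_eq_fintype_card (α := Fin m → Fin (2 * h) → F2), Fintype.card_fun,
        Fintype.card_fun, ZMod.card, Fintype.card_fin, Fintype.card_fin]
      push_cast
      rfl
    have h4 : (Nat.card {w // C.eval (inst (even (2 * h + 1)) 0 (evenM (2 * h + 1)) (.refl _) f w)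
        C.out = true} : ℝ) ≤ Nat.card A * (2 ^ (2 * h)) ^ m := by
      rw [← hcard]
      exact_mod_cast hinj
    refine h4.trans ((mul_le_mul_of_nonneg_right h1 (by positivity)).trans (le_of_eq ?_))
    rw [pow_succ (2 : ℝ) (2 * h), mul_pow ((2 : ℝ) ^ (2 * h)) (2 : ℝ) m, ← Real.rpow_natCast (2 : ℝ) m,
      mul_comm (((2 : ℝ) ^ (2 * h)) ^ m), ← mul_assoc, ← Real.rpow_add two_pos]
    congr 2
    ring

end Pool.Agent.H5Ref
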