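import Pool.Agent.H5Ref.Defs

/-!
# Pieces of the sharp trade-off for the refutation of random parity constraints

Four pieces, HYP, DIM, LEV, CIRC. Each is a `Prop`; prove `theorem hyp : S_HYP` in
`Pool/Agent/H5Ref/Hyp.lean`, `theorem dim : S_HYP → S_DIM` in `Pool/Agent/H5Ref/Dim.lean`,
`theorem lev : S_LEV` in `Pool/Agent/H5Ref/Lev.lean`, `theorem circ : S_CIRC` in
`Pool/Agent/H5Ref/Circ.lean` (each in the namespace `Pool.Agent.H5Ref`; no double quotes).
-/

set_option autoImplicit false

namespace Pool.Agent.H5Ref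

open Module Pool.Agent.H5Sym Pool.Agent.H5Dich Pool.Agent.H5Lin

/-- **HYP** (edge isoperimetry in the cube, about 80 lines). For `s = |S|` the number of pairs `(x, j)`
with `x ∈ S` and `τ j x ∈ S` is at most `s log₂ s`.
Proof. Induction on a finset `J' ⊆ J` of directions, for all `S` at once (sum over `j ∈ J'`; the
hypothesis on `Φ` for `i, j ∈ J'`). `J' = ∅`: `0 ≤ s log₂ s` (also for `s = 0` in Lean).
Step `J' = insert j₀ J''`: split `S = S₀ ∪ S₁` by the value of `Φ j₀`. For `j ∈ J''` and `x, τ j x ∈ S`
the value of `Φ j₀` is the same at `x` and `τ j x`, so the sum over `J''` is the sum for `S₀` plus the sum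
for `S₁`. For `j₀` the value changes, so `x ∈ S₀, τ x ∈ S₁` or conversely; since `τ j₀` is injective,
there are at most `2 min(s₀, s₁)` such `x` (the `x ∈ S₀` are at most `s₀`, and at most `s₁` by
injectivity; the same for `x ∈ S₁`).
It remains: `a log₂ a + b log₂ b + 2 a ≤ (a + b) log₂ (a + b)` for naturals `0 ≤ a ≤ b` (`a = 0` is
clear). With `L = Real.log`: `a L((a+b)/a) ≥ a L 2` since `(a+b)/a ≥ 2`, and
`b L(1 + a/b) ≥ a L 2` since `(1 + a/b)^(b/a) ≥ 2` by Bernoulli (`one_add_mul_self_le_rpow_one_add`).
Add both. -/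
def S_HYP : Prop := ∀ (X J : Type) [DecidableEq X] [DecidableEq J] [Fintype J] (S : Finset X)
  (τ : J → X → X) (Φ : J → X → ZMod 2), (∀ j, Function.Injective (τ j)) →
  (∀ i j, ∀ x ∈ S, τ j x ∈ S → Φ i (τ j x) = Φ i x + if i = j then 1 else 0) →
  ((∑ j, (S.filter fun x => τ j x ∈ S).card : ℕ) : ℝ) ≤ S.card * Real.logb 2 S.card

/-- **DIM** (about 80 lines, uses HYP as a hypothesis). The right-hand sides `b` for which there is a
potential form a subspace of dimension at most `log₂ |S| / α`.
Proof. `A := {b | ∃ c, ...}` is a submodule of `Fin m → ZMod 2` (add potentials; multiples by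
`F2.cases`). Let `d = finrank A`; `exists_info` (file `Pool/Agent/H5Sym/InfoSet.lean`, see its use in
`Pool/Agent/H5Lin/Main.lean`) gives an embedding `ι₀ : Fin d ↪ Fin m` such that for all `y` there is
`b ∈ A` with `b (ι₀ i) = y i` for all `i`. For `i : Fin d` choose `b_i ∈ A` with `b_i (ι₀ j) = δ_ij` and
its potential `Φ i`. Apply HYP with `J = Fin d`, `τ j y = y + z (ι₀ j)` (injective), `Φ`. By the
hypothesis on `α` the sum is at least `d α |S|`, so `d α |S| ≤ |S| log₂ |S|` and `d ≤ log₂ |S| / α`.
Finally the cardinality of `A` is `2 ^ d` (`Module.card_eq_pow_finrank`). -/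
def S_DIM : Prop := ∀ (V : Type) [Fintype V] [DecidableEq V] (S : Finset (V → ZMod 2)) (m : ℕ)
  (z : Fin m → V → ZMod 2) (α : ℝ), 0 < α → S.Nonempty →
  (∀ j, α * S.card ≤ ((S.filter fun y => y + z j ∈ S).card : ℝ)) →
  (Nat.card {b : Fin m → ZMod 2 // ∃ c : (V → ZMod 2) → ZMod 2,
    ∀ j, ∀ y ∈ S, y + z j ∈ S → c (y + z j) = c y + b j} : ℝ) ≤ 2 ^ (Real.logb 2 S.card / α)

/-- **LEV** (about 120 lines). Let `k = 2 h`. `S` is the set of the vectors `y` on `Fin (2 h) × Fin P`
such that for some set `B ⊆ Fin (2 h)` with `h` elements the row `y (c, ·)` has weight `ℓ` for `c ∈ B` and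
weight `ℓ + 1` for `c ∉ B` (weight: number of `i` with `y (c, i) ≠ 0`).
`B` is determined by `y`, so `|S| = ∑_B ∏_{c ∈ B} C(P, ℓ) ∏_{c ∉ B} C(P, ℓ + 1)` with `C(2h, h)` summands.
If one adds the unit vectors at `(c, i c)`, then the weight of row `c` changes by `+1` if
`y (c, i c) = 0` and by `-1` if `y (c, i c) = 1`. Hence `y` and the sum are both in `S` iff for some
`B` with `h` elements: for `c ∈ B` the weight is `ℓ` and `y (c, i c) = 0`
(`C(P - 1, ℓ)` possibilities), for `c ∉ B` the weight is `ℓ + 1` and `y (c, i c) = 1`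
(`C(P - 1, ℓ)` possibilities); the set for the sum is the complement of `B`. So there are
`C(2h, h) C(P - 1, ℓ)^(2h)` such `y`.
(Suggestion: identify `y` with a function `c ↦ Finset (Fin P)` or `c ↦ (Fin P → ZMod 2)` by currying and
use `Fintype.card_piFinset`, and disjoint unions over `B ∈ Finset.powersetCard h univ`.) -/
def S_LEV : Prop := ∀ h P l : ℕ, 1 ≤ P → ∃ S : Finset (Fin (2 * h) × Fin P → ZMod 2),
  S.card = (2 * h).choose h * (P.choose l * P.choose (l + 1)) ^ h ∧
  ∀ i : Fin (2 * h) → Fin P,
    (S.filter fun y => y + ∑ c, Pi.single (c, i c) 1 ∈ S).card =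
      (2 * h).choose h * (P - 1).choose l ^ (2 * h)

/-- **CIRC** (about 250 lines; the circuit for reachability in the double cover). `V` is the set of
variables, `N = |S|`. The circuit decides whether there is a potential `c` on `S` for the
constraints that are present. `LCircuit` and `LCircuit.Action` are in `Pool/Agent/H5Lin/Defs.lean`; take
`Row := Empty`. An example of such a circuit with its action and evaluation: `Pool/Agent/H5Lin/Xor.lean`,
`XorEval.lean`, or `Copies.lean`. Useful: `LCircuit.eval_input`, `eval_sym` (`H5Lin/Basic.lean`).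
Let `Q = S × ZMod 2` (with `2 N` elements). Gates: the inputs; `R t p p'` for `t ≤ 2 N`, `p, p' ∈ Q`;
`A t p p'' p'` for `t < 2 N`; the output.
`R 0 p p` is AND without wires, hence true. `R 0 (y, c) (y', c')` for `(y, c) ≠ (y', c')` is the OR of the
inputs `t` with `vec t = y + y'` and `sg t = c + c'`. `A t p p'' p'` is the AND of `R t p p''` and
`R t p'' p'`. `R (t + 1) p p'` is the OR of `A t p p'' p'` over all `p''`. The output is the NOR of
`R (2 N) (y, 0) (y, 1)` and `R (2 N) (y, 1) (y, 0)` over all `y ∈ S`. All labels of wires are `0`.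
Action of `u`: inputs by `flipC u`; `(y, c) ↦ (y, c + ∑ v, u v * y v)` in all other gates; note
`vec (flipC u t) = vec t` and `sg (flipC u t) = sg t + ∑ v, u v * vec t v`.
Correctness: call `p, p'` adjacent if `R 0 p p'` is true. `R t` implies that `p'` is reachable from `p`,
and if there is a walk with at most `t` steps then `R t` is true (induction: `R t ⊆ R (t + 1)`, and the
last step). Walks of minimal length have less than `2 N` steps (for instance
`SimpleGraph.Walk.IsPath.length_lt`). If no `(y, 1)` is reachable from `(y, 0)`, then choose in each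
component of the graph on `S` (images of the reachability classes) a base point `y₀` and put `c y = a` if
`(y, a)` is reachable from `(y₀, 0)` (adjacency is symmetric and invariant under adding `1` to both
second coordinates, so exactly one `a` works); this is a potential. Conversely, with a potential `c`
every `(y', a')` reachable from `(y, a)` has `c y' + a' = c y + a`. -/
def S_CIRC : Prop := ∀ (k : ℕ) (V : Type) [Fintype V] [DecidableEq V] (S : Finset (V → ZMod 2)),
  ∃ C : LCircuit.{0, 0} (Con (pred (even k)) V) Bool,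
    Nonempty (C.Action fun u : V → ZMod 2 => flipC u) ∧ Finite C.Gate ∧
    (∀ g, (∃ t, C.label g = .input t) ∨ C.label g = .sym orB ∨ C.label g = .sym andB ∨
      C.label g = .sym norB) ∧
    C.size ≤ (2 * Fintype.card V) ^ k + 2 * (2 * S.card + 1) ^ 4 ∧
    ∀ φ : Con (pred (even k)) V → Bool, C.eval φ C.out = true ↔
      ∃ c : (V → ZMod 2) → ZMod 2, ∀ t, φ t = true → ∀ y ∈ S, y + vec t ∈ S →
        c (y + vec t) = c y + sg t

end Pool.Agent.H5Ref
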