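import Pool.Agent.H5Ref.Defs

/-!
# Pieces for the refutation of random parity constraints of odd arity

Seven pieces, HYP2, GOOD, KEY, DIM2, LEV2, BETA, CIRC2. Each is a `Prop`; prove `theorem hyp2 : S_HYP2` in
`Pool/Agent/H5Ref/Hyp2.lean`, `theorem good : S_GOOD` in `Good.lean`,
`theorem key : S_HYP2 → S_GOOD → S_KEY` in `Key.lean`, `theorem dim2 : S_KEY → S_DIM2` in `Dim2.lean`,
`theorem lev2 : S_LEV2` in `Lev2.lean`, `theorem beta : S_BETA` in `Beta.lean`,
`theorem circ2 : S_CIRC2` in `Circ2.lean` (each in the namespace `Pool.Agent.H5Ref`; no double quotes;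
put auxiliary lemmas in the namespace of the piece).
-/

set_option autoImplicit false

namespace Pool.Agent.H5Ref

open Module Pool.Agent.H5Sym Pool.Agent.H5Dich Pool.Agent.H5Lin

/-- the sum of the unit vectors of all the variables of a constraint but the first one -/
def vec1 {k : ℕ} {R : Set (Fin (k + 1) → ZMod 2)} {V : Type} [DecidableEq V] (t : Con (pred R) V) :
    V → ZMod 2 := ∑ c : Fin k, Pi.single (t.2.1 c.succ) 1

/-- the first variable of a constraint -/
def rt {k : ℕ} {R : Set (Fin (k + 1) → ZMod 2)} {V : Type} (t : Con (pred R) V) : V :=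
  t.2.1 (0 : Fin (k + 1))

/-- the sum of the unit vectors at `(c, i c)` -/
def uz {k P : ℕ} (i : Fin k → Fin P) : Fin k × Fin P → ZMod 2 := ∑ c, Pi.single (c, i c) 1

open Classical in
/-- the number of the triples of a vector and two different rows of one group at it -/
noncomputable def bet {V : Type} {m P : ℕ} (S : Finset (V → ZMod 2)) (z : Fin m → V → ZMod 2)
    (u : Fin m → Fin P) : ℕ :=
  ((S ×ˢ (Finset.univ : Finset (Fin m × Fin m))).filter fun p => p.2.1 ≠ p.2.2 ∧ u p.2.1 = u p.2.2 ∧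
    p.1 + z p.2.1 ∈ S ∧ p.1 + z p.2.2 ∈ S).card

/-- `(j, y)` is good: the row `j` is at `y`, and it is the only row of its group at `y` and at `y + z j` -/
def IsGood {V : Type} {d P : ℕ} (S : Finset (V → ZMod 2)) (z : Fin d → V → ZMod 2)
    (u : Fin d → Fin P) (j : Fin d) (y : V → ZMod 2) : Prop :=
  y ∈ S ∧ y + z j ∈ S ∧ (∀ j', u j' = u j → y + z j' ∈ S → j' = j) ∧
    ∀ j', u j' = u j → y + z j + z j' ∈ S → j' = j

/-- **HYP2** (isoperimetry, about 100 lines; compare `Pool/Agent/H5Ref/Hyp.lean`, whose numerical lemma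
can be used). Proof. Show by induction on a finset `J' ⊆ J`, for all `S`: the number of the pairs
`(v, w) ∈ S × S` with `E v w` and `Φ i v ≠ Φ i w` for some `i ∈ J'` is at most `s log₂ s`. Step
`J' = insert j₀ J''`: split `S = S₀ ∪ S₁` by the value of `Φ j₀`. The pairs with `Φ j₀ v = Φ j₀ w` are
inside `S₀` or `S₁`, and counted by the induction hypothesis. The pairs with `Φ j₀ v ≠ Φ j₀ w`: those
with `v ∈ S₀`, `w ∈ S₁` are at most `min |S₀| |S₁|`, since `w` is determined by `v` (hypothesis (b)), and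
`v` by `w` (symmetry and (b)); the same for `v ∈ S₁`, `w ∈ S₀`. -/
def S_HYP2 : Prop := ∀ (X J : Type) [Finite J] (S : Finset X) (Φ : J → X → ZMod 2)
  (E : X → X → Prop), (∀ v w, E v w → E w v) →
  (∀ v ∈ S, ∀ w ∈ S, E v w → ∃ i, Φ i v ≠ Φ i w) →
  (∀ v ∈ S, ∀ w ∈ S, ∀ w' ∈ S, ∀ i, E v w → E v w' → Φ i v ≠ Φ i w → Φ i v ≠ Φ i w' → w = w') →
  (Nat.card {p : X × X // p.1 ∈ S ∧ p.2 ∈ S ∧ E p.1 p.2} : ℝ) ≤ S.card * Real.logb 2 S.card

/-- **GOOD** (about 70 lines). Proof. The number of the pairs `(j, y)` with `y ∈ S` and `y + z j ∈ S` is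
`d * n`. If such a pair is not good, then there is `j' ≠ j` with `u j' = u j` and `y + z j' ∈ S`, or
there is `j' ≠ j` with `u j' = u j` and `y + z j + z j' ∈ S`. The number of the pairs of the first kind is
at most `bet S z u` (projection `(y, j, j') ↦ (j, y)`). The involution `(j, y) ↦ (j, y + z j)` maps the
pairs of the second kind to the pairs of the first kind (`y + z j + z j = y`). -/
def S_GOOD : Prop := ∀ (V : Type) (S : Finset (V → ZMod 2)) (d P n : ℕ) (z : Fin d → V → ZMod 2)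
  (u : Fin d → Fin P), (∀ j, Nat.card {y // y ∈ S ∧ y + z j ∈ S} = n) →
  d * n ≤ Nat.card {q : Fin d × (V → ZMod 2) // IsGood S z u q.1 q.2} + 2 * bet S z u

/-- **KEY** (about 120 lines, uses HYP2 and GOOD as hypotheses). Let `G` be the set of the good pairs
`(j, y)` and `g` its cardinality; `d n - 2 bet ≤ g` by GOOD. By Cauchy-Schwarz
`g² ≤ P * #{((j, y), (j', y')) ∈ G × G | u j = u j'}`. The pairs of pairs with `j = j'` are at most `d n²`.
The pairs of pairs with `j ≠ j'` (and `u j = u j'`) are at most the number of the edges of the following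
graph `E` on `Y × Y` (`Y = V → ZMod 2`) inside `S × S`: `E (y, y') (w, w')` iff there are `j ≠ j'` with
`u j = u j'`, `(j, y)` and `(j', y')` good, `w = y + z j`, `w' = y' + z j'`. Indeed
`((j, y), (j', y')) ↦ ((y, y'), (y + z j, y' + z j'))` is injective: if `(i, i')` gives the same edge, then
`Φ j` is different at the two ends, so `j = i` or `j = i'` by the hypothesis on `Φ` for the edge `(i, i')`,
hence `u i = u j`, hence `i = j` (`(j, y)` is good and `y + z i ∈ S`) and `i' = j'`.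
By HYP2 for `X = Y × Y`, `S × S`, `Φ`, `E` there are at most `|S|² log₂ |S|²` edges: `E` is symmetric
(`(j, y + z j)` is good if `(j, y)` is good); (a): `Φ j` differs, since `j ≠ j'`; (b): if `E v w` by
`(j, j')` and `E v w'` by `(l, l')` and `Φ i` differs for both, then `i ∈ {j, j'}` and `i ∈ {l, l'}`, so
all five are in one group, and `l = j`, `l' = j'` since `(j, y)` and `(j', y')` are good. -/
def S_KEY : Prop := ∀ (V : Type) (S : Finset (V → ZMod 2)) (d P n : ℕ) (z : Fin d → V → ZMod 2)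
  (u : Fin d → Fin P) (Φ : Fin d → (V → ZMod 2) → (V → ZMod 2) → ZMod 2),
  (∀ j, Nat.card {y // y ∈ S ∧ y + z j ∈ S} = n) →
  (∀ i j j', j ≠ j' → u j = u j' → ∀ y ∈ S, ∀ y' ∈ S, y + z j ∈ S → y' + z j' ∈ S →
    Φ i (y + z j) (y' + z j') = Φ i y y' + ((if i = j then 1 else 0) + if i = j' then 1 else 0)) →
  2 * bet S z u ≤ d * n →
  ((d : ℝ) * n - 2 * bet S z u) ^ 2 ≤ P * (2 * S.card ^ 2 * Real.logb 2 S.card + d * n ^ 2)

/-- **DIM2** (about 100 lines, uses KEY as a hypothesis; compare `Pool/Agent/H5Ref/Dim.lean`).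
Proof. The set `A` of these `b` is a submodule of `Fin m → ZMod 2`. Let `d = finrank A`;
`exists_info` gives an embedding `ι₀ : Fin d ↪ Fin m` and `b_i ∈ A` with `b_i (ι₀ j) = δ_ij`; let `Φ i`
be the potential of `b_i`. Suppose `m / 2 < d`. KEY for the rows `ι₀ j`; `bet S (z ∘ ι₀) (u ∘ ι₀) ≤
bet S z u =: β` (injection of triples). `8 β ≤ m n < 2 d n`, so `2 β < d n / 2` and
`(d n / 2)² ≤ (d n - 2 β')² ≤ P (2 N² log₂ N + d n²)` for `β' ≤ β`. Since `8 P ≤ m / 2 < d` we have
`P d n² ≤ d² n² / 8`, and so `d² n² / 8 ≤ 2 P N² log₂ N`, that is `d² n² ≤ 16 P N² log₂ N ≤ m² n² / 4`,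
a contradiction to `d > m / 2` and `n > 0`. Hence `d ≤ m / 2`, and `A` has `2 ^ d` elements. -/
def S_DIM2 : Prop := ∀ (V : Type) [Fintype V] [DecidableEq V] (S : Finset (V → ZMod 2)) (m P n : ℕ)
  (z : Fin m → V → ZMod 2) (u : Fin m → Fin P),
  (∀ j, Nat.card {y // y ∈ S ∧ y + z j ∈ S} = n) → 0 < n → 16 * P ≤ m →
  8 * bet S z u ≤ m * n →
  64 * P * (S.card : ℝ) ^ 2 * Real.logb 2 S.card ≤ (m : ℝ) ^ 2 * n ^ 2 →
  (Nat.card {b : Fin m → ZMod 2 // ∃ c : (V → ZMod 2) → (V → ZMod 2) → ZMod 2,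
    ∀ j j', j ≠ j' → u j = u j' → ∀ y ∈ S, ∀ y' ∈ S, y + z j ∈ S → y' + z j' ∈ S →
      c (y + z j) (y' + z j') = c y y' + (b j + b j')} : ℝ) ≤ 2 ^ ((m : ℝ) / 2)

/-- **LEV2** (the set `S` of the piece LEV, file `Pool/Agent/H5Ref/Lev0.lean`, with the degree of each
vertex; about 120 new lines). If `y ∈ S` with the set `B`, then `y + uz i ∈ S` if and only if
`y (c, i c) = 0` for `c ∈ B` (`P - l` choices of `i c`) and `y (c, i c) = 1` for `c ∉ B` (`l + 1`
choices of `i c`). -/
def S_LEV2 : Prop := ∀ h P l : ℕ, 1 ≤ P → ∃ S : Finset (Fin (2 * h) × Fin P → ZMod 2),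
  S.card = (2 * h).choose h * (P.choose l * P.choose (l + 1)) ^ h ∧
  (∀ i : Fin (2 * h) → Fin P, Nat.card {y // y ∈ S ∧ y + uz i ∈ S} =
      (2 * h).choose h * (P - 1).choose l ^ (2 * h)) ∧
  ∀ y ∈ S, Nat.card {i : Fin (2 * h) → Fin P // y + uz i ∈ S} = ((P - l) * (l + 1)) ^ h

/-- **BETA** (first moment, about 120 lines). Proof. Exchange the sums: for `y ∈ S` and rows `j ≠ j'`
count the `f` with `f 0 j = f 0 j'` and `y + uz (fun c => f c.succ j) ∈ S`, and the same for `j'`. It is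
`P * D ^ 2 * P ^ ((k + 1) * (m - 2))` (the columns `j`, `j'` of `f` are two elements of
`Fin (k + 1) → Fin P`, for which there are `P * D ^ 2` possibilities, the other `m - 2` columns are
arbitrary). Multiply by `P ^ (2 * k + 1)`: `P * D ^ 2 * P ^ (2 * k + 1) * P ^ ((k + 1) * (m - 2)) =
D ^ 2 * P ^ ((k + 1) * m)`. (Suggestion: `Equiv` to `Fin m → (Fin (k + 1) → Fin P)`, and
`Fintype.card_piFinset` with the finset for the column: sum over the common value `a` of `f 0 j`:
for `j` and `j'` the columns `g` with `g 0 = a` and `y + uz (g ∘ succ) ∈ S`, `D` of them.) -/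
def S_BETA : Prop := ∀ (k P m D : ℕ) (S : Finset (Fin k × Fin P → ZMod 2)),
  (∀ y ∈ S, Nat.card {i : Fin k → Fin P // y + uz i ∈ S} = D) →
  (∑ f : Fin (k + 1) → Fin m → Fin P, bet S (fun j => uz fun c => f c.succ j) (f 0)) *
    P ^ (2 * k + 1) ≤ m ^ 2 * S.card * D ^ 2 * P ^ ((k + 1) * m)

/-- **CIRC2** (about 300 lines; a modification of `Pool/Agent/H5Ref/Circ.lean`). `N = |S|`.
The vertices of the double cover are `Q = S × S × ZMod 2` (with `2 N²` elements). Gates: the inputs; for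
each pair `(t, t')` of constraints a gate `D (t, t')`, the AND of the inputs `t` and `t'`; `R s p p'` for
`s ≤ 2 N²`; `A s p p'' p'` for `s < 2 N²`; the output. Everything is as in CIRC, but
`R 0 (y, y', c) (w, w', c')` is the OR of the gates `D (t, t')` with `rt t = rt t'`,
`vec1 t = y + w`, `vec1 t' = y' + w'` and `sg t + sg t' = c + c'`, and the flip `u` acts by
`(y, y', c) ↦ (y, y', c + ∑ v, u v * (y v + y' v))` and on the gates `D` by `flipC u` on both
constraints; note `sg (flipC u t) = sg t + u (rt t) + ∑ v, u v * vec1 t v`. The relation `R 0` is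
symmetric and invariant under adding `1` to both third coordinates. (For `p = p'` CIRC has the OR over
all `t` as well, so nothing is special.) -/
def S_CIRC2 : Prop := ∀ (k : ℕ) (V : Type) [Fintype V] [DecidableEq V] (S : Finset (V → ZMod 2)),
  ∃ C : LCircuit.{0, 0} (Con (pred (even (k + 1))) V) Bool,
    Nonempty (C.Action fun u : V → ZMod 2 => flipC u) ∧ Finite C.Gate ∧
    (∀ g, (∃ t, C.label g = .input t) ∨ C.label g = .sym orB ∨ C.label g = .sym andB ∨
      C.label g = .sym norB) ∧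
    C.size ≤ (2 * Fintype.card V) ^ (k + 1) + ((2 * Fintype.card V) ^ (k + 1)) ^ 2 +
      2 * (2 * S.card ^ 2 + 1) ^ 4 ∧
    ∀ φ : Con (pred (even (k + 1))) V → Bool, C.eval φ C.out = true ↔
      ∃ c : (V → ZMod 2) → (V → ZMod 2) → ZMod 2, ∀ t t', φ t = true → φ t' = true →
        rt t = rt t' → ∀ y ∈ S, ∀ y' ∈ S, y + vec1 t ∈ S → y' + vec1 t' ∈ S →
          c (y + vec1 t) (y' + vec1 t') = c y y' + (sg t + sg t')

end Pool.Agent.H5Ref
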