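import Pool.Agent.H5Ref.Fool

/-!
# The value for random right-hand sides
-/

set_option autoImplicit false

namespace Pool.Agent.H5Ref

open Module Pool.Agent.H5Sym Pool.Agent.H5Dich Pool.Agent.H5Lin

variable {k P m : ℕ} {V : Type}

theorem inst_eq (R : Set (Fin k → F2)) (q : Fin k → F2) (M : Submodule F2 (Fin k → F2))
    (ι : Fin k × Fin P ↪ V) (f : Fin k → Fin m → Fin P) (w : Fin m → Fin k → F2) (v0 : V) :
    inst R q M ι f w = frm (Γ := pred R) v0 ι f {⟨(), (some, q)⟩}
      (M.comap (LinearMap.funLeft F2 F2 some)) w := by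
  funext t
  rw [Bool.eq_iff_iff, inst_true, frm_pred]
  rfl

/-- the fraction of the right-hand sides for which some assignment is better than a random one -/
theorem value_card (hk : 0 < k) (R : Set (Fin k → F2)) (q : Fin k → F2)
    (M : Submodule F2 (Fin k → F2)) (ι : Fin k × Fin P ↪ V) (f : Fin k → Fin m → Fin P)
    (hf : ∀ j j', (∀ c, f c j = f c j') → j = j') (ε : ℝ) (hε0 : 0 < ε) (hε1 : ε ≤ 1) :
    (Nat.card {w : Fin m → Fin k → F2 // ¬ ValueLT (R.ncard / 2 ^ k + ε) (inst R q M ι f w)} : ℝ) ≤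
      2 ^ (k * P) * Real.exp (-(ε ^ 2 / 4 * m)) * (2 ^ k) ^ m := by
  classical
  rcases Nat.eq_zero_or_pos m with rfl | hm
  · have h1 : Nat.card {w : Fin 0 → Fin k → F2 //
        ¬ ValueLT (R.ncard / 2 ^ k + ε) (inst R q M ι f w)} ≤ Nat.card (Fin 0 → Fin k → F2) :=
      Nat.card_le_card_of_injective _ Subtype.val_injective
    rw [Nat.card_eq_fintype_card (α := Fin 0 → Fin k → F2), Fintype.card_fun, Fintype.card_fin,
      pow_zero] at h1
    have h2 : (1 : ℝ) ≤ 2 ^ (k * P) := one_le_pow₀ (by norm_num)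
    have h3 : (Nat.card {w : Fin 0 → Fin k → F2 //
        ¬ ValueLT (R.ncard / 2 ^ k + ε) (inst R q M ι f w)} : ℝ) ≤ 1 := by exact_mod_cast h1
    simpa using h3.trans h2
  have v0 : V := ι (⟨0, hk⟩, f ⟨0, hk⟩ ⟨0, hm⟩)
  set δ : ℝ := R.ncard / 2 ^ k with hδ
  have hRk : R.ncard ≤ 2 ^ k := by
    have h1 := Set.ncard_le_ncard (Set.subset_univ R) (Set.toFinite _)
    rw [Set.ncard_univ, Nat.card_eq_fintype_card, Fintype.card_fun, ZMod.card, Fintype.card_fin] at h1
    exact h1
  have hδ0 : 0 ≤ δ := by positivity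
  have hδ1 : δ ≤ 1 := by
    rw [hδ, div_le_one (by positivity)]
    exact_mod_cast hRk
  have hMc : (0 : ℝ) < Nat.card M := by
    have : 0 < Nat.card M := Nat.card_pos
    exact_mod_cast this
  have hsub : (Finset.univ.filter fun w : Fin m → Fin k → F2 =>
      ¬ ValueLT (δ + ε) (inst R q M ι f w)) ⊆
      Finset.univ.biUnion fun z : Fin k × Fin P → F2 =>
        Finset.univ.filter fun w : Fin m → Fin k → F2 => (δ + ε) * m ≤
          ∑ j, dens R M (((fun c => z (c, f c j)) + q) + w j) := by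
    intro w hw
    have hw' := (Finset.mem_filter.1 hw).2
    rw [ValueLT] at hw'
    push Not at hw'
    obtain ⟨x, hx⟩ := hw'
    rw [inst_eq R q M ι f w v0, card_sat R v0 ι f hf q M w x, card_total R v0 ι f hf q M w,
      ← mul_assoc] at hx
    have h1 := le_of_mul_le_mul_right hx hMc
    rw [Finset.mem_biUnion]
    exact ⟨x ∘ ι, Finset.mem_univ _, Finset.mem_filter.2 ⟨Finset.mem_univ _, h1⟩⟩
  have h1 : Nat.card {w : Fin m → Fin k → F2 // ¬ ValueLT (δ + ε) (inst R q M ι f w)} =
      (Finset.univ.filter fun w : Fin m → Fin k → F2 =>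
        ¬ ValueLT (δ + ε) (inst R q M ι f w)).card := by
    rw [Nat.card_eq_fintype_card, Fintype.card_subtype]
  rw [h1]
  have h2 : ((Finset.univ.filter fun w : Fin m → Fin k → F2 =>
      ¬ ValueLT (δ + ε) (inst R q M ι f w)).card : ℝ) ≤
      ∑ z : Fin k × Fin P → F2, ((Finset.univ.filter fun w : Fin m → Fin k → F2 =>
        (δ + ε) * m ≤ ∑ j, dens R M (((fun c => z (c, f c j)) + q) + w j)).card : ℝ) := by
    exact_mod_cast (Finset.card_le_card hsub).trans Finset.card_biUnion_le
  refine h2.trans ((Finset.sum_le_sum fun z _ => moment (dens R M) (dens_nonneg R M)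
    (dens_le_one R M) hδ0 hδ1 hε0 hε1 (by rw [dens_sum, hδ]; field_simp)
    (fun j => (fun c => z (c, f c j)) + q)).trans (le_of_eq ?_))
  rw [Finset.sum_const, Finset.card_univ, Fintype.card_fun, ZMod.card, Fintype.card_prod,
    Fintype.card_fin, Fintype.card_fin, nsmul_eq_mul]
  push_cast
  ring

/-- the homogeneous system is solved by all assignments which vanish on the variables -/
theorem sol_zero (R : Set (Fin k → F2)) (q : Fin k → F2) (M : Submodule F2 (Fin k → F2))
    (hqM : ∀ l ∈ M, q + l ∈ R) (ι : Fin k × Fin P ↪ V) (f : Fin k → Fin m → Fin P)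
    (y : V → F2) : y ∈ sol (ones (inst R q M ι f (lhsH ι f y))) := by
  intro t ht
  obtain ⟨j, l, hl, rfl⟩ := inst_true.1 ht
  have h1 : (fun c => y (ι (c, f c j)) + (q + (lhsH ι f y j + l)) c) = q + l := by
    funext c
    change y (ι (c, f c j)) + (q c + (y (ι (c, f c j)) + l c)) = q c + l c
    have := add_self_mod (y (ι (c, f c j)))
    linear_combination this
  change (fun c => y (ι (c, f c j)) + (q + (lhsH ι f y j + l)) c) ∈ R
  rw [h1]
  exact hqM l hl

end Pool.Agent.H5Ref
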