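import Pool.Agent.H5Ref.Stm
import Pool.Agent.H5Ref.Val

/-!
# Refutation by reachability in the double cover
-/

set_option autoImplicit false

namespace Pool.Agent.H5Ref

open Module Pool.Agent.H5Sym Pool.Agent.H5Dich Pool.Agent.H5Lin

/-- the vectors with sum zero -/
def evenM (k : ℕ) : Submodule (ZMod 2) (Fin k → ZMod 2) where
  carrier := {l | ∑ j, l j = 0}
  zero_mem' := by simp
  add_mem' := by
    intro a b ha hb
    rw [Set.mem_ofPred_eq] at ha hb ⊢
    simp only [Pi.add_apply, Finset.sum_add_distrib, ha, hb, add_zero]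
  smul_mem' := by
    intro c a ha
    rw [Set.mem_ofPred_eq] at ha ⊢
    simp only [Pi.smul_apply, smul_eq_mul, ← Finset.mul_sum, ha, mul_zero]

theorem mem_evenM {k : ℕ} {l : Fin k → ZMod 2} : l ∈ evenM k ↔ ∑ j, l j = 0 := Iff.rfl

/-- the size of the set of the levels -/
def levN (h P l : ℕ) : ℕ := (2 * h).choose h * (P.choose l * P.choose (l + 1)) ^ h

theorem lev_alpha (h P l : ℕ) (hl : l < P) :
    (((P - l) * (l + 1) / P ^ 2 : ℝ) ^ h) * levN h P l =
      ((2 * h).choose h * (P - 1).choose l ^ (2 * h) : ℕ) := by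
  obtain ⟨P, rfl⟩ : ∃ P', P = P' + 1 := ⟨P - 1, by omega⟩
  have h1 : P.choose l * (P + 1) = (P + 1).choose l * (P + 1 - l) := Nat.choose_mul_succ_eq P l
  have h2 : (P + 1) * P.choose l = (P + 1).choose (l + 1) * (l + 1) := Nat.add_one_mul_choose_eq P l
  have h1' : (P.choose l : ℝ) * (P + 1) = (P + 1).choose l * (P + 1 - l) := by
    have h3 : ((P + 1 - l : ℕ) : ℝ) = (P : ℝ) + 1 - l := by
      rw [Nat.cast_sub (by omega)]
      push_cast
      ring
    rw [← h3]
    exact_mod_cast h1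
  have h2' : ((P : ℝ) + 1) * P.choose l = (P + 1).choose (l + 1) * (l + 1) := by
    exact_mod_cast h2
  have hP : (0 : ℝ) < (P : ℝ) + 1 := by positivity
  rw [levN]
  push_cast
  rw [mul_left_comm, ← mul_pow, pow_mul]
  congr 2
  have h4 : ((P : ℝ) + 1 - l) * (l + 1) * ((P + 1).choose l * (P + 1).choose (l + 1)) =
      (P.choose l : ℝ) ^ 2 * ((P : ℝ) + 1) ^ 2 := by
    calc ((P : ℝ) + 1 - l) * (l + 1) * ((P + 1).choose l * (P + 1).choose (l + 1))
        = ((P + 1).choose l * (P + 1 - l)) * ((P + 1).choose (l + 1) * (l + 1)) := by ring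
      _ = ((P.choose l : ℝ) * (P + 1)) * (((P : ℝ) + 1) * P.choose l) := by rw [h1', h2']
      _ = _ := by ring
  rw [div_mul_eq_mul_div, h4]
  field_simp

theorem vec_add_single {V : Type} [Fintype V] [DecidableEq V] {k : ℕ} (x : V → F2) (s : Fin k → V) :
    ∑ v, x v * (∑ c, Pi.single (M := fun _ => F2) (s c) 1 : V → F2) v = ∑ c, x (s c) := by
  simp only [Finset.sum_apply, Finset.mul_sum]
  rw [Finset.sum_comm]
  refine Finset.sum_congr rfl fun c _ => ?_
  rw [Finset.sum_eq_single (s c)]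
  · simp
  · intro v _ hv
    rw [Pi.single_eq_of_ne hv, mul_zero]
  · intro h
    exact absurd (Finset.mem_univ _) h

/-- **The upper bound.** -/
theorem upperR (hDIM : S_DIM) (hLEV : S_LEV) (hCIRC : S_CIRC) (h P l : ℕ) (hh : 1 ≤ h)
    (hl : l < P) :
    ∃ C : LCircuit.{0, 0} (Con (pred (even (2 * h))) (Fin (2 * h) × Fin P)) Bool,
      Nonempty (C.Action fun u : Fin (2 * h) × Fin P → ZMod 2 => flipC u) ∧ Finite C.Gate ∧
      (∀ g, (∃ t, C.label g = .input t) ∨ C.label g = .sym orB ∨ C.label g = .sym andB ∨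
        C.label g = .sym norB) ∧
      C.size ≤ (2 * (2 * h * P)) ^ (2 * h) + 2 * (2 * levN h P l + 1) ^ 4 ∧
      (∀ φ, (sol (ones φ)).Nonempty → C.eval φ C.out = true) ∧
      ∀ (m : ℕ) (f : Fin (2 * h) → Fin m → Fin P),
        (Nat.card {w // C.eval (inst (even (2 * h)) 0 (evenM (2 * h)) (.refl _) f w) C.out = true} :
          ℝ) ≤ 2 ^ (Real.logb 2 (levN h P l) * (P ^ 2 / ((P - l) * (l + 1)) : ℝ) ^ h - m) *
            (2 ^ (2 * h)) ^ m := by
  classical
  obtain ⟨S, hS1, hS2⟩ := hLEV h P l (by omega)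
  obtain ⟨C, hact, hfin, hlab, hsize, heval⟩ := hCIRC (2 * h) (Fin (2 * h) × Fin P) S
  have hSN : S.card = levN h P l := hS1
  refine ⟨C, hact, hfin, hlab, ?_, ?_, ?_⟩
  · rw [hSN, Fintype.card_prod, Fintype.card_fin, Fintype.card_fin] at hsize
    exact hsize
  · rintro φ ⟨x, hx⟩
    refine (heval φ).2 ⟨fun y => ∑ v, x v * y v, fun t ht y _ _ => ?_⟩
    have h1 : ∑ c, (x (t.2.1 c) + t.2.2 c) = 0 := hx t ht
    have h2 : ∑ v, x v * (vec t) v = ∑ c, x (t.2.1 c) := vec_add_single x t.2.1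
    have h3 : ∑ v, x v * (y + vec t) v = ∑ v, x v * y v + ∑ v, x v * (vec t) v := by
      simp only [Pi.add_apply, mul_add, Finset.sum_add_distrib]
    change ∑ v, x v * (y + vec t) v = ∑ v, x v * y v + sg t
    rw [h3, h2]
    congr 1
    rw [Finset.sum_add_distrib] at h1
    have h5 : ∀ a b : F2, a + b = 0 → a = b := by decide
    exact h5 _ _ h1
  · intro m f
    let z : Fin m → Fin (2 * h) × Fin P → F2 := fun j => ∑ c, Pi.single (c, f c j) 1
    set α : ℝ := ((P - l) * (l + 1) / P ^ 2 : ℝ) ^ h with hα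
    have hlP : (l : ℝ) < P := by exact_mod_cast hl
    have hP0 : (0 : ℝ) < P := lt_of_le_of_lt (Nat.cast_nonneg l) hlP
    have hPl : (0 : ℝ) < P - l := by linarith
    have hα0 : 0 < α := by positivity
    have hN0 : 0 < levN h P l :=
      Nat.mul_pos (Nat.choose_pos (by omega)) (Nat.pow_pos (Nat.mul_pos
        (Nat.choose_pos (by omega)) (Nat.choose_pos (by omega))))
    have hSne : S.Nonempty := Finset.card_pos.1 (by rw [hSN]; exact hN0)
    have h1 := hDIM (Fin (2 * h) × Fin P) S m z α hα0 hSne (fun j => by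
      rw [hSN, hα, lev_alpha h P l hl]
      have := hS2 fun c => f c j
      exact_mod_cast this.symm.le)
    set A := {b : Fin m → ZMod 2 // ∃ c : (Fin (2 * h) × Fin P → ZMod 2) → ZMod 2,
      ∀ j, ∀ y ∈ S, y + z j ∈ S → c (y + z j) = c y + b j} with hA
    -- the accepted right-hand sides
    have hacc : ∀ w : Fin m → Fin (2 * h) → F2,
        C.eval (inst (even (2 * h)) 0 (evenM (2 * h)) (.refl _) f w) C.out = true →
        ∃ c : (Fin (2 * h) × Fin P → ZMod 2) → ZMod 2,
          ∀ j, ∀ y ∈ S, y + z j ∈ S → c (y + z j) = c y + ∑ i, w j i := by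
      intro w hw
      obtain ⟨c, hc⟩ := (heval _).1 hw
      refine ⟨c, fun j y hy hyz => ?_⟩
      let t0 : Con (pred (even (2 * h))) (Fin (2 * h) × Fin P) :=
        ⟨(), (fun i : Fin (2 * h) => (i, f i j),
          ((0 : Fin (2 * h) → F2) + (w j + (0 : Fin (2 * h) → F2)) : Fin (2 * h) → F2))⟩
      have h2 := hc t0 (inst_true.2 ⟨j, 0, (evenM (2 * h)).zero_mem, rfl⟩) y hy hyz
      have h3 : sg t0 = ∑ i, w j i := by
        change ∑ i : Fin (2 * h), ((0 : Fin (2 * h) → F2) + (w j + (0 : Fin (2 * h) → F2))) i = _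
        rw [zero_add, add_zero]
      rw [h3] at h2
      exact h2
    obtain ⟨k', hk'⟩ : ∃ k', 2 * h = k' + 1 := ⟨2 * h - 1, by omega⟩
    have hinj : Nat.card {w // C.eval (inst (even (2 * h)) 0 (evenM (2 * h)) (.refl _) f w) C.out =
        true} ≤ Nat.card (A × (Fin m → Fin k' → F2)) := by
      refine Nat.card_le_card_of_injective (fun w => (⟨fun j => ∑ i, w.1 j i, hacc w.1 w.2⟩,
        fun j i => w.1 j (Fin.cast hk'.symm i.castSucc))) ?_
      intro w w' hww
      refine Subtype.ext (funext fun j => funext fun i => ?_)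
      have e1 := congrFun (congrArg Subtype.val (congrArg Prod.fst hww)) j
      have e2 := congrFun (congrArg Prod.snd hww) j
      dsimp only at e1 e2
      have e3 : ∀ v : Fin (2 * h) → F2, ∑ i, v i =
          ∑ i : Fin k', v (Fin.cast hk'.symm i.castSucc) + v (Fin.cast hk'.symm (Fin.last k')) := by
        intro v
        have e4 : ∑ i, v i = ∑ i : Fin (k' + 1), v (Fin.cast hk'.symm i) :=
          (Fintype.sum_equiv (finCongr hk'.symm) _ _ fun i => rfl).symm
        rw [e4, Fin.sum_univ_castSucc]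
      rw [e3, e3] at e1
      have e5 : ∀ i : Fin k', w.1 j (Fin.cast hk'.symm i.castSucc) =
          w'.1 j (Fin.cast hk'.symm i.castSucc) := fun i => congrFun e2 i
      simp only [e5] at e1
      have e6 := add_left_cancel e1
      have e7 : ∀ i' : Fin (k' + 1), w.1 j (Fin.cast hk'.symm i') = w'.1 j (Fin.cast hk'.symm i') := by
        intro i'
        refine Fin.lastCases ?_ ?_ i'
        · exact e6
        · exact e5
      exact e7 (Fin.cast hk' i)
    have hcard : (Nat.card (A × (Fin m → Fin k' → F2)) : ℝ) = Nat.card A * (2 ^ k') ^ m := by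
      rw [Nat.card_prod, Nat.card_eq_fintype_card (α := Fin m → Fin k' → F2), Fintype.card_fun,
        Fintype.card_fun, ZMod.card, Fintype.card_fin, Fintype.card_fin]
      push_cast
      rfl
    have h4 : (Nat.card {w // C.eval (inst (even (2 * h)) 0 (evenM (2 * h)) (.refl _) f w) C.out =
        true} : ℝ) ≤ Nat.card A * (2 ^ k') ^ m := by
      rw [← hcard]
      exact_mod_cast hinj
    have h5 : Real.logb 2 S.card / α =
        Real.logb 2 (levN h P l) * (P ^ 2 / ((P - l) * (l + 1)) : ℝ) ^ h := by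
      rw [hSN, hα, div_eq_mul_inv, ← inv_pow, inv_div]
    rw [h5] at h1
    refine h4.trans ((mul_le_mul_of_nonneg_right h1 (by positivity)).trans (le_of_eq ?_))
    rw [Real.rpow_sub two_pos, Real.rpow_natCast, hk', pow_succ (2 : ℝ) k', mul_pow ((2 : ℝ) ^ k') (2 : ℝ) m]
    have h6 : (0 : ℝ) < 2 ^ m := by positivity
    field_simp

end Pool.Agent.H5Ref
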