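import Pool.Agent.H5Ref.Stm2
import Pool.Agent.H5Ref.Upper

/-!
# Pieces for the final form: all densities, all predicates that contain a coset of the even vectors

Pieces SUBS, DIM3, PRE, LFT. `theorem subs : S_SUBS` in `Pool/Agent/H5Ref/Subs.lean`,
`theorem dim3 : S_KEY → S_SUBS → S_DIM3` in `Dim3.lean`, `theorem pre : S_PRE` in `Pre.lean`,
`theorem lft_inst : S_LFTI` and `theorem lft_sol : S_LFTS` in `Lft.lean` (namespace
`Pool.Agent.H5Ref`; no double quotes).
-/

set_option autoImplicit false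

namespace Pool.Agent.H5Ref

open Module Pool.Agent.H5Sym Pool.Agent.H5Dich Pool.Agent.H5Lin

/-- the scope of a constraint -/
def sco {k : ℕ} {R : Set (Fin k → ZMod 2)} {V : Type} (t : Con (pred R) V) : Fin k → V := t.2.1

open Classical in
/-- the parity constraints which are implied by the constraints of `φ`: all the constraints with the
same scope are present whose sum of signs is the sum of the signs plus the sum of `q` -/
noncomputable def lft {k : ℕ} {R : Set (Fin k → ZMod 2)} {V : Type} (q : Fin k → ZMod 2)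
    (φ : Con (pred R) V → Bool) : Con (pred (even k)) V → Bool :=
  fun t => decide (∀ t' : Con (pred R) V, sco t' = sco t → sg t' = ∑ c, q c + sg t → φ t' = true)

/-- **SUBS** (about 70 lines, only counting). Proof. Induction on `d`. `s = d`: the identity.
`s ≤ d`, from `d` to `d + 1` (with `s ≤ d`): for `v : Fin (d + 1)` let `b v = bet S (z ∘ v.succAbove)
(u ∘ v.succAbove)`. The sum of the `b v` is the number of the pairs of `v` and a triple `(y, j, j')`
with `v ≠ j`, `v ≠ j'`, and so it is `(d - 1) * bet S z u` (all triples have `j ≠ j'`). Hence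
`(d + 1) * b v ≤ (d - 1) * bet S z u` for some `v`, and
`b v * (d + 1) ^ 2 ≤ (d - 1) (d + 1) bet S z u ≤ d ^ 2 * bet S z u`. Apply the induction hypothesis
to `z ∘ v.succAbove`, `u ∘ v.succAbove`, and cancel `d ^ 2` (if `d = 0` then `s = 0` and `bet` of
no rows is `0`). -/
def S_SUBS : Prop := ∀ (V : Type) (S : Finset (V → ZMod 2)) (d s P : ℕ) (z : Fin d → V → ZMod 2)
  (u : Fin d → Fin P), s ≤ d →
  ∃ ι : Fin s ↪ Fin d, bet S (z ∘ ι) (u ∘ ι) * d ^ 2 ≤ s ^ 2 * bet S z u

/-- **DIM3** (about 120 lines; a modification of `Pool/Agent/H5Ref/Dim2.lean`).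
Proof. As in DIM2 let `A` be the submodule, `d = finrank A`, `ι₀ : Fin d ↪ Fin m` an information set with
`b_i`, `Φ i` for `i : Fin d`. Suppose `m < 2 d`. Then `s ≤ d`. SUBS for `z ∘ ι₀`, `u ∘ ι₀` gives
`ι : Fin s ↪ Fin d` with `β' d ^ 2 ≤ s ^ 2 β₀`, where `β' = bet` for the rows `ι₀ (ι i)`,
`β₀ = bet S (z ∘ ι₀) (u ∘ ι₀) ≤ bet S z u = β`. So `4 β' d ^ 2 ≤ 4 s ^ 2 β ≤ s m ^ 2 n / 4 ≤ s n d ^ 2`,
hence `4 β' ≤ s n`. KEY for the `s` rows `ι₀ (ι i)` with the potentials `Φ (ι i)` (`i : Fin s`):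
`s² n² / 4 ≤ (s n - 2 β')² ≤ P (2 N² log₂ N + s n²)`, and `P s n² ≤ s² n² / 8` because `8 P ≤ s`, so
`s² n² ≤ 16 P N² log₂ N`, a contradiction. Hence `d ≤ m / 2` and `|A| = 2 ^ d ≤ 2 ^ (m / 2)`. -/
def S_DIM3 : Prop := ∀ (V : Type) [Fintype V] [DecidableEq V] (S : Finset (V → ZMod 2))
  (m P n s : ℕ) (z : Fin m → V → ZMod 2) (u : Fin m → Fin P),
  (∀ j, Nat.card {y // y ∈ S ∧ y + z j ∈ S} = n) → 0 < n → 2 * s ≤ m → 8 * P ≤ s →
  16 * s * bet S z u ≤ m ^ 2 * n →
  16 * P * (S.card : ℝ) ^ 2 * Real.logb 2 S.card < (s : ℝ) ^ 2 * n ^ 2 →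
  (Nat.card {b : Fin m → ZMod 2 // ∃ c : (V → ZMod 2) → (V → ZMod 2) → ZMod 2,
    ∀ j j', j ≠ j' → u j = u j' → ∀ y ∈ S, ∀ y' ∈ S, y + z j ∈ S → y' + z j' ∈ S →
      c (y + z j) (y' + z j') = c y y' + (b j + b j')} : ℝ) ≤ 2 ^ ((m : ℝ) / 2)

/-- **PRE** (about 120 lines; composition with a layer of AND gates). The new circuit has the gates
`Con (pred R) V ⊕ C.Gate`, no rows (`Row := Empty`). The left gates are the inputs. A right gate `g`
with `C.label g = .input t` becomes an AND gate (`.sym andB`) with one wire with label `0` from each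
left gate `t'` with `sco t' = sco t` and `sg t' = ∑ c, q c + sg t` (a finset, since `V` is finite); the
other right gates keep their kind and wires (`Prod.map id Sum.inr`). Levels: `0` on the left,
`C.level g + 1` on the right. The flip `u` acts by `flipC u` on the left and as before on the right;
note `sco (flipC u t) = sco t` and `sg (flipC u t) = sg t + ∑ c, u (sco t c)`. There are
`(2 * |V|) ^ k` constraints (see `card_cn` in `Pool/Agent/H5Ref/Circ.lean`). Evaluation: strong
induction on the level of `g`: the right gate `g` has the value `C.eval (lft q φ) g` (`eval_input`,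
`eval_sym` of `Pool/Agent/H5Lin/Basic.lean`). -/
def S_PRE : Prop := ∀ (k : ℕ) (V : Type) [Fintype V] [DecidableEq V] (R : Set (Fin k → ZMod 2))
  (q : Fin k → ZMod 2) (C : LCircuit.{0, 0} (Con (pred (even k)) V) Bool),
  Nonempty (C.Action fun u : V → ZMod 2 => flipC u) → Finite C.Gate →
  (∀ g, (∃ t, C.label g = .input t) ∨ C.label g = .sym orB ∨ C.label g = .sym andB ∨
    C.label g = .sym norB) →
  ∃ C' : LCircuit.{0, 0} (Con (pred R) V) Bool,
    Nonempty (C'.Action fun u : V → ZMod 2 => flipC u) ∧ Finite C'.Gate ∧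
    (∀ g, (∃ t, C'.label g = .input t) ∨ C'.label g = .sym orB ∨ C'.label g = .sym andB ∨
      C'.label g = .sym norB) ∧
    C'.size ≤ (2 * Fintype.card V) ^ k + C.size ∧
    ∀ φ : Con (pred R) V → Bool, C'.eval φ C'.out = C.eval (lft q φ) C.out

/-- **LFTI**: for the instances with whole cosets. -/
def S_LFTI : Prop := ∀ (k m P : ℕ) (V : Type) (R : Set (Fin k → ZMod 2)) (q : Fin k → ZMod 2)
  (ι : Fin k × Fin P ↪ V) (f : Fin k → Fin m → Fin P) (w : Fin m → Fin k → ZMod 2),
  lft q (inst R q (evenM k) ι f w) = inst (even k) 0 (evenM k) ι f w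

/-- **LFTS**: solutions satisfy the implied parity constraints. -/
def S_LFTS : Prop := ∀ (k : ℕ) (V : Type) (R : Set (Fin k → ZMod 2)) (q : Fin k → ZMod 2),
  R ≠ Set.univ → (∀ l ∈ evenM k, q + l ∈ R) → ∀ φ : Con (pred R) V → Bool,
  (sol (ones φ)).Nonempty → (sol (ones (lft q φ))).Nonempty

end Pool.Agent.H5Ref
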